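import Pool.Agent.SMT.Fourier

/-!
# MODULE CondVar: conditional variance

`g x = ex q (fun y => f (glue J x y))` has the expansion `∑_{S ⊆ J} f̂(S) χ_S` (the average over
`y` of `χ_S (glue J x y)` is `χ_S x` if `S ⊆ J` and `0` otherwise), so `E g² = ∑_{S ⊆ J} f̂(S)²`,
`E g = E f = E f² = ∑_S f̂(S)²` (`ex_glue`), hence `cond_var`.
`exists_boost`: if `g < 3/4` everywhere then `g (1 - g) ≥ g / 4` (`g ≥ 0`), so
`E[g(1-g)] ≥ E[f]/4`; so there is `x` with `g x ≥ 3/4`, and `f` is monotone.
-/

namespace SMT.Cube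

open Finset

variable {ι : Type} [Fintype ι] [DecidableEq ι]

private theorem CondVar_glue (q : ℝ) (J S : Finset ι) (x y : ι → Bool) :
    ch q S (glue J x y) = ch q (S ∩ J) x * ch q (S \ J) y := by
  unfold ch glue
  rw [← Finset.prod_inter_mul_prod_diff S J]
  congr 1
  · refine prod_congr rfl fun i hi => ?_
    rw [if_pos (mem_inter.mp hi).2]
  · refine prod_congr rfl fun i hi => ?_
    rw [if_neg (mem_sdiff.mp hi).2]

private theorem CondVar_ex_ch {q : ℝ} (h0 : 0 < q) (h1 : q < 1) (T : Finset ι) :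
    ex q (fun y : ι → Bool => ch q T y) = if T = ∅ then 1 else 0 := by
  have h := ex_ch_mul h0 h1 T ∅
  have e : ∀ y : ι → Bool, ch q (∅ : Finset ι) y = 1 := fun y => by simp [ch]
  simp only [e, mul_one] at h
  exact h

private theorem CondVar_g {q : ℝ} (h0 : 0 < q) (h1 : q < 1) (f : (ι → Bool) → ℝ) (J : Finset ι)
    (x : ι → Bool) : ex q (fun y => f (glue J x y)) =
      ∑ S, (if S ⊆ J then coef q f S else 0) * ch q S x := by
  have e1 : ex q (fun y => f (glue J x y)) =
      ex q (fun y => ∑ S, coef q f S * ch q S (glue J x y)) := by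
    congr 1
    funext y
    exact inversion h0 h1 f _
  rw [e1, ex_sum]
  refine sum_congr rfl fun S _ => ?_
  have e2 : (fun y => coef q f S * ch q S (glue J x y)) =
      fun y => (coef q f S * ch q (S ∩ J) x) * ch q (S \ J) y := by
    funext y
    rw [CondVar_glue]
    ring
  rw [e2, ex_mul_left, CondVar_ex_ch h0 h1]
  by_cases hS : S ⊆ J
  · rw [if_pos (sdiff_eq_empty_iff_subset.mpr hS), if_pos hS, inter_eq_left.mpr hS, mul_one]
  · rw [if_neg (fun h => hS (sdiff_eq_empty_iff_subset.mp h)), if_neg hS]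
    ring

theorem cond_var {q : ℝ} (h0 : 0 < q) (h1 : q < 1) {f : (ι → Bool) → ℝ}
    (hf01 : ∀ x, f x = 0 ∨ f x = 1) (J : Finset ι) :
    ex q (fun x => ex q (fun y => f (glue J x y)) * (1 - ex q (fun y => f (glue J x y)))) =
      ∑ S ∈ univ.filter (fun S : Finset ι => ¬ S ⊆ J), coef q f S ^ 2 := by
  set g : (ι → Bool) → ℝ := fun x => ex q (fun y => f (glue J x y)) with hg
  have hgx : g = fun x => ∑ S, (if S ⊆ J then coef q f S else 0) * ch q S x := by
    funext x
    exact CondVar_g h0 h1 f J x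
  have hcg : ∀ S, coef q g S = if S ⊆ J then coef q f S else 0 := by
    intro S
    rw [hgx]
    exact coef_of_expansion h0 h1 (fun S => if S ⊆ J then coef q f S else 0) S
  have e1 : ex q (fun x => g x * (1 - g x)) = ex q f - ex q (fun x => g x * g x) := by
    rw [ex_glue q f J, ← ex_sub]
    congr 1
    funext x
    simp only [hg]
    ring
  have e2 : ex q f = ∑ S, coef q f S * coef q f S := by
    rw [← plancherel h0 h1 f f]
    congr 1
    funext x
    rcases hf01 x with h | h <;> rw [h] <;> norm_num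
  have e3 : ex q (fun x => g x * g x) = ∑ S, coef q g S * coef q g S := plancherel h0 h1 g g
  show ex q (fun x => g x * (1 - g x)) = _
  rw [e1, e2, e3, ← sum_sub_distrib, sum_filter]
  refine sum_congr rfl fun S _ => ?_
  rw [hcg]
  by_cases hS : S ⊆ J
  · rw [if_pos hS, if_neg (not_not.mpr hS)]
    ring
  · rw [if_neg hS, if_pos hS]
    ring

theorem exists_boost {q η : ℝ} (h0 : 0 < q) (h1 : q < 1) {f : (ι → Bool) → ℝ} (hf : Monotone f)
    (hf01 : ∀ x, f x = 0 ∨ f x = 1) (J : Finset ι) (hη : η ≤ ex q f)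
    (h : ∑ S ∈ univ.filter (fun S : Finset ι => ¬ S ⊆ J), coef q f S ^ 2 < η / 4) :
    3 / 4 ≤ ex q (fun y => f (glue J (fun _ => true) y)) := by
  by_contra hcon
  push Not at hcon
  rw [← cond_var h0 h1 hf01 J] at h
  have hle : ∀ x, ex q (fun y => f (glue J x y)) < 3 / 4 := by
    intro x
    refine lt_of_le_of_lt (ex_mono h0.le h1.le fun y => hf ?_) hcon
    intro i
    unfold glue
    split_ifs
    · exact Bool.le_true _
    · exact le_rfl
  have hge : ∀ x, 0 ≤ ex q (fun y => f (glue J x y)) := fun x =>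
    ex_nonneg h0.le h1.le fun y => by
      rcases hf01 (glue J x y) with h2 | h2 <;> rw [h2] <;> norm_num
  have h3 : ex q (fun x => 1 / 4 * ex q (fun y => f (glue J x y))) ≤
      ex q (fun x => ex q (fun y => f (glue J x y)) * (1 - ex q (fun y => f (glue J x y)))) := by
    refine ex_mono h0.le h1.le fun x => ?_
    nlinarith [hle x, hge x]
  rw [ex_mul_left, ← ex_glue] at h3
  linarith

end SMT.Cube
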