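import Pool.Agent.SMT.Defs

/-!
# The reduction from `d`-to-1 games to MAX SMTI: definitions

Parameters: `a`, `b` (words are functions `Fin R₁ → ℕ` with values `< b`; the letters `< a` are the
*low* ones), `ℓ` (number of constraints in a tuple), `C` (number of levels).
-/

namespace SMT

variable {R₁ R₂ : ℕ} [NeZero R₂]

/-- the `j`-th digit of `v` in base `m` -/
def digit (m v j : ℕ) : ℕ := v / m ^ j % m

/-- a dummy constraint -/
def dflt (R₁ R₂ : ℕ) [NeZero R₂] : ℕ × ℕ × (Fin R₁ → Fin R₂) := (0, 0, fun _ => 0)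

/-- the left vertex of the tuple `v`: the left end of the constraint number `digit m v 0` -/
def vx (G : Game R₁ R₂) (v : ℕ) : ℕ := (G.getD (digit G.length v 0) (dflt R₁ R₂)).1

/-- the constraints at the left vertex `x` -/
def consAt {R₁ R₂ : ℕ} (G : Game R₁ R₂) (x : ℕ) : Game R₁ R₂ := G.filter (fun c => decide (c.1 = x))

/-- the `j`-th constraint of the tuple `v` (for `j < ℓ`); all of them are at the vertex `vx G v` -/
def vcon (G : Game R₁ R₂) (v j : ℕ) : ℕ × ℕ × (Fin R₁ → Fin R₂) :=
  (consAt G (vx G v)).getD (digit G.length v (j + 1) % (consAt G (vx G v)).length) (dflt R₁ R₂)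

/-- the number of words -/
def nw (b R : ℕ) : ℕ := b ^ R

/-- the word number `k` -/
def word (b R : ℕ) (k : ℕ) : Fin R → ℕ := fun i => k / b ^ (i : ℕ) % b

/-- Words `z`, `w` over the label sets of two left vertices, with the maps `π`, `τ` to the label set
of a common right vertex: there are no low letters at places mapped to the same right label. -/
def Adj {R R' : ℕ} (a : ℕ) (π τ : Fin R → Fin R') (z w : Fin R → ℕ) : Prop :=
  ∀ i i', π i = τ i' → ¬ (z i < a ∧ w i' < a)

instance {R R' : ℕ} (a : ℕ) (π τ : Fin R → Fin R') (z w : Fin R → ℕ) :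
    Decidable (Adj a π τ z w) := inferInstanceAs (Decidable (∀ i i', _))

/-- adjacency between the words number `k`, `l` -/
def adjn {R R' : ℕ} (a b : ℕ) (π τ : Fin R → Fin R') (k l : ℕ) : Bool :=
  decide (Adj a π τ (word b R k) (word b R l))

/-- the words `k` of `v` and `l` of `u` are adjacent through a common right vertex -/
def cross (G : Game R₁ R₂) (a b ℓ v u k l : ℕ) : Bool :=
  (List.range ℓ).any fun j => (List.range ℓ).any fun j' =>
    decide ((vcon G v j).2.1 = (vcon G u j').2.1) &&
      adjn a b (vcon G v j).2.2 (vcon G u j').2.2 k l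

/-- number of the word of the agent `μ`; the agent `μ` is `(v, c, k)` with
`μ = (v * C + c) * nw b R + k` -/
def agW (b R μ : ℕ) : ℕ := μ % nw b R
/-- level of the agent `μ` -/
def agC (b R C μ : ℕ) : ℕ := μ / nw b R % C
/-- tuple of the agent `μ` -/
def agV (b R C μ : ℕ) : ℕ := μ / nw b R / C

/-- the two ranks (given by the man, given by the woman) of the pair of main agents `μ`, `ω` -/
def rk (G : Game R₁ R₂) (a b ℓ C μ ω : ℕ) : Option (ℕ × ℕ) :=
  if μ / nw b R₁ = ω / nw b R₁ ∧
      adjn a b (id : Fin R₁ → Fin R₁) id (agW b R₁ μ) (agW b R₁ ω) = true then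
    some (0, 0)
  else if cross G a b ℓ (agV b R₁ C μ) (agV b R₁ C ω) (agW b R₁ μ) (agW b R₁ ω) = true then
    some (agC b R₁ C ω + 1, agC b R₁ C μ + 1)
  else none

/-- the number of main men (and of main women) -/
def nT {R₁ R₂ : ℕ} (G : Game R₁ R₂) (b ℓ C : ℕ) : ℕ := G.length ^ (ℓ + 1) * C * nw b R₁

/-- The SMTI instance: main agents `μ < T`; the private partner of main man `μ` is woman `T + μ`,
and the private partner of main woman `ω` is man `T + ω`. -/
def red (G : Game R₁ R₂) (a b ℓ C : ℕ) : Inst :=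
  ((List.range (2 * nT G b ℓ C)).map fun μ =>
      if μ < nT G b ℓ C then
        ((List.range (nT G b ℓ C)).filterMap fun ω =>
          (rk G a b ℓ C μ ω).map fun r => (ω, r.1)) ++ [(nT G b ℓ C + μ, C + 1)]
      else [(μ - nT G b ℓ C, 0)],
   (List.range (2 * nT G b ℓ C)).map fun ω =>
      if ω < nT G b ℓ C then
        ((List.range (nT G b ℓ C)).filterMap fun μ =>
          (rk G a b ℓ C μ ω).map fun r => (μ, r.2)) ++ [(nT G b ℓ C + ω, C + 1)]
      else [(ω - nT G b ℓ C, 0)])

end SMT
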