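import Pool.Agent.SMT.Algo

/-!
# MODULE AlgPoly: the algorithm runs in polynomial time

`fun_prop` with the library `Pool/Agent/PolyTime`. The fold in `gsRun`: all the states are sublists of
`edges I` (or `[]`), so their size is bounded (`Poly.foldl_inv` / `Poly.foldl` with a polynomial bound;
`rejStep` is a `filter` of `E`).
-/

namespace SMT

open FP

section
variable {α : Type} [Code α]

abbrev AlgPoly_E := ℕ × ℕ × ℕ

theorem AlgPoly_rankM {I : α → Inst} {i j : α → ℕ} (hI : FP.Poly I) (hi : FP.Poly i) (hj : FP.Poly j) :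
    FP.Poly (fun x => rankM (I x) (i x) (j x)) := by
  unfold rankM rankIn
  have hj' : FP.Poly (fun p : α × (ℕ × ℕ) => j p.1) := hj.comp (by fun_prop)
  refine FP.Poly.optionMap (g := fun _ p => Prod.snd p) (FP.Poly.find? (by fun_prop) (by fun_prop)) (by fun_prop)

theorem AlgPoly_rankW {I : α → Inst} {i j : α → ℕ} (hI : FP.Poly I) (hi : FP.Poly i) (hj : FP.Poly j) :
    FP.Poly (fun x => rankW (I x) (j x) (i x)) := by
  unfold rankW rankIn
  have hj' : FP.Poly (fun p : α × (ℕ × ℕ) => i p.1) := hi.comp (by fun_prop)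
  refine FP.Poly.optionMap (g := fun _ p => Prod.snd p) (FP.Poly.find? (by fun_prop) (by fun_prop)) (by fun_prop)

theorem AlgPoly_lex4 {f g : α → ℕ × ℕ × ℕ × ℕ} (hf : FP.Poly f) (hg : FP.Poly g) :
    FP.Poly (fun x => lex4 (f x) (g x)) := by
  unfold lex4
  fun_prop

theorem AlgPoly_keyM {I : α → Inst} {e : α → AlgPoly_E} (hI : FP.Poly I) (he : FP.Poly e) :
    FP.Poly (fun x => keyM (I x) (e x)) := by
  unfold keyM
  have h := AlgPoly_rankM (i := fun x => (e x).1) (j := fun x => (e x).2.1) hI (by fun_prop) (by fun_prop)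
  fun_prop

theorem AlgPoly_keyW {I : α → Inst} {e : α → AlgPoly_E} (hI : FP.Poly I) (he : FP.Poly e) :
    FP.Poly (fun x => keyW (I x) (e x)) := by
  unfold keyW
  have h := AlgPoly_rankW (i := fun x => (e x).1) (j := fun x => (e x).2.1) hI (by fun_prop) (by fun_prop)
  fun_prop

theorem AlgPoly_acc : FP.Poly accPairs := by
  unfold accPairs
  refine FP.Poly.flatMap (by fun_prop) (FP.Poly.flatMap (by fun_prop) ?_)
  have h1 := AlgPoly_rankM (α := (Inst × ℕ) × ℕ) (I := fun p => p.1.1) (i := fun p => p.1.2) (j := fun p => p.2)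
    (by fun_prop) (by fun_prop) (by fun_prop)
  have h2 := AlgPoly_rankW (α := (Inst × ℕ) × ℕ) (I := fun p => p.1.1) (i := fun p => p.1.2) (j := fun p => p.2)
    (by fun_prop) (by fun_prop) (by fun_prop)
  fun_prop

theorem AlgPoly_edges : FP.Poly edges := by
  unfold edges
  have := AlgPoly_acc
  fun_prop

theorem AlgPoly_props {I : α → Inst} {R : α → List AlgPoly_E} (hI : FP.Poly I) (hR : FP.Poly R) :
    FP.Poly (fun x => props (edges (I x)) (fun e : AlgPoly_E => e.1)
      (fun e e' => lex4 (keyM (I x) e) (keyM (I x) e')) (R x)) := by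
  unfold props
  have hE : FP.Poly (fun x => edges (I x)) := AlgPoly_edges.comp hI
  have hE' : FP.Poly (fun p : α × AlgPoly_E => edges (I p.1)) := AlgPoly_edges.comp (hI.comp (by fun_prop))
  have hR' : FP.Poly (fun p : α × AlgPoly_E => R p.1) := hR.comp (by fun_prop)
  have hR'' : FP.Poly (fun p : (α × AlgPoly_E) × AlgPoly_E => R p.1.1) := hR.comp (by fun_prop)
  have hI'' : FP.Poly (fun p : (α × AlgPoly_E) × AlgPoly_E => I p.1.1) := hI.comp (by fun_prop)
  have hl := AlgPoly_lex4 (AlgPoly_keyM (e := fun p : (α × AlgPoly_E) × AlgPoly_E => p.2) hI'' (by fun_prop))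
    (AlgPoly_keyM (e := fun p : (α × AlgPoly_E) × AlgPoly_E => p.1.2) hI'' (by fun_prop))
  refine FP.Poly.filter hE (FP.Poly.and (FP.Poly.not ?_) (FP.Poly.all hE' ?_))
  · exact FP.Poly.decideMem (by fun_prop) hR'
  · refine FP.Poly.or (FP.Poly.or (FP.Poly.decideMem (by fun_prop) hR'') ?_) (FP.Poly.not hl)
    fun_prop

theorem AlgPoly_step {I : α → Inst} {R : α → List AlgPoly_E} (hI : FP.Poly I) (hR : FP.Poly R) :
    FP.Poly (fun x => rejStep (edges (I x)) (fun e : AlgPoly_E => e.1) (fun e => e.2.1)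
      (fun e e' => lex4 (keyM (I x) e) (keyM (I x) e'))
      (fun e e' => lex4 (keyW (I x) e) (keyW (I x) e')) (R x)) := by
  unfold rejStep
  have hE : FP.Poly (fun x => edges (I x)) := AlgPoly_edges.comp hI
  have hR' : FP.Poly (fun p : α × AlgPoly_E => R p.1) := hR.comp (by fun_prop)
  have hP := AlgPoly_props (I := fun p : α × AlgPoly_E => I p.1) (R := fun p : α × AlgPoly_E => R p.1)
    (hI.comp (by fun_prop)) hR'
  have hI'' : FP.Poly (fun p : (α × AlgPoly_E) × AlgPoly_E => I p.1.1) := hI.comp (by fun_prop)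
  have hl := AlgPoly_lex4 (AlgPoly_keyW (e := fun p : (α × AlgPoly_E) × AlgPoly_E => p.2) hI'' (by fun_prop))
    (AlgPoly_keyW (e := fun p : (α × AlgPoly_E) × AlgPoly_E => p.1.2) hI'' (by fun_prop))
  refine FP.Poly.filter hE (FP.Poly.or (FP.Poly.decideMem (by fun_prop) hR') (FP.Poly.and
    (FP.Poly.decideMem (by fun_prop) hP) (FP.Poly.any hP (FP.Poly.and ?_ hl))))
  fun_prop

end

theorem AlgPoly_size_filter {β : Type} [Code β] (p : β → Bool) (l : List β) : size (l.filter p) ≤ size l := by
  induction l with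
  | nil => simp
  | cons b l ih =>
    rw [List.filter_cons]
    split
    · rw [size_cons, size_cons]; omega
    · rw [size_cons]; omega

theorem poly_alg : Poly alg := by
  unfold alg chosen gsRun
  obtain ⟨B, hB⟩ := AlgPoly_edges.size_le
  have hfold : FP.Poly (fun I : Inst => (List.range ((edges I).length + 1)).foldl
      (fun Rj _ => rejStep (edges I) (fun e : AlgPoly_E => e.1) (fun e => e.2.1)
      (fun e e' => lex4 (keyM I e) (keyM I e'))
      (fun e e' => lex4 (keyW I e) (keyW I e')) Rj) []) := by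
    refine FP.Poly.foldl_inv (g := fun _ : Inst => ([] : List AlgPoly_E)) (I := fun I s => size s ≤ size (edges I)) ?_ (FP.Poly.const _) ?_ ?_ B ?_ ?_
    · have := AlgPoly_edges
      refine FP.Poly.range (by fun_prop) ?_
      exact (PolyBdd.length this).add (PolyBdd.const 1)
    · intro I
      rw [size_nil]
      exact Nat.zero_le _
    · intro I s b _ _
      exact AlgPoly_size_filter _ _
    · intro I s hs
      exact hs.trans (hB I)
    · refine AlgPoly_step (α := {p : Inst × List AlgPoly_E × ℕ // _}) (I := fun p => p.1.1) (R := fun p => p.1.2.1) ?_ ?_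
      · exact FP.Poly.fst (FP.Poly.subtypeVal FP.Poly.ident)
      · exact FP.Poly.fst (FP.Poly.snd (FP.Poly.subtypeVal FP.Poly.ident))
  have h := AlgPoly_props (I := fun I : Inst => I) (by fun_prop) hfold
  fun_prop

end SMT
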