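import Pool.Agent.SMT.Algo

/-!
# MODULE AlgRatio: the algorithm is a 3/2-approximation

Weakly stable: if `(i, j)` blocks `alg I`, look at `(i, j, 1)` in `chosen_spec`: it is not chosen
(`ManWants`), and a chosen edge `e'` of man `i` with smaller key has copy `≠ 2` and
`rankM i j' ≤ rankM i j`, against `ManWants`; the same for the woman.
Ratio, `M` weakly stable: `2 |M| ≤ 3 |alg I|`. Every `(u, w) ∈ M` gives 2 units: if both `u` and `w`
are matched in `alg I`, one to the edge of `alg I` at `u` and one to the edge at `w`; if only one is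
matched, both units to the edge there (one of them is matched, else `(u,w)` blocks `alg I`). An edge
`(u2, w1)` of `alg I` receives at most 3 units: else there are `(u1, w1), (u2, w2) ∈ M` with `u1`,
`w2` unmatched in `alg I`; let `(u2, w1, k)` be the chosen edge. `(u1, w1, 2)` is not chosen and no
chosen edge is at `u1`, so `lex4 (keyW (u2,w1,k)) (keyW (u1,w1,2))`, so `k ≠ 0`, and `k = 2` or
`rankW w1 u2 < rankW w1 u1`. `(u2, w2, 0)` and no chosen edge at `w2`: `lex4 (keyM (u2,w1,k))
(keyM (u2,w2,0))`, so `k ≠ 2`, and `k = 0` or `rankM u2 w1 < rankM u2 w2`. So `k = 1` and `(u2, w1)`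
blocks `M`.
-/

namespace SMT

theorem AlgRatio_mem_alg {I : Inst} {i j : ℕ} :
    (i, j) ∈ alg I ↔ ∃ k, (i, j, k) ∈ chosen I := by
  unfold alg
  rw [List.mem_map]
  constructor
  · rintro ⟨⟨a, b, k⟩, he, h⟩
    simp only [Prod.mk.injEq] at h
    obtain ⟨rfl, rfl⟩ := h
    exact ⟨k, he⟩
  · rintro ⟨k, hk⟩
    exact ⟨(i, j, k), hk, rfl⟩

theorem alg_stable (I : Inst) : WeaklyStable I (alg I) := by
  obtain ⟨h1, h2, h3, h4, h5⟩ := chosen_spec I
  refine ⟨⟨?_, ?_, ?_⟩, ?_⟩
  · rintro ⟨i, j⟩ hp
    obtain ⟨k, hk⟩ := AlgRatio_mem_alg.mp hp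
    exact (h1 _ hk).1
  · unfold alg
    rw [List.map_map]
    exact h2.map_on (fun x hx y hy hxy => h3 x hx y hy hxy)
  · unfold alg
    rw [List.map_map]
    exact h2.map_on (fun x hx y hy hxy => h4 x hx y hy hxy)
  · rintro i j ha ⟨hm, hw⟩
    rcases h5 i j 1 ha (by norm_num) with h | ⟨⟨a, b, k⟩, he, hi, hlt⟩ | ⟨⟨a, b, k⟩, he, hj, hlt⟩
    · have := hm j (AlgRatio_mem_alg.mpr ⟨1, h⟩)
      omega
    · simp only at hi
      subst hi
      have h6 := hm b (AlgRatio_mem_alg.mpr ⟨k, he⟩)
      rw [Algo_lex4_iff] at hlt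
      simp only [keyM] at hlt
      norm_num at hlt
      omega
    · simp only at hj
      subst hj
      have h6 := hw a (AlgRatio_mem_alg.mpr ⟨k, he⟩)
      rw [Algo_lex4_iff] at hlt
      simp only [keyW] at hlt
      norm_num at hlt
      omega

/-- no edge of the algorithm is charged from both sides -/
theorem AlgRatio_noboth (I : Inst) (M : List (ℕ × ℕ)) (hM : WeaklyStable I M) {u₁ u₂ w₁ w₂ : ℕ}
    (he : (u₂, w₁) ∈ alg I) (h₁ : (u₁, w₁) ∈ M) (h₂ : (u₂, w₂) ∈ M)
    (hu : ∀ j, (u₁, j) ∉ alg I) (hw : ∀ i, (i, w₂) ∉ alg I) : False := by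
  obtain ⟨k, hk⟩ := AlgRatio_mem_alg.mp he
  obtain ⟨g1, g2, g3, g4, g5⟩ := chosen_spec I
  have hk3 := (g1 _ hk).2
  simp only at hk3
  -- woman side
  have hA : k ≠ 0 ∧ ((rankW I w₁ u₂).getD 0 < (rankW I w₁ u₁).getD 0 ∨ 2 ≤ k) := by
    rcases g5 u₁ w₁ 2 (hM.acc _ h₁) (by norm_num) with h | ⟨⟨a, b, l⟩, he', hi, -⟩ |
      ⟨⟨a, b, l⟩, he', hj, hlt⟩
    · exact absurd (AlgRatio_mem_alg.mpr ⟨2, h⟩) (hu w₁)
    · simp only at hi
      subst hi
      exact absurd (AlgRatio_mem_alg.mpr ⟨l, he'⟩) (hu b)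
    · simp only at hj
      subst hj
      have := g4 _ he' _ hk rfl
      simp only [Prod.mk.injEq, true_and] at this
      obtain ⟨rfl, rfl⟩ := this
      rw [Algo_lex4_iff] at hlt
      simp only [keyW] at hlt
      norm_num at hlt
      omega
  have hB : k ≠ 2 ∧ ((rankM I u₂ w₁).getD 0 < (rankM I u₂ w₂).getD 0 ∨ k = 0) := by
    rcases g5 u₂ w₂ 0 (hM.acc _ h₂) (by norm_num) with h | ⟨⟨a, b, l⟩, he', hi, hlt⟩ |
      ⟨⟨a, b, l⟩, he', hj, -⟩
    · exact absurd (AlgRatio_mem_alg.mpr ⟨0, h⟩) (hw u₂)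
    · simp only at hi
      subst hi
      have := g3 _ he' _ hk rfl
      simp only [Prod.mk.injEq, true_and] at this
      obtain ⟨rfl, rfl⟩ := this
      rw [Algo_lex4_iff] at hlt
      simp only [keyM] at hlt
      norm_num at hlt
      omega
    · simp only at hj
      subst hj
      exact absurd (AlgRatio_mem_alg.mpr ⟨l, he'⟩) (hw a)
  have hk1 : k = 1 := by omega
  apply hM.stable u₂ w₁ (g1 _ hk).1
  constructor
  · intro j' hj'
    have h6 : w₂ = j' := by
      have := List.inj_on_of_nodup_map hM.men h₂ hj' rfl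
      exact congrArg Prod.snd this
    subst h6
    omega
  · intro i' hi'
    have h6 : u₁ = i' := by
      have := List.inj_on_of_nodup_map hM.women h₁ hi' rfl
      exact congrArg Prod.fst this
    subst h6
    omega

theorem alg_ratio (I : Inst) (M : List (ℕ × ℕ)) (hM : WeaklyStable I M) :
    2 * M.length ≤ 3 * (alg I).length := by
  classical
  have hN := alg_stable I
  have hMn : M.Nodup := List.Nodup.of_map _ hM.men
  have hNn : (alg I).Nodup := List.Nodup.of_map _ hN.men
  set Mf := M.toFinset with hMf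
  set Nf := (alg I).toFinset with hNf
  have hMc : M.length = Mf.card := (List.toFinset_card_of_nodup hMn).symm
  have hNc : (alg I).length = Nf.card := (List.toFinset_card_of_nodup hNn).symm
  set U : Finset ℕ := Nf.image Prod.fst with hU
  set W : Finset ℕ := Nf.image Prod.snd with hW
  have hUc : U.card ≤ Nf.card := Finset.card_image_le
  have hWc : W.card ≤ Nf.card := Finset.card_image_le
  have hMfst : Set.InjOn Prod.fst (Mf : Set (ℕ × ℕ)) := by
    intro x hx y hy hxy
    exact List.inj_on_of_nodup_map hM.men (List.mem_toFinset.mp hx) (List.mem_toFinset.mp hy) hxy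
  have hMsnd : Set.InjOn Prod.snd (Mf : Set (ℕ × ℕ)) := by
    intro x hx y hy hxy
    exact List.inj_on_of_nodup_map hM.women (List.mem_toFinset.mp hx) (List.mem_toFinset.mp hy) hxy
  have hmemU : ∀ i, i ∈ U ↔ ∃ j, (i, j) ∈ alg I := by
    intro i
    simp only [hU, hNf, Finset.mem_image, List.mem_toFinset]
    constructor
    · rintro ⟨⟨a, b⟩, h, rfl⟩; exact ⟨b, h⟩
    · rintro ⟨j, h⟩; exact ⟨(i, j), h, rfl⟩
  have hmemW : ∀ j, j ∈ W ↔ ∃ i, (i, j) ∈ alg I := by
    intro j
    simp only [hW, hNf, Finset.mem_image, List.mem_toFinset]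
    constructor
    · rintro ⟨⟨a, b⟩, h, rfl⟩; exact ⟨a, h⟩
    · rintro ⟨i, h⟩; exact ⟨(i, j), h, rfl⟩
  -- the three parts of `M`
  set Mb := Mf.filter (fun p => p.1 ∈ U ∧ p.2 ∈ W) with hMb
  set Mu := Mf.filter (fun p => p.1 ∈ U ∧ p.2 ∉ W) with hMu
  set Mw := Mf.filter (fun p => p.1 ∉ U ∧ p.2 ∈ W) with hMw
  have hcov : Mf.card ≤ Mb.card + Mu.card + Mw.card := by
    have : Mf ⊆ Mb ∪ Mu ∪ Mw := by
      intro p hp
      simp only [hMb, hMu, hMw, Finset.mem_union, Finset.mem_filter]
      by_cases h1 : p.1 ∈ U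
      · by_cases h2 : p.2 ∈ W <;> simp [hp, h1, h2]
      · by_cases h2 : p.2 ∈ W
        · simp [hp, h1, h2]
        · exfalso
          apply hN.stable p.1 p.2 (hM.acc p (List.mem_toFinset.mp hp))
          constructor
          · intro j' hj'
            exact absurd ((hmemU _).mpr ⟨j', hj'⟩) h1
          · intro i' hi'
            exact absurd ((hmemW _).mpr ⟨i', hi'⟩) h2
    calc Mf.card ≤ (Mb ∪ Mu ∪ Mw).card := Finset.card_le_card this
      _ ≤ (Mb ∪ Mu).card + Mw.card := Finset.card_union_le _ _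
      _ ≤ Mb.card + Mu.card + Mw.card := by
        have := Finset.card_union_le Mb Mu
        omega
  have h1 : Mb.card + Mu.card ≤ U.card := by
    have hd : Disjoint Mb Mu := by
      rw [Finset.disjoint_left]
      intro p hp hq
      simp only [hMb, hMu, Finset.mem_filter] at hp hq
      exact hq.2.2 hp.2.2
    rw [← Finset.card_union_of_disjoint hd]
    apply Finset.card_le_card_of_injOn Prod.fst
    · intro p hp
      have hp := Finset.mem_coe.mp hp
      simp only [hMb, hMu, Finset.mem_union, Finset.mem_filter] at hp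
      rcases hp with hp | hp
      · exact hp.2.1
      · exact hp.2.1
    · apply hMfst.mono
      intro p hp
      have hp := Finset.mem_coe.mp hp
      simp only [hMb, hMu, Finset.mem_union, Finset.mem_filter] at hp
      rcases hp with hp | hp
      · exact hp.1
      · exact hp.1
  have h2 : Mb.card + Mw.card ≤ W.card := by
    have hd : Disjoint Mb Mw := by
      rw [Finset.disjoint_left]
      intro p hp hq
      simp only [hMb, hMw, Finset.mem_filter] at hp hq
      exact hq.2.1 hp.2.1
    rw [← Finset.card_union_of_disjoint hd]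
    apply Finset.card_le_card_of_injOn Prod.snd
    · intro p hp
      have hp := Finset.mem_coe.mp hp
      simp only [hMb, hMw, Finset.mem_union, Finset.mem_filter] at hp
      rcases hp with hp | hp
      · exact hp.2.2
      · exact hp.2.2
    · apply hMsnd.mono
      intro p hp
      have hp := Finset.mem_coe.mp hp
      simp only [hMb, hMw, Finset.mem_union, Finset.mem_filter] at hp
      rcases hp with hp | hp
      · exact hp.1
      · exact hp.1
  have h3 : Mu.card + Mw.card ≤ Nf.card := by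
    set Eu := Nf.filter (fun e => ∃ p ∈ Mu, p.1 = e.1) with hEu
    set Ew := Nf.filter (fun e => ∃ p ∈ Mw, p.2 = e.2) with hEw
    have ha : Mu.card ≤ Eu.card := by
      have e1 : Mu.card = (Mu.image Prod.fst).card := by
        rw [Finset.card_image_of_injOn]
        exact hMfst.mono (by
          intro p hp
          exact (Finset.mem_filter.mp (Finset.mem_coe.mp hp)).1)
      rw [e1]
      have e2 : Mu.image Prod.fst ⊆ Eu.image Prod.fst := by
        intro i hi
        obtain ⟨p, hp, rfl⟩ := Finset.mem_image.mp hi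
        have hpU := (Finset.mem_filter.mp hp).2.1
        obtain ⟨e, he, hei⟩ := Finset.mem_image.mp hpU
        exact Finset.mem_image.mpr ⟨e, Finset.mem_filter.mpr ⟨he, p, hp, hei.symm⟩, hei⟩
      exact (Finset.card_le_card e2).trans Finset.card_image_le
    have hb : Mw.card ≤ Ew.card := by
      have e1 : Mw.card = (Mw.image Prod.snd).card := by
        rw [Finset.card_image_of_injOn]
        exact hMsnd.mono (by
          intro p hp
          exact (Finset.mem_filter.mp (Finset.mem_coe.mp hp)).1)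
      rw [e1]
      have e2 : Mw.image Prod.snd ⊆ Ew.image Prod.snd := by
        intro i hi
        obtain ⟨p, hp, rfl⟩ := Finset.mem_image.mp hi
        have hpW := (Finset.mem_filter.mp hp).2.2
        obtain ⟨e, he, hei⟩ := Finset.mem_image.mp hpW
        exact Finset.mem_image.mpr ⟨e, Finset.mem_filter.mpr ⟨he, p, hp, hei.symm⟩, hei⟩
      exact (Finset.card_le_card e2).trans Finset.card_image_le
    have hd : Disjoint Eu Ew := by
      rw [Finset.disjoint_left]
      rintro ⟨u₂, w₁⟩ he1 he2
      obtain ⟨heN, ⟨p, w₂⟩, hp, hp1⟩ := Finset.mem_filter.mp he1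
      obtain ⟨-, ⟨u₁, q⟩, hq, hq1⟩ := Finset.mem_filter.mp he2
      simp only at hp1 hq1
      subst hp1 hq1
      have hp' := Finset.mem_filter.mp hp
      have hq' := Finset.mem_filter.mp hq
      refine AlgRatio_noboth I M hM (List.mem_toFinset.mp heN) (List.mem_toFinset.mp hq'.1)
        (List.mem_toFinset.mp hp'.1) ?_ ?_
      · intro j hj
        exact hq'.2.1 ((hmemU _).mpr ⟨j, hj⟩)
      · intro i hi
        exact hp'.2.2 ((hmemW _).mpr ⟨i, hi⟩)
    calc Mu.card + Mw.card ≤ Eu.card + Ew.card := by omega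
      _ = (Eu ∪ Ew).card := (Finset.card_union_of_disjoint hd).symm
      _ ≤ Nf.card := Finset.card_le_card (Finset.union_subset (Finset.filter_subset _ _)
          (Finset.filter_subset _ _))
  rw [hMc, hNc]
  omega

end SMT
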