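import Pool.Agent.PolyTime.Tags
import Pool.Agent.PolyTime.Decode
import Pool.Agent.PolyTime.Interface
import Pool.Agent.PolyTime.Converse

/-!
# MAX SMTI (stable marriage with ties and incomplete lists), its best approximation ratio, the
Unique Games Conjecture and the 2-to-1 theorem: definitions
-/

namespace SMT

open NPC FP

/-! ## The problem MAX SMTI -/

/-- An instance of SMTI: the preference lists of the men `0, 1, 2, …` and of the women
`0, 1, 2, …`. The list of man `i` consists of pairs `(j, r)`: man `i` accepts woman `j` and gives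
her rank `r`; smaller ranks are better and equal ranks are ties. The same for the women. -/
abbrev Inst := List (List (ℕ × ℕ)) × List (List (ℕ × ℕ))

/-- The rank of `j` in the preference list `l`, if `j` occurs there (the first entry counts). -/
def rankIn (l : List (ℕ × ℕ)) (j : ℕ) : Option ℕ :=
  (l.find? (fun p => decide (p.1 = j))).map Prod.snd

/-- The rank that man `i` gives to woman `j`. -/
def rankM (I : Inst) (i j : ℕ) : Option ℕ := rankIn (I.1.getD i []) j

/-- The rank that woman `j` gives to man `i`. -/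
def rankW (I : Inst) (j i : ℕ) : Option ℕ := rankIn (I.2.getD j []) i

/-- The pair (man `i`, woman `j`) is acceptable: each appears in the other's list. -/
def Acceptable (I : Inst) (i j : ℕ) : Prop :=
  (rankM I i j).isSome = true ∧ (rankW I j i).isSome = true

/-- `M` is a matching: a set of acceptable pairs (man, woman), pairwise disjoint. -/
structure IsMatching (I : Inst) (M : List (ℕ × ℕ)) : Prop where
  acc : ∀ p ∈ M, Acceptable I p.1 p.2
  men : (M.map Prod.fst).Nodup
  women : (M.map Prod.snd).Nodup

/-- Man `i` is unmatched in `M`, or he strictly prefers woman `j` to his partner. -/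
def ManWants (I : Inst) (M : List (ℕ × ℕ)) (i j : ℕ) : Prop :=
  ∀ j', (i, j') ∈ M → (rankM I i j).getD 0 < (rankM I i j').getD 0

/-- Woman `j` is unmatched in `M`, or she strictly prefers man `i` to her partner. -/
def WomanWants (I : Inst) (M : List (ℕ × ℕ)) (j i : ℕ) : Prop :=
  ∀ i', (i', j) ∈ M → (rankW I j i).getD 0 < (rankW I j i').getD 0

/-- `M` is a weakly stable matching: no acceptable pair blocks it. -/
structure WeaklyStable (I : Inst) (M : List (ℕ × ℕ)) : Prop extends IsMatching I M where
  stable : ∀ i j, Acceptable I i j → ¬ (ManWants I M i j ∧ WomanWants I M j i)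

/-- The algorithm `A` outputs weakly stable matchings and has approximation ratio `r`. -/
def HasRatio (A : Inst → List (ℕ × ℕ)) (r : ℝ) : Prop :=
  ∀ I, WeaklyStable I (A I) ∧ ∀ M, WeaklyStable I M → (M.length : ℝ) ≤ r * (A I).length

/-- `f` is computable in polynomial time by (Mathlib's multi-stack) Turing machines, with inputs
and outputs written in the standard way as bit strings. -/
def PTime {α β : Type} [Code α] [Code β] (f : α → β) : Prop :=
  NPC.PolyTime (fun a => encStr (enc a)) (fun b => encStr (enc b)) f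

/-- `ρ*`: the infimum of the approximation ratios `r ≥ 1` of the polynomial-time algorithms for
MAX SMTI. -/
noncomputable def rhoStar : ℝ :=
  sInf {r : ℝ | 1 ≤ r ∧ ∃ A : Inst → List (ℕ × ℕ), PTime A ∧ HasRatio A r}

/-! ## P, `d`-to-1 games and the Unique Games Conjecture -/

/-- The class P. -/
def P : Set (Set (List Bool)) :=
  {L | ∃ f : List Bool → Bool, PolyTime encStr encBool f ∧ ∀ x, x ∈ L ↔ f x = true}

/-- A game (label cover instance) with left labels `0, …, R₁-1` and right labels `0, …, R₂-1`: a list
of constraints `(x, y, π)`, asking that `π (f x) = g y`, where `f` labels the left vertices and `g`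
the right vertices. -/
abbrev Game (R₁ R₂ : ℕ) := List (ℕ × ℕ × (Fin R₁ → Fin R₂))

/-- the maps `π` are written as the lists of their values -/
instance funCode (R₁ R₂ : ℕ) : Code (Fin R₁ → Fin R₂) :=
  Code.ofInj (fun π => List.ofFn fun i => ((π i : Fin R₂) : ℕ)) (by
    intro π τ h
    have h1 := List.ofFn_injective h
    ext i
    exact congrFun h1 i)

/-- The number of constraints satisfied by the labelling `f`, `g`. -/
def Game.sat {R₁ R₂ : ℕ} (G : Game R₁ R₂) (f : ℕ → Fin R₁) (g : ℕ → Fin R₂) : ℕ :=
  (G.filter fun c => decide (c.2.2 (f c.1) = g c.2.1)).length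

/-- Some labelling satisfies at least the fraction `1 - ζ` of the constraints. -/
def Game.Yes {R₁ R₂ : ℕ} (G : Game R₁ R₂) (ζ : ℝ) : Prop :=
  ∃ (f : ℕ → Fin R₁) (g : ℕ → Fin R₂), (1 - ζ) * G.length ≤ G.sat f g

/-- There is a constraint, and every labelling satisfies at most the fraction `γ` of the
constraints. -/
def Game.No {R₁ R₂ : ℕ} (G : Game R₁ R₂) (γ : ℝ) : Prop :=
  G ≠ [] ∧ ∀ (f : ℕ → Fin R₁) (g : ℕ → Fin R₂), (G.sat f g : ℝ) ≤ γ * G.length

/-- All the maps `π` are exactly `d`-to-1. -/
def Game.DTo1 {R₁ R₂ : ℕ} (G : Game R₁ R₂) (d : ℕ) : Prop :=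
  ∀ c ∈ G, ∀ j : Fin R₂, (Finset.univ.filter fun i : Fin R₁ => c.2.2 i = j).card = d

/-- It is NP-hard to distinguish the `d`-to-1 games with `R₁` left and `R₂` right labels of value at
least `1 - ζ` from those of value at most `γ`. -/
def GapHard (d R₁ R₂ : ℕ) (ζ γ : ℝ) : Prop :=
  ∀ L ∈ NPC.NP, ∃ F : List Bool → Game R₁ R₂, PTime F ∧ (∀ x, (F x).DTo1 d) ∧
    (∀ x ∈ L, (F x).Yes ζ) ∧ (∀ x ∉ L, (F x).No γ)

/-- The Unique Games Conjecture (unique = 1-to-1). -/
def UGC : Prop := ∀ ζ γ : ℝ, 0 < ζ → 0 < γ → ∃ R : ℕ, GapHard 1 R R ζ γ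

/-- The statement of the 2-to-1 games theorem with imperfect completeness (Khot, Minzer and
Safra). -/
def TwoToOne : Prop := ∀ ζ γ : ℝ, 0 < ζ → 0 < γ → ∃ R : ℕ, GapHard 2 (2 * R) R ζ γ

end SMT
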