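import Pool.Agent.SMT.GS
import Pool.Agent.SMT.Defs

/-!
# MODULE Algo: the 3/2-approximation algorithm (three copies of every edge) and its basic property

Copies `0, 1, 2` of each acceptable pair. A man prefers copies `0, 1` of anything to copies `2`;
among copies `0, 1` smaller rank first, then copy `0` before copy `1`; a woman prefers copies `1, 2` to
copies `0`; among copies `1, 2` smaller rank first, then copy `2` before copy `1`.
-/

namespace SMT

/-- lexicographic order -/
def lex4 (x y : ℕ × ℕ × ℕ × ℕ) : Bool :=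
  decide (x.1 < y.1) || (decide (x.1 = y.1) && (decide (x.2.1 < y.2.1) ||
    (decide (x.2.1 = y.2.1) && (decide (x.2.2.1 < y.2.2.1) ||
      (decide (x.2.2.1 = y.2.2.1) && decide (x.2.2.2 < y.2.2.2))))))

/-- the acceptable pairs, each once -/
def accPairs (I : Inst) : List (ℕ × ℕ) :=
  (List.range I.1.length).flatMap fun i => (List.range I.2.length).flatMap fun j =>
    if (rankM I i j).isSome = true ∧ (rankW I j i).isSome = true then [(i, j)] else []

/-- the edges `(i, j, k)`: copy `k` of the acceptable pair `(i, j)` -/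
def edges (I : Inst) : List (ℕ × ℕ × ℕ) :=
  (accPairs I).flatMap fun p => [(p.1, p.2, 0), (p.1, p.2, 1), (p.1, p.2, 2)]

/-- key of an edge for its man (smaller is better) -/
def keyM (I : Inst) (e : ℕ × ℕ × ℕ) : ℕ × ℕ × ℕ × ℕ :=
  (if e.2.2 = 2 then 1 else 0, (rankM I e.1 e.2.1).getD 0, e.2.2, e.2.1)

/-- key of an edge for its woman (smaller is better) -/
def keyW (I : Inst) (e : ℕ × ℕ × ℕ) : ℕ × ℕ × ℕ × ℕ :=
  (if e.2.2 = 0 then 1 else 0, (rankW I e.2.1 e.1).getD 0, 2 - e.2.2, e.1)

/-- the chosen edges -/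
def chosen (I : Inst) : List (ℕ × ℕ × ℕ) :=
  gsRun (edges I) (fun e => e.1) (fun e => e.2.1) (fun e e' => lex4 (keyM I e) (keyM I e'))
    (fun e e' => lex4 (keyW I e) (keyW I e'))

/-- the algorithm -/
def alg (I : Inst) : List (ℕ × ℕ) := (chosen I).map fun e => (e.1, e.2.1)

theorem Algo_lex4_iff (x y : ℕ × ℕ × ℕ × ℕ) : lex4 x y = true ↔
    (x.1 < y.1 ∨ (x.1 = y.1 ∧ (x.2.1 < y.2.1 ∨ (x.2.1 = y.2.1 ∧ (x.2.2.1 < y.2.2.1 ∨
      (x.2.2.1 = y.2.2.1 ∧ x.2.2.2 < y.2.2.2)))))) := by
  simp [lex4]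

theorem Algo_lex4_irrefl (x : ℕ × ℕ × ℕ × ℕ) : lex4 x x = false := by
  rw [← Bool.not_eq_true, Algo_lex4_iff]
  omega

theorem Algo_lex4_trans (x y z : ℕ × ℕ × ℕ × ℕ) (h1 : lex4 x y = true) (h2 : lex4 y z = true) :
    lex4 x z = true := by
  rw [Algo_lex4_iff] at *
  omega

theorem Algo_lex4_total (x y : ℕ × ℕ × ℕ × ℕ) (h : x ≠ y) : lex4 x y = true ∨ lex4 y x = true := by
  rw [Algo_lex4_iff, Algo_lex4_iff]
  by_contra hc
  apply h
  obtain ⟨a, b, c, d⟩ := x
  obtain ⟨a', b', c', d'⟩ := y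
  simp only at hc
  have h1 : a = a' := by omega
  have h2 : b = b' := by omega
  have h3 : c = c' := by omega
  have h4 : d = d' := by omega
  rw [h1, h2, h3, h4]

theorem Algo_rankM_none {I : Inst} {i j : ℕ} (h : ¬ i < I.1.length) : rankM I i j = none := by
  unfold rankM rankIn
  rw [List.getD_eq_default _ _ (by omega)]
  rfl

theorem Algo_rankW_none {I : Inst} {i j : ℕ} (h : ¬ j < I.2.length) : rankW I j i = none := by
  unfold rankW rankIn
  rw [List.getD_eq_default _ _ (by omega)]
  rfl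

theorem Algo_mem_accPairs (I : Inst) (i j : ℕ) : (i, j) ∈ accPairs I ↔ Acceptable I i j := by
  unfold accPairs
  simp only [List.mem_flatMap, List.mem_range]
  constructor
  · rintro ⟨a, _, b, _, h⟩
    split_ifs at h with hc
    · simp only [List.mem_singleton, Prod.mk.injEq] at h
      obtain ⟨rfl, rfl⟩ := h
      exact hc
    · simp at h
  · intro h
    have hi : i < I.1.length := by
      by_contra hn
      have := h.1
      rw [Algo_rankM_none hn] at this
      simp at this
    have hj : j < I.2.length := by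
      by_contra hn
      have := h.2
      rw [Algo_rankW_none hn] at this
      simp at this
    have h' : (rankM I i j).isSome = true ∧ (rankW I j i).isSome = true := h
    exact ⟨i, hi, j, hj, by rw [if_pos h']; simp⟩

theorem mem_edges (I : Inst) (i j k : ℕ) : (i, j, k) ∈ edges I ↔ Acceptable I i j ∧ k < 3 := by
  unfold edges
  rw [List.mem_flatMap]
  constructor
  · rintro ⟨⟨a, b⟩, hp, h⟩
    rw [Algo_mem_accPairs] at hp
    simp only [List.mem_cons, Prod.mk.injEq, List.not_mem_nil, or_false] at h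
    rcases h with ⟨rfl, rfl, rfl⟩ | ⟨rfl, rfl, rfl⟩ | ⟨rfl, rfl, rfl⟩ <;>
      exact ⟨hp, by norm_num⟩
  · rintro ⟨h, hk⟩
    refine ⟨(i, j), (Algo_mem_accPairs I i j).mpr h, ?_⟩
    interval_cases k <;> simp

theorem Algo_accPairs_nodup (I : Inst) : (accPairs I).Nodup := by
  unfold accPairs
  rw [List.nodup_flatMap]
  constructor
  · intro i _
    rw [List.nodup_flatMap]
    constructor
    · intro j _
      split_ifs <;> simp
    · refine List.Pairwise.imp ?_ (List.nodup_range (n := I.2.length))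
      intro a b hab
      intro x hx hy
      simp only at hx hy
      split_ifs at hx hy
      · simp only [List.mem_singleton] at hx hy
        rw [hx] at hy
        exact hab (Prod.mk.inj hy).2
      all_goals simp_all
  · refine List.Pairwise.imp ?_ (List.nodup_range (n := I.1.length))
    intro a b hab
    intro x hx hy
    rw [List.mem_flatMap] at hx hy
    obtain ⟨j, _, hj⟩ := hx
    obtain ⟨j', _, hj'⟩ := hy
    split_ifs at hj hj'
    · simp only [List.mem_singleton] at hj hj'
      rw [hj] at hj'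
      exact hab (Prod.mk.inj hj').1
    all_goals simp_all

theorem Algo_edges_nodup (I : Inst) : (edges I).Nodup := by
  unfold edges
  rw [List.nodup_flatMap]
  constructor
  · rintro ⟨a, b⟩ _
    simp
  · refine List.Pairwise.imp ?_ (Algo_accPairs_nodup I)
    rintro ⟨a, b⟩ ⟨c, d⟩ hab
    intro x hx hy
    simp only [List.mem_cons, List.not_mem_nil, or_false] at hx hy
    apply hab
    rcases hx with rfl | rfl | rfl <;> rcases hy with h | h | h <;>
      (simp only [Prod.mk.injEq] at h; rw [h.1, h.2.1])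

/-- the property of `chosen` (from `gs_spec`) -/
theorem chosen_spec (I : Inst) :
    (∀ e ∈ chosen I, Acceptable I e.1 e.2.1 ∧ e.2.2 < 3) ∧
    (chosen I).Nodup ∧
    (∀ e ∈ chosen I, ∀ e' ∈ chosen I, e.1 = e'.1 → e = e') ∧
    (∀ e ∈ chosen I, ∀ e' ∈ chosen I, e.2.1 = e'.2.1 → e = e') ∧
    ∀ i j k, Acceptable I i j → k < 3 → (i, j, k) ∈ chosen I ∨
      (∃ e' ∈ chosen I, e'.1 = i ∧ lex4 (keyM I e') (keyM I (i, j, k)) = true) ∨
      (∃ e' ∈ chosen I, e'.2.1 = j ∧ lex4 (keyW I e') (keyW I (i, j, k)) = true) := by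
  have hm : StrictOn (edges I) (fun e => e.1) (fun e e' => lex4 (keyM I e) (keyM I e')) := by
    refine ⟨fun e => Algo_lex4_irrefl _, fun e e' e'' h1 h2 => Algo_lex4_trans _ _ _ h1 h2, ?_⟩
    rintro ⟨i, j, k⟩ he ⟨i', j', k'⟩ he' hi hne
    apply Algo_lex4_total
    intro hk
    apply hne
    simp only at hi
    subst hi
    have h1 : k = k' := congrArg (fun x => x.2.2.1) hk
    have h2 : j = j' := congrArg (fun x => x.2.2.2) hk
    rw [h1, h2]
  have hw : StrictOn (edges I) (fun e => e.2.1) (fun e e' => lex4 (keyW I e) (keyW I e')) := by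
    refine ⟨fun e => Algo_lex4_irrefl _, fun e e' e'' h1 h2 => Algo_lex4_trans _ _ _ h1 h2, ?_⟩
    rintro ⟨i, j, k⟩ he ⟨i', j', k'⟩ he' hi hne
    apply Algo_lex4_total
    intro hk
    apply hne
    simp only at hi
    subst hi
    have h1 : 2 - k = 2 - k' := congrArg (fun x => x.2.2.1) hk
    have h2 : i = i' := congrArg (fun x => x.2.2.2) hk
    have h3 := ((mem_edges I i j k).mp he).2
    have h4 := ((mem_edges I i' j k').mp he').2
    have h5 : k = k' := by omega
    rw [h5, h2]
  obtain ⟨h1, h2, h3, h4, h5⟩ := gs_spec (edges I) (Algo_edges_nodup I) _ _ _ _ hm hw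
  refine ⟨?_, h2, h3, h4, ?_⟩
  · rintro ⟨i, j, k⟩ he
    exact (mem_edges I i j k).mp (h1 _ he)
  · intro i j k ha hk
    exact h5 (i, j, k) ((mem_edges I i j k).mpr ⟨ha, hk⟩)

end SMT
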