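import Pool.Agent.SMT.CubeBasic

/-!
# MODULE BlockDom: replacing independent bits by block bits

`π : ι → κ` has fibres of size `≤ d` and `(1-q)^d ≥ 1/2`. PROOF by hybrids over the blocks: for
`T : Finset κ` let `H T = ex (1/2) (fun u : κ → Bool => ex q (fun x => f (fun i => if π i ∈ T then u (π i)
else x i)))`. `H ∅ = ex q f`, `H univ = ex (1/2) (fun u => f (u ∘ π))`. Step `H T ≤ H (insert j T)`,
`j ∉ T`: with `B = {i : π i = j}`, for fixed `u`: average first over the coordinates in `B`
(`ex_glue` with `J = Bᶜ`); for `φ y = f (y on B, the rest fixed)`, `ψ b` = its value at the constant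
`b` on `B` (`ψ false ≤ φ y ≤ ψ true` as `f` is monotone): `φ y ≤ ψ true - [y = false on B] (ψ true - ψ false)`
and the probability of `[y = false on B]` is `(1-q)^|B| ≥ (1-q)^d ≥ 1/2`, so
`E φ ≤ (ψ true + ψ false)/2`, which is the average over `u j` (`ex_split` at `j` for the outer `ex`).
(Probability of `y = false on B`: `ex` of a product; by induction on `B` with `ex_split`; or prove and
use `ex q (fun y => ∏ i ∈ B, g (y i)) = ∏ i ∈ B, (q * g true + (1-q) * g false)`.)
Alternatively: induction on the number of blocks / coordinates.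
-/

namespace SMT.Cube

open Finset

variable {ι κ : Type} [Fintype ι] [DecidableEq ι] [Fintype κ] [DecidableEq κ]

/-- the point `x` with the coordinates in `B` replaced by `b` -/
private def st (B : Finset ι) (b : Bool) (x : ι → Bool) : ι → Bool := fun i => if i ∈ B then b else x i

private theorem BlockDom_aux {q : ℝ} (h0 : 0 ≤ q) (h1 : q ≤ 1) (B : Finset ι)
    {g : (ι → Bool) → ℝ} (hg : Monotone g) :
    ex q g ≤ (1 - (1 - q) ^ B.card) * ex q (fun x => g (st B true x)) +
      (1 - q) ^ B.card * ex q (fun x => g (st B false x)) := by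
  induction B using Finset.induction_on with
  | empty =>
    have h2 : ∀ x : ι → Bool, st ∅ false x = x := fun x => by
      funext i
      unfold st
      simp
    simp [h2]
  | insert i B hi ih =>
    have hs0 : 0 ≤ (1 - q) ^ B.card := pow_nonneg (by linarith) _
    have hs1 : (1 - q) ^ B.card ≤ 1 := pow_le_one₀ (by linarith) (by linarith)
    have e1 : ex q (fun x => g (st B true x)) ≤ ex q (fun x => g (st (insert i B) true x)) := by
      refine ex_mono h0 h1 fun x => hg fun k => ?_
      unfold st
      by_cases hk : k ∈ B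
      · simp [hk]
      · by_cases hki : k = i
        · simp [hki, Bool.le_true]
        · simp [hk, hki]
    have e0 : ex q (fun x => g (st B false x)) ≤
        q * ex q (fun x => g (st (insert i B) true x)) +
          (1 - q) * ex q (fun x => g (st (insert i B) false x)) := by
      rw [ex_split q _ i, ← ex_mul_left, ← ex_mul_left, ← ex_add]
      refine ex_mono h0 h1 fun x => add_le_add ?_ ?_
      · refine mul_le_mul_of_nonneg_left (hg fun k => ?_) h0
        unfold st
        by_cases hk : k ∈ B
        · simp [hk]
        · by_cases hki : k = i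
          · simp [hki, Bool.le_true]
          · simp [hk, hki]
      · refine mul_le_mul_of_nonneg_left (hg fun k => ?_) (by linarith)
        unfold st
        by_cases hk : k ∈ B
        · simp [hk]
        · by_cases hki : k = i
          · simp [hki]
          · simp [hk, hki]
    rw [Finset.card_insert_of_notMem hi]
    have m1 := mul_le_mul_of_nonneg_left e1 (by linarith : 0 ≤ 1 - (1 - q) ^ B.card)
    have m0 := mul_le_mul_of_nonneg_left e0 hs0
    refine ih.trans ((add_le_add m1 m0).trans (le_of_eq ?_))
    ring

private theorem BlockDom_half {q : ℝ} (h0 : 0 ≤ q) (h1 : q ≤ 1) {d : ℕ} (hd : 1 / 2 ≤ (1 - q) ^ d)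
    (B : Finset ι) (hB : B.card ≤ d) {g : (ι → Bool) → ℝ} (hg : Monotone g) :
    ex q g ≤ 1 / 2 * ex q (fun x => g (st B true x)) +
      (1 - 1 / 2) * ex q (fun x => g (st B false x)) := by
  have h2 := BlockDom_aux h0 h1 B hg
  have h3 : (1 - q) ^ d ≤ (1 - q) ^ B.card :=
    pow_le_pow_of_le_one (by linarith) (by linarith) hB
  have h4 : ex q (fun x => g (st B false x)) ≤ ex q (fun x => g (st B true x)) := by
    refine ex_mono h0 h1 fun x => hg fun k => ?_
    unfold st
    by_cases hk : k ∈ B
    · simp [hk]
    · simp [hk]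
  nlinarith [mul_le_mul_of_nonneg_left h4 (by linarith : 0 ≤ (1 - q) ^ B.card - 1 / 2)]

/-- the hybrids -/
private noncomputable def hyb (q : ℝ) (π : ι → κ) (f : (ι → Bool) → ℝ) (T : Finset κ) : ℝ :=
  ex (1 / 2) (fun u : κ → Bool => ex q (fun x => f (fun i => if π i ∈ T then u (π i) else x i)))

private theorem BlockDom_step {q : ℝ} (h0 : 0 ≤ q) (h1 : q ≤ 1) {d : ℕ} (hd : 1 / 2 ≤ (1 - q) ^ d)
    (π : ι → κ) (hπ : ∀ j, (univ.filter fun i => π i = j).card ≤ d)
    {f : (ι → Bool) → ℝ} (hf : Monotone f) (T : Finset κ) (j : κ) (hj : j ∉ T) :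
    hyb q π f T ≤ hyb q π f (insert j T) := by
  unfold hyb
  rw [ex_split (1 / 2) (fun u : κ → Bool => ex q (fun x => f (fun i =>
    if π i ∈ insert j T then u (π i) else x i))) j]
  refine ex_mono (by norm_num) (by norm_num) fun u => ?_
  have hg : Monotone (fun x : ι → Bool => f (fun i => if π i ∈ T then u (π i) else x i)) := by
    intro x y hxy
    refine hf fun i => ?_
    by_cases h : π i ∈ T
    · simp [h]
    · simp only [h, if_false]
      exact hxy i
  have h2 := BlockDom_half h0 h1 hd (univ.filter fun i => π i = j) (hπ j) hg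
  have key : ∀ b : Bool, (fun x : ι → Bool => f (fun i => if π i ∈ T then u (π i) else
      st (univ.filter fun i => π i = j) b x i)) =
      fun x => f (fun i => if π i ∈ insert j T then (Function.update u j b) (π i) else x i) := by
    intro b
    funext x
    congr 1
    funext i
    by_cases h : π i = j
    · simp [h, hj, st]
    · simp [h, st]
  rw [key true, key false] at h2
  exact h2

theorem block_dom {q : ℝ} (h0 : 0 ≤ q) (h1 : q ≤ 1) {d : ℕ} (hd : 1 / 2 ≤ (1 - q) ^ d)
    (π : ι → κ) (hπ : ∀ j, (univ.filter fun i => π i = j).card ≤ d)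
    {f : (ι → Bool) → ℝ} (hf : Monotone f) :
    ex q f ≤ ex (1 / 2) (fun u : κ → Bool => f (fun i => u (π i))) := by
  have hH : ∀ T : Finset κ, hyb q π f ∅ ≤ hyb q π f T := by
    intro T
    induction T using Finset.induction_on with
    | empty => exact le_refl _
    | insert j T hj ih => exact ih.trans (BlockDom_step h0 h1 hd π hπ hf T j hj)
  have h2 := hH univ
  unfold hyb at h2
  simp only [Finset.notMem_empty, if_false, Finset.mem_univ, if_true, ex_const] at h2
  exact h2

end SMT.Cube
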