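import Pool.Agent.SMT.UGTool

/-!
# MODULE UGYes: if the game has value `≥ 1 - ζ`, most tuples have all constraints satisfied

Union bound over `j < ℓ` of `count_one` with `B c = !(decide (c.2.2 (f c.1) = g c.2.1))`
(`vcon_fst`); `|G.filter B| = |G| - sat ≤ ζ |G|`.
-/

namespace SMT

open Finset

variable {R₁ R₂ : ℕ} [NeZero R₂]

/-- all the constraints of the tuple `v` are satisfied by the labelling -/
def Good (G : Game R₁ R₂) (ℓ : ℕ) (f : ℕ → Fin R₁) (g : ℕ → Fin R₂) (v : ℕ) : Prop :=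
  ∀ j < ℓ, (vcon G v j).2.2 (f (vx G v)) = g (vcon G v j).2.1

open Classical in
theorem ug_yes {G : Game R₁ R₂} (hG : G ≠ []) (f : ℕ → Fin R₁) (g : ℕ → Fin R₂) {ζ : ℝ}
    (h : (1 - ζ) * G.length ≤ G.sat f g) (ℓ : ℕ) :
    (((range (G.length ^ (ℓ + 1))).filter fun v => ¬ Good G ℓ f g v).card : ℝ) ≤
      2 * ℓ * ζ * (G.length : ℝ) ^ (ℓ + 1) := by
  set B : ℕ × ℕ × (Fin R₁ → Fin R₂) → Bool := fun c => !(decide (c.2.2 (f c.1) = g c.2.1)) with hB
  set N : ℕ := G.length ^ (ℓ + 1) with hN
  have h1 : (G.filter B).length + G.sat f g = G.length := by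
    have := List.length_eq_length_filter_add (l := G)
      (fun c : ℕ × ℕ × (Fin R₁ → Fin R₂) => decide (c.2.2 (f c.1) = g c.2.1))
    unfold Game.sat
    rw [this, add_comm]
  have h2 : ((G.filter B).length : ℝ) ≤ ζ * G.length := by
    have h1' : ((G.filter B).length : ℝ) + (G.sat f g : ℝ) = (G.length : ℝ) := by
      exact_mod_cast h1
    linarith
  have hsub : ((range N).filter fun v => ¬ Good G ℓ f g v) ⊆
      (range ℓ).biUnion (fun j => (range N).filter fun v => B (vcon G v j) = true) := by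
    intro v hv
    obtain ⟨hv1, hv2⟩ := Finset.mem_filter.1 hv
    unfold Good at hv2
    push Not at hv2
    obtain ⟨j, hj, hne⟩ := hv2
    refine Finset.mem_biUnion.2 ⟨j, Finset.mem_range.2 hj, Finset.mem_filter.2 ⟨hv1, ?_⟩⟩
    simp only [hB, vcon_fst hG v j, Bool.not_eq_true', decide_eq_false_iff_not]
    exact hne
  have h3 : (((range N).filter fun v => ¬ Good G ℓ f g v).card : ℝ) ≤
      ∑ j ∈ range ℓ, (((range N).filter fun v => B (vcon G v j) = true).card : ℝ) := by
    have h4 := (Finset.card_le_card hsub).trans Finset.card_biUnion_le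
    exact_mod_cast h4
  have h5 : ∀ j ∈ range ℓ, (((range N).filter fun v => B (vcon G v j) = true).card : ℝ) ≤
      2 * (ζ * G.length) * (G.length : ℝ) ^ ℓ := by
    intro j hj
    refine (count_one hG ℓ j (Finset.mem_range.1 hj) B).trans ?_
    have h6 : (0 : ℝ) ≤ (G.length : ℝ) ^ ℓ := by positivity
    exact mul_le_mul_of_nonneg_right (by linarith) h6
  refine h3.trans ((Finset.sum_le_sum h5).trans ?_)
  rw [Finset.sum_const, Finset.card_range, nsmul_eq_mul, pow_succ]
  exact le_of_eq (by ring)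

end SMT
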