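import Pool.Agent.SMT.RedSem
import Pool.Agent.SMT.UGYes

/-!
# MODULE Complete: a large weakly stable matching if the game has value `≥ 1 - ζ`

Let `f, g` satisfy `≥ (1-ζ)|G|` constraints. Letters are `0, …, b-1`, low means `< a`, `2a ≤ b`. Let
`sh : letters → letters` be the bijection `x ↦ (x + a) % b`; if `x` is low then `sh x` is not low.
A tuple `v` with `Good G ℓ f g v` has the label `i = f (vx G v)`. Agent `(v, c, z)`, `z` a word:
* `v` good: man `z` with `z i` low is matched to his private partner; a man `z` with `z i` not low to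
  the woman of the same node with the word `z i` at `i` and `sh (z j)` at `j ≠ i` (a bijection between
  the words not low at `i`); women with low letter at `i` are matched to their private partners;
* `v` not good: man `z` is matched to the woman `sh ∘ z` of the same node.
In the same node these pairs have `Adj a id id`, so ranks `(0,0)`. Weakly stable: a blocking pair must
be a main pair with both sides matched to private partners (everybody else has rank `0`, private
partners accept only one agent), so both tuples good; in the same node both words are low at `i`, not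
`Adj`; `cross` through `y = (vcon v j).2.1 = (vcon u j').2.1`: both labels are mapped to `g y`, both
letters there are low, not `Adj`. (If `rk = some (0,0)`: same node and `Adj a id id`: excluded.)
Size: `T + ∑_{v good} C * #{z : z i low} = T + #good * C * a * b^(R₁-1) = T + (a/b) * #good * C * N`,
and `#good ≥ (1 - 2 ℓ ζ) |G|^(ℓ+1)` by `ug_yes`. (If `G = []` then `T = 0` and `M = []`.)
-/

namespace SMT

open Finset

theorem Complete_word {b R : ℕ} (k : Fin (b ^ R)) (j : Fin R) :
    word b R k j = ((finFunctionFinEquiv (m := b) (n := R)).symm k j : ℕ) := rfl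

theorem Complete_perm (a b R : ℕ) (ha : 1 ≤ a) (hab : 2 * a ≤ b) (good : Prop) (i : Fin R) :
    ∃ P : ℕ → ℕ, (∀ k < nw b R, P k < nw b R) ∧
      (∀ k < nw b R, ∀ k' < nw b R, P k = P k' → k = k') ∧
      (∀ k' < nw b R, ∃ k < nw b R, P k = k') ∧
      (∀ k < nw b R, ∀ j, (good ∧ j = i) ∨ ¬ (word b R k j < a ∧ word b R (P k) j < a)) ∧
      (good → ∀ k < nw b R, word b R (P k) i = word b R k i) := by
  classical
  have hb : 0 < b := by omega
  have : NeZero b := ⟨by omega⟩
  let sh : Fin b ≃ Fin b := Equiv.addRight (Fin.ofNat b a)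
  have hsh : ∀ x : Fin b, (x : ℕ) < a → ¬ ((sh x : Fin b) : ℕ) < a := by
    intro x hx
    have h1 : ((sh x : Fin b) : ℕ) = ((x : ℕ) + a % b) % b := by
      show ((x + Fin.ofNat b a : Fin b) : ℕ) = _
      rw [Fin.val_add]
      rfl
    rw [h1, Nat.mod_eq_of_lt (show a < b by omega), Nat.mod_eq_of_lt (show (x:ℕ) + a < b by omega)]
    omega
  let Q : (Fin R → Fin b) ≃ (Fin R → Fin b) :=
    Equiv.piCongrRight (fun j => if good ∧ j = i then Equiv.refl _ else sh)
  have hQ : ∀ z j, Q z j = (if good ∧ j = i then Equiv.refl _ else sh) (z j) := fun z j => rfl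
  let E : Fin (b ^ R) ≃ Fin (b ^ R) :=
    (finFunctionFinEquiv (m := b) (n := R)).symm.trans (Q.trans (finFunctionFinEquiv (m := b) (n := R)))
  have hE : ∀ k j, (finFunctionFinEquiv (m := b) (n := R)).symm (E k) j =
      Q ((finFunctionFinEquiv (m := b) (n := R)).symm k) j := by
    intro k j
    show (finFunctionFinEquiv (m := b) (n := R)).symm (finFunctionFinEquiv (m := b) (n := R) (Q _)) j = _
    rw [Equiv.symm_apply_apply]
  refine ⟨fun k => if h : k < b ^ R then (E ⟨k, h⟩ : ℕ) else k, ?_, ?_, ?_, ?_, ?_⟩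
  · intro k hk
    have hk' : k < b ^ R := hk
    simp only [hk', dif_pos]
    exact (E ⟨k, hk'⟩).2
  · intro k hk k' hk' h
    have h1 : k < b ^ R := hk
    have h2 : k' < b ^ R := hk'
    simp only [h1, h2, dif_pos] at h
    have h3 := E.injective (Fin.ext h)
    exact congrArg Fin.val h3
  · intro k' hk'
    have h2 : k' < b ^ R := hk'
    refine ⟨(E.symm ⟨k', h2⟩ : ℕ), (E.symm ⟨k', h2⟩).2, ?_⟩
    simp only [Fin.is_lt, dif_pos, Fin.eta, Equiv.apply_symm_apply]
  · intro k hk j
    have h1 : k < b ^ R := hk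
    simp only [h1, dif_pos]
    by_cases hg : good ∧ j = i
    · exact Or.inl hg
    · right
      rintro ⟨h3, h4⟩
      rw [Complete_word (E ⟨k, h1⟩), hE, hQ, if_neg hg] at h4
      have h5 : word b R k j = ((finFunctionFinEquiv (m := b) (n := R)).symm ⟨k, h1⟩ j : ℕ) := rfl
      rw [h5] at h3
      exact hsh _ h3 h4
  · intro hg k hk
    have h1 : k < b ^ R := hk
    simp only [h1, dif_pos]
    rw [Complete_word (E ⟨k, h1⟩), hE, hQ, if_pos ⟨hg, rfl⟩]
    rfl

theorem Complete_cardword (a b R : ℕ) (hab : a ≤ b) (i : Fin R) :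
    ((range (nw b R)).filter fun k => word b R k i < a).card * b = a * nw b R := by
  classical
  have h1 : ((range (nw b R)).filter fun k => word b R k i < a).card
      = ((univ : Finset (Fin R → Fin b)).filter fun z => ((z i : Fin b) : ℕ) < a).card := by
    refine Finset.card_bij' (fun k _ => (finFunctionFinEquiv (m := b) (n := R)).symm
      (if h : k < b ^ R then ⟨k, h⟩ else ⟨k % b ^ R, Nat.mod_lt _ (by
        have : R ≠ 0 := fun h0 => by subst h0; exact i.elim0
        by_contra h0
        rename_i hk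
        have hz : b ^ R = 0 := by omega
        have hk' := (Finset.mem_filter.mp hk).1
        rw [Finset.mem_range] at hk'
        unfold nw at hk'
        omega)⟩))
      (fun z _ => ((finFunctionFinEquiv (m := b) (n := R)) z : ℕ)) ?_ ?_ ?_ ?_
    · intro k hk
      obtain ⟨hk1, hk2⟩ := Finset.mem_filter.mp hk
      have h1 : k < b ^ R := Finset.mem_range.mp hk1
      refine Finset.mem_filter.mpr ⟨Finset.mem_univ _, ?_⟩
      simp only [h1, dif_pos]
      exact hk2
    · intro z hz
      refine Finset.mem_filter.mpr ⟨Finset.mem_range.mpr (finFunctionFinEquiv z).2, ?_⟩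
      rw [Complete_word, Equiv.symm_apply_apply]
      exact (Finset.mem_filter.mp hz).2
    · intro k hk
      have h1 : k < b ^ R := Finset.mem_range.mp (Finset.mem_filter.mp hk).1
      simp only [h1, dif_pos, Equiv.apply_symm_apply]
    · intro z hz
      simp only [Fin.is_lt, dif_pos, Fin.eta, Equiv.symm_apply_apply]
  have h2 : ((univ : Finset (Fin R → Fin b)).filter fun z => ((z i : Fin b) : ℕ) < a)
      = Fintype.piFinset (fun j => if j = i then (univ.filter fun x : Fin b => (x : ℕ) < a) else univ) := by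
    ext z
    simp only [Finset.mem_filter, Finset.mem_univ, true_and, Fintype.mem_piFinset]
    constructor
    · intro h j
      by_cases hj : j = i
      · subst hj; simpa using h
      · simp [hj]
    · intro h
      have := h i
      simpa using this
  have h3 : (univ.filter fun x : Fin b => (x : ℕ) < a).card = a := by
    have : (univ.filter fun x : Fin b => (x : ℕ) < a).card = (range a).card := by
      refine Finset.card_bij (fun x _ => (x : ℕ)) ?_ ?_ ?_
      · intro x hx
        exact Finset.mem_range.mpr (Finset.mem_filter.mp hx).2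
      · intro x _ y _ hxy
        exact Fin.ext hxy
      · intro n hn
        have hn' := Finset.mem_range.mp hn
        exact ⟨⟨n, by omega⟩, Finset.mem_filter.mpr ⟨Finset.mem_univ _, hn'⟩, rfl⟩
    rw [this, Finset.card_range]
  rw [h1, h2, Fintype.card_piFinset]
  rw [← Finset.mul_prod_erase univ _ (Finset.mem_univ i)]
  rw [if_pos rfl, h3]
  have h4 : ∏ x ∈ univ.erase i, (if x = i then (univ.filter fun x : Fin b => (x : ℕ) < a) else univ).card
      = b ^ (R - 1) := by
    rw [Finset.prod_congr rfl (fun x hx => by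
      rw [if_neg (Finset.ne_of_mem_erase hx), Finset.card_univ, Fintype.card_fin])]
    rw [Finset.prod_const, Finset.card_erase_of_mem (Finset.mem_univ _), Finset.card_univ, Fintype.card_fin]
  rw [h4]
  have hR : R ≠ 0 := fun h0 => by subst h0; exact i.elim0
  unfold nw
  obtain ⟨r, rfl⟩ := Nat.exists_eq_succ_of_ne_zero hR
  rw [Nat.succ_sub_one, pow_succ]
  ring

theorem Complete_adjn {R R' : ℕ} (a b : ℕ) (π τ : Fin R → Fin R') (k l : ℕ) :
    adjn a b π τ k l = true ↔ ∀ i i', π i = τ i' → ¬ (word b R k i < a ∧ word b R l i' < a) := by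
  unfold adjn
  rw [decide_eq_true_iff]
  rfl

theorem Complete_count (nV C N : ℕ) (F : ℕ → ℕ → Prop) [∀ v k, Decidable (F v k)] (hN : 0 < N) :
    ((range (nV * C * N)).filter (fun μ => F (μ / N / C) (μ % N))).card =
      ∑ v ∈ range nV, C * ((range N).filter (F v)).card := by
  rcases Nat.eq_zero_or_pos C with hC | hC
  · subst hC; simp
  rw [Finset.card_eq_sum_card_fiberwise (f := fun μ => μ / N / C) (t := range nV)]
  · refine Finset.sum_congr rfl (fun v hv => ?_)
    have hv' := Finset.mem_range.mp hv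
    have hdm : ∀ c k, c < C → k < N → ((v * C + c) * N + k) / N = v * C + c ∧
        ((v * C + c) * N + k) % N = k ∧ (v * C + c) / C = v ∧ (v * C + c) % C = c := by
      intro c k hc hk
      refine ⟨?_, ?_, ?_, ?_⟩
      · rw [mul_comm, Nat.mul_add_div hN, Nat.div_eq_of_lt hk, add_zero]
      · rw [mul_comm, Nat.mul_add_mod, Nat.mod_eq_of_lt hk]
      · rw [mul_comm, Nat.mul_add_div hC, Nat.div_eq_of_lt hc, add_zero]
      · rw [mul_comm, Nat.mul_add_mod, Nat.mod_eq_of_lt hc]
    have : C * ((range N).filter (F v)).card = (range C ×ˢ (range N).filter (F v)).card := by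
      rw [Finset.card_product, Finset.card_range]
    rw [this]
    refine Finset.card_bij' (fun μ _ => (μ / N % C, μ % N)) (fun x _ => (v * C + x.1) * N + x.2) ?_ ?_ ?_ ?_
    · intro μ hμ
      simp only [Finset.mem_filter, Finset.mem_range] at hμ
      obtain ⟨⟨h1, h2⟩, h3⟩ := hμ
      rw [h3] at h2
      exact Finset.mem_product.mpr ⟨Finset.mem_range.mpr (Nat.mod_lt _ hC),
        Finset.mem_filter.mpr ⟨Finset.mem_range.mpr (Nat.mod_lt _ hN), h2⟩⟩
    · intro x hx
      obtain ⟨hx1, hx2⟩ := Finset.mem_product.mp hx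
      obtain ⟨hx3, hx4⟩ := Finset.mem_filter.mp hx2
      rw [Finset.mem_range] at hx1 hx3
      obtain ⟨e1, e2, e3, e4⟩ := hdm x.1 x.2 hx1 hx3
      simp only [Finset.mem_filter, Finset.mem_range]
      rw [e1, e2, e3]
      refine ⟨⟨?_, hx4⟩, rfl⟩
      calc (v * C + x.1) * N + x.2 < (v * C + x.1) * N + N := by omega
        _ = (v * C + x.1 + 1) * N := by ring
        _ ≤ (nV * C) * N := by
          refine Nat.mul_le_mul_right _ ?_
          calc v * C + x.1 + 1 ≤ v * C + C := by omega
            _ = (v + 1) * C := by ring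
            _ ≤ nV * C := Nat.mul_le_mul_right _ hv'
    · intro μ hμ
      simp only [Finset.mem_filter, Finset.mem_range] at hμ
      obtain ⟨⟨h1, h2⟩, h3⟩ := hμ
      have e1 := Nat.div_add_mod μ N
      have e2 := Nat.div_add_mod (μ / N) C
      simp only []
      rw [h3] at e2
      calc (v * C + μ / N % C) * N + μ % N = (C * v + μ / N % C) * N + μ % N := by ring
        _ = (μ / N) * N + μ % N := by rw [e2]
        _ = μ := by rw [mul_comm]; exact e1
    · intro x hx
      obtain ⟨hx1, hx2⟩ := Finset.mem_product.mp hx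
      obtain ⟨hx3, hx4⟩ := Finset.mem_filter.mp hx2
      rw [Finset.mem_range] at hx1 hx3
      obtain ⟨e1, e2, e3, e4⟩ := hdm x.1 x.2 hx1 hx3
      rw [e1, e2, e4]
  · intro μ hμ
    have h1 : μ < nV * C * N := Finset.mem_range.mp (Finset.mem_filter.mp hμ).1
    refine Finset.mem_coe.mpr (Finset.mem_range.mpr ?_)
    rw [Nat.div_lt_iff_lt_mul hC, Nat.div_lt_iff_lt_mul hN]
    exact h1

variable {R₁ R₂ : ℕ} [NeZero R₂]

theorem complete (G : Game R₁ R₂) (a b ℓ C : ℕ) (ha : 1 ≤ a) (hab : 2 * a ≤ b) (hℓ : 1 ≤ ℓ) {ζ : ℝ}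
    (hζ : 0 < ζ) (hY : G.Yes ζ) :
    ∃ M, WeaklyStable (red G a b ℓ C) M ∧
      (nT G b ℓ C : ℝ) * (1 + (a : ℝ) / b * (1 - 2 * ℓ * ζ)) ≤ M.length := by
  classical
  by_cases hG : G = []
  · have hT : nT G b ℓ C = 0 := by
      unfold nT
      rw [hG]
      simp
    refine ⟨[], ⟨⟨?_, ?_, ?_⟩, ?_⟩, ?_⟩
    · intro p hp; simp at hp
    · simp
    · simp
    · intro i j hacc
      rw [acceptable_red, hT] at hacc
      omega
    · rw [hT]; simp
  obtain ⟨f, g, hfg⟩ := hY
  have hb : 0 < b := by omega
  set N := nw b R₁ with hN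
  have hNpos : 0 < N := Nat.pow_pos hb
  set T := nT G b ℓ C with hT
  have hTe : T = G.length ^ (ℓ + 1) * C * N := rfl
  -- the permutations
  choose P hP1 hP2 hP3 hP4 hP5 using fun v => Complete_perm a b R₁ ha hab (Good G ℓ f g v) (f (vx G v))
  let F : ℕ → ℕ → Prop := fun v k => Good G ℓ f g v ∧ word b R₁ k (f (vx G v)) < a
  let low : ℕ → Prop := fun μ => F (μ / N / C) (μ % N)
  let par0 : ℕ → ℕ := fun μ => (μ / N) * N + P (μ / N / C) (μ % N)
  let par : ℕ → ℕ := fun μ => if low μ then T + μ else par0 μ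
  have hmod : ∀ μ, μ % N < N := fun μ => Nat.mod_lt _ hNpos
  have hdiv0 : ∀ q r, r < N → (q * N + r) / N = q ∧ (q * N + r) % N = r := by
    intro q r hr
    constructor
    · rw [mul_comm, Nat.mul_add_div hNpos, Nat.div_eq_of_lt hr, add_zero]
    · rw [mul_comm, Nat.mul_add_mod, Nat.mod_eq_of_lt hr]
  have hlt : ∀ μ < T, ∀ r < N, (μ / N) * N + r < T := by
    intro μ hμ r hr
    rw [hTe] at hμ ⊢
    have h1 : μ / N < G.length ^ (ℓ + 1) * C := (Nat.div_lt_iff_lt_mul hNpos).mpr hμ
    calc (μ / N) * N + r < (μ / N) * N + N := by omega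
      _ = (μ / N + 1) * N := by ring
      _ ≤ (G.length ^ (ℓ + 1) * C) * N := Nat.mul_le_mul_right _ h1
  have hself : ∀ μ, (μ / N) * N + μ % N = μ := fun μ => by
    rw [mul_comm]; exact Nat.div_add_mod μ N
  have hpar0lt : ∀ μ < T, par0 μ < T := fun μ hμ => hlt μ hμ _ (hP1 _ _ (hmod μ))
  have hpar0div : ∀ μ, par0 μ / N = μ / N ∧ par0 μ % N = P (μ / N / C) (μ % N) :=
    fun μ => hdiv0 _ _ (hP1 _ _ (hmod μ))
  have hlowpar0 : ∀ μ, low (par0 μ) ↔ low μ := by
    intro μ
    show F (par0 μ / N / C) (par0 μ % N) ↔ F (μ / N / C) (μ % N)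
    rw [(hpar0div μ).1, (hpar0div μ).2]
    show (_ ∧ _) ↔ (_ ∧ _)
    constructor
    · rintro ⟨h1, h2⟩
      rw [hP5 _ h1 _ (hmod μ)] at h2
      exact ⟨h1, h2⟩
    · rintro ⟨h1, h2⟩
      refine ⟨h1, ?_⟩
      rw [hP5 _ h1 _ (hmod μ)]
      exact h2
  have hpar0inj : ∀ μ μ', par0 μ = par0 μ' → μ = μ' := by
    intro μ μ' h
    have h1 : μ / N = μ' / N := by rw [← (hpar0div μ).1, ← (hpar0div μ').1, h]
    have h2 : P (μ / N / C) (μ % N) = P (μ' / N / C) (μ' % N) := by
      rw [← (hpar0div μ).2, ← (hpar0div μ').2, h]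
    rw [h1] at h2
    have h3 := hP2 _ _ (hmod μ) _ (hmod μ') h2
    rw [← hself μ, ← hself μ', h1, h3]
  have hpar0surj : ∀ ω < T, ∃ μ < T, par0 μ = ω := by
    intro ω hω
    obtain ⟨k, hk, hPk⟩ := hP3 (ω / N / C) _ (hmod ω)
    refine ⟨(ω / N) * N + k, hlt ω hω k hk, ?_⟩
    show (((ω / N) * N + k) / N) * N + P (((ω / N) * N + k) / N / C) (((ω / N) * N + k) % N) = ω
    rw [(hdiv0 (ω / N) k hk).1, (hdiv0 (ω / N) k hk).2, hPk, hself]
  have hrkpar : ∀ μ, ¬ low μ → rk G a b ℓ C μ (par0 μ) = some (0, 0) := by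
    intro μ hlow
    unfold rk
    rw [if_pos]
    refine ⟨((hpar0div μ).1).symm, ?_⟩
    rw [Complete_adjn]
    intro i i' hii
    have hii' : i = i' := hii
    subst hii'
    have e1 : agW b R₁ μ = μ % N := rfl
    have e2 : agW b R₁ (par0 μ) = P (μ / N / C) (μ % N) := (hpar0div μ).2
    rw [e1, e2]
    rcases hP4 (μ / N / C) (μ % N) (hmod μ) i with h | h
    · rintro ⟨h1, _⟩
      apply hlow
      refine ⟨h.1, ?_⟩
      rw [← h.2]
      exact h1
    · exact h
  let M : List (ℕ × ℕ) := (List.range T).map (fun μ => (μ, par μ)) ++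
    ((List.range T).filter (fun ω => decide (low ω))).map (fun ω => (T + ω, ω))
  have hMmem : ∀ x y, (x, y) ∈ M ↔ (x < T ∧ par x = y) ∨ (y < T ∧ low y ∧ x = T + y) := by
    intro x y
    show (x, y) ∈ _ ++ _ ↔ _
    rw [List.mem_append, List.mem_map, List.mem_map]
    constructor
    · rintro (⟨μ, hμ, h⟩ | ⟨ω, hω, h⟩)
      · rw [Prod.mk.injEq] at h
        obtain ⟨rfl, rfl⟩ := h
        exact Or.inl ⟨List.mem_range.mp hμ, rfl⟩
      · rw [Prod.mk.injEq] at h
        obtain ⟨rfl, rfl⟩ := h
        obtain ⟨h1, h2⟩ := List.mem_filter.mp hω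
        exact Or.inr ⟨List.mem_range.mp h1, of_decide_eq_true h2, rfl⟩
    · rintro (⟨h1, h2⟩ | ⟨h1, h2, h3⟩)
      · exact Or.inl ⟨x, List.mem_range.mpr h1, by rw [h2]⟩
      · exact Or.inr ⟨y, List.mem_filter.mpr ⟨List.mem_range.mpr h1, decide_eq_true h2⟩, by rw [h3]⟩
  have hparlow : ∀ μ, low μ → par μ = T + μ := fun μ h => if_pos h
  have hparnl : ∀ μ, ¬ low μ → par μ = par0 μ := fun μ h => if_neg h
  have hparinj : ∀ μ < T, ∀ μ' < T, par μ = par μ' → μ = μ' := by
    intro μ hμ μ' hμ' h
    by_cases h1 : low μ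
    · by_cases h2 : low μ'
      · rw [hparlow _ h1, hparlow _ h2] at h; omega
      · rw [hparlow _ h1, hparnl _ h2] at h
        have := hpar0lt μ' hμ'
        omega
    · by_cases h2 : low μ'
      · rw [hparnl _ h1, hparlow _ h2] at h
        have := hpar0lt μ hμ
        omega
      · rw [hparnl _ h1, hparnl _ h2] at h
        exact hpar0inj _ _ h
  refine ⟨M, ⟨⟨?_, ?_, ?_⟩, ?_⟩, ?_⟩
  · -- acceptable
    rintro ⟨x, y⟩ hp
    rw [hMmem] at hp
    show Acceptable _ x y
    rw [acceptable_red]
    rcases hp with ⟨h1, h2⟩ | ⟨h1, h2, h3⟩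
    · by_cases hl : low x
      · rw [hparlow _ hl] at h2
        exact Or.inr (Or.inl ⟨h1, h2.symm⟩)
      · rw [hparnl _ hl] at h2
        left
        refine ⟨h1, by rw [← h2]; exact hpar0lt x h1, ?_⟩
        rw [← h2, hrkpar x hl]
        rfl
    · exact Or.inr (Or.inr ⟨h1, h3⟩)
  · -- men
    show (List.map Prod.fst (_ ++ _)).Nodup
    rw [List.map_append, List.map_map, List.map_map, List.nodup_append]
    refine ⟨?_, ?_, ?_⟩
    · have : (Prod.fst ∘ fun μ => (μ, par μ)) = (id : ℕ → ℕ) := rfl
      rw [this, List.map_id]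
      exact List.nodup_range
    · exact (List.nodup_range.filter _).map (fun x y h => by
        have h' : T + x = T + y := h
        omega)
    · intro x hx y hy hxy
      subst hxy
      obtain ⟨μ, hμ, h1⟩ := List.mem_map.mp hx
      obtain ⟨ω, hω, h2⟩ := List.mem_map.mp hy
      have h1' : μ = x := h1
      have h2' : T + ω = x := h2
      have := List.mem_range.mp hμ
      omega
  · -- women
    show (List.map Prod.snd (_ ++ _)).Nodup
    rw [List.map_append, List.map_map, List.map_map, List.nodup_append]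
    refine ⟨?_, ?_, ?_⟩
    · refine List.Nodup.map_on ?_ List.nodup_range
      intro x hx y hy h
      exact hparinj x (List.mem_range.mp hx) y (List.mem_range.mp hy) h
    · have : (Prod.snd ∘ fun ω => (T + ω, ω)) = (id : ℕ → ℕ) := rfl
      rw [this, List.map_id]
      exact List.nodup_range.filter _
    · intro x hx y hy hxy
      subst hxy
      obtain ⟨μ, hμ, h1⟩ := List.mem_map.mp hx
      obtain ⟨ω, hω, h2⟩ := List.mem_map.mp hy
      have h1' : par μ = x := h1
      have h2' : ω = x := h2
      have hμT := List.mem_range.mp hμ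
      obtain ⟨h3, h4⟩ := List.mem_filter.mp hω
      have h3' := List.mem_range.mp h3
      have h4' : low ω := of_decide_eq_true h4
      by_cases hl : low μ
      · rw [hparlow _ hl] at h1'; omega
      · rw [hparnl _ hl] at h1'
        rw [h2', ← h1', hlowpar0] at h4'
        exact hl h4'
  · -- stable
    intro i j hacc hblock
    obtain ⟨hm, hw⟩ := hblock
    have hRM := rankM_red G a b ℓ C
    have hRW := rankW_red G a b ℓ C
    rw [← hT] at hRM hRW
    -- ranks of the pairs of M
    have hrm : ∀ x < T, ¬ low x → (rankM (red G a b ℓ C) x (par x)).getD 0 = 0 := by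
      intro x hx hl
      rw [hparnl _ hl, hRM, if_pos hx, if_pos (hpar0lt x hx), hrkpar x hl]
      rfl
    have hrw : ∀ x < T, ¬ low x → (rankW (red G a b ℓ C) (par x) x).getD 0 = 0 := by
      intro x hx hl
      rw [hparnl _ hl, hRW, if_pos (hpar0lt x hx), if_pos hx, hrkpar x hl]
      rfl
    have hman : ∀ x < T, ManWants (red G a b ℓ C) M x j → low x := by
      intro x hx hw
      by_contra hl
      have := hw (par x) ((hMmem _ _).mpr (Or.inl ⟨hx, rfl⟩))
      rw [hrm x hx hl] at this
      omega
    have hwoman : ∀ y < T, WomanWants (red G a b ℓ C) M y i → low y := by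
      intro y hy hw
      by_contra hl
      obtain ⟨x, hx, hxy⟩ := hpar0surj y hy
      have hlx : ¬ low x := by
        intro h; apply hl; rw [← hxy, hlowpar0]; exact h
      have hpx : par x = y := by rw [hparnl _ hlx, hxy]
      have h1 := hw x ((hMmem _ _).mpr (Or.inl ⟨hx, hpx⟩))
      have h2 := hrw x hx hlx
      rw [hpx] at h2
      rw [h2] at h1
      omega
    rw [acceptable_red, ← hT] at hacc
    rcases hacc with ⟨hi, hj, hs⟩ | ⟨hi, hj⟩ | ⟨hj, hi⟩
    · have hli := hman i hi hm
      have hlj := hwoman j hj hw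
      obtain ⟨hgi, hwi⟩ : F (i / N / C) (i % N) := hli
      obtain ⟨hgj, hwj⟩ : F (j / N / C) (j % N) := hlj
      unfold rk at hs
      by_cases hc1 : i / nw b R₁ = j / nw b R₁ ∧
          adjn a b (id : Fin R₁ → Fin R₁) id (agW b R₁ i) (agW b R₁ j) = true
      · obtain ⟨hq, had⟩ := hc1
        rw [Complete_adjn] at had
        have hq' : i / N = j / N := hq
        rw [← hq'] at hwj
        exact had (f (vx G (i / N / C))) (f (vx G (i / N / C))) rfl ⟨hwi, hwj⟩
      · rw [if_neg hc1] at hs
        by_cases hc2 : cross G a b ℓ (agV b R₁ C i) (agV b R₁ C j) (agW b R₁ i) (agW b R₁ j) = true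
        · unfold cross at hc2
          rw [List.any_eq_true] at hc2
          obtain ⟨q, hq, hc3⟩ := hc2
          rw [List.any_eq_true] at hc3
          obtain ⟨q', hq', hc4⟩ := hc3
          rw [Bool.and_eq_true, decide_eq_true_iff] at hc4
          obtain ⟨hy, had⟩ := hc4
          rw [Complete_adjn] at had
          have h1 := hgi q (List.mem_range.mp hq)
          have h2 := hgj q' (List.mem_range.mp hq')
          have e1 : agV b R₁ C i = i / N / C := rfl
          have e2 : agV b R₁ C j = j / N / C := rfl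
          rw [e1, e2] at had hy
          exact had (f (vx G (i / N / C))) (f (vx G (j / N / C))) (by rw [h1, h2, hy]) ⟨hwi, hwj⟩
        · rw [if_neg hc2] at hs
          simp at hs
    · have hli := hman i hi hm
      have := hm (par i) ((hMmem _ _).mpr (Or.inl ⟨hi, rfl⟩))
      rw [hparlow _ hli, ← hj] at this
      omega
    · have hlj := hwoman j hj hw
      have := hw (T + j) ((hMmem _ _).mpr (Or.inr ⟨hj, hlj, rfl⟩))
      rw [← hi] at this
      omega
  · -- size
    have hlen : M.length = T + ((range T).filter low).card := by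
      show (((List.range T).map (fun μ => (μ, par μ)) ++
        ((List.range T).filter (fun ω => decide (low ω))).map (fun ω => (T + ω, ω))) : List (ℕ × ℕ)).length = _
      rw [List.length_append, List.length_map, List.length_map, List.length_range]
      congr 1
    have hcount : ((range T).filter low).card =
        ∑ v ∈ range (G.length ^ (ℓ + 1)), C * ((range N).filter (F v)).card := by
      rw [hTe]
      exact Complete_count (G.length ^ (ℓ + 1)) C N F hNpos
    have hFv : ∀ v, (((range N).filter (F v)).card : ℝ) * b = if Good G ℓ f g v then (a : ℝ) * N else 0 := by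
      intro v
      by_cases hg : Good G ℓ f g v
      · rw [if_pos hg]
        have h1 := Complete_cardword a b R₁ (by omega) (f (vx G v))
        have h2 : (range N).filter (F v) = (range (nw b R₁)).filter fun k => word b R₁ k (f (vx G v)) < a := by
          refine Finset.filter_congr (fun k _ => ?_)
          show (_ ∧ _) ↔ _
          exact ⟨fun h => h.2, fun h => ⟨hg, h⟩⟩
        rw [h2]
        exact_mod_cast h1
      · rw [if_neg hg]
        have h2 : (range N).filter (F v) = ∅ := by
          rw [Finset.filter_eq_empty_iff]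
          intro k _ h
          exact hg h.1
        rw [h2]; simp
    have hgood : (1 - 2 * ℓ * ζ) * (G.length : ℝ) ^ (ℓ + 1) ≤
        (((range (G.length ^ (ℓ + 1))).filter fun v => Good G ℓ f g v).card : ℝ) := by
      have h1 := ug_yes hG f g hfg ℓ
      have h2 := Finset.card_filter_add_card_filter_not (s := range (G.length ^ (ℓ + 1))) (fun v => Good G ℓ f g v)
      rw [Finset.card_range] at h2
      have h3 : (((range (G.length ^ (ℓ + 1))).filter fun v => Good G ℓ f g v).card : ℝ) +
          (((range (G.length ^ (ℓ + 1))).filter fun v => ¬ Good G ℓ f g v).card : ℝ) = (G.length : ℝ) ^ (ℓ + 1) := by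
        exact_mod_cast h2
      linarith
    have hb' : (0:ℝ) < b := by exact_mod_cast hb
    have hlowR : (((range T).filter low).card : ℝ) * b =
        (C : ℝ) * a * N * (((range (G.length ^ (ℓ + 1))).filter fun v => Good G ℓ f g v).card : ℝ) := by
      rw [hcount]
      push_cast
      rw [Finset.sum_mul]
      have : ∀ v ∈ range (G.length ^ (ℓ + 1)), (C : ℝ) * (((range N).filter (F v)).card : ℝ) * b =
          if Good G ℓ f g v then (C : ℝ) * a * N else 0 := by
        intro v _
        rw [mul_assoc, hFv v]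
        split_ifs <;> ring
      rw [Finset.sum_congr rfl this, ← Finset.sum_filter, Finset.sum_const, nsmul_eq_mul]
      ring
    have hTR : (T : ℝ) = (G.length : ℝ) ^ (ℓ + 1) * C * N := by rw [hTe]; push_cast; ring
    have hge : (T : ℝ) * ((a : ℝ) / b * (1 - 2 * ℓ * ζ)) ≤ (((range T).filter low).card : ℝ) := by
      have h1 : (T : ℝ) * ((a : ℝ) / b * (1 - 2 * ℓ * ζ)) * b ≤ (((range T).filter low).card : ℝ) * b := by
        rw [hlowR, hTR]
        have h2 : (G.length : ℝ) ^ (ℓ + 1) * C * N * ((a : ℝ) / b * (1 - 2 * ℓ * ζ)) * b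
            = (C : ℝ) * a * N * ((1 - 2 * ℓ * ζ) * (G.length : ℝ) ^ (ℓ + 1)) := by
          field_simp
        rw [h2]
        exact mul_le_mul_of_nonneg_left hgood (by positivity)
      exact le_of_mul_le_mul_right h1 hb'
    rw [hlen]
    push_cast
    linarith

end SMT
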