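import Pool.Agent.SMT.Russo
import Pool.Agent.SMT.BlockDom

/-!
# MODULE CoreCross: cores with disjoint lists give disjoint sets

`π, τ : ι → κ` have fibres of size `≤ d`; `(1-p')^d ≥ 1/2`.
Let `B = {i : π i ∈ τ '' J'}` (at most `d * j0` elements, none in `L`, by `hLL`; disjoint from `J ⊆ L`)
and `f1 x = f (x with B set to false and J set to true)`. Claim `ex q f1 ≥ 3/4 - 1/8`:
remove the elements of `B` one by one; each removal of `i ∈ B` loses at most
`E[dd i f (y with J true and the already removed ones false)] ≤ (p⁻¹)^(|J|+|B|) E[dd i f]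
≤ (p⁻¹)^((d+1) j0) δ` by `ex_set` with `lam = p` (`p ≤ q`, `p ≤ 1-q`; `dd_nonneg`). (Induction on the
removed subset.) So `ex q f1 ≥ 5/8` and, `f1` being monotone, `block_dom` gives
`E_{u : κ → Bool} f1 (u ∘ π) ≥ 5/8` at bias `1/2`. The same for `g1` (`B' = {i : τ i ∈ π '' J}` set to
false, `J'` to true): `E_u g1 (u ∘ τ) ≥ 5/8`. At bias `1/2` all points have the same weight, so more
than half of the `u` have `f1 (u ∘ π) = 1` and more than half of the `u` have `g1 ((not u) ∘ τ) = 1`:
there is `u` with both. Put `X = (u ∘ π with B false, J true)`, `Y = ((not u) ∘ τ with B' false, J' true)`.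
-/

namespace SMT.Cube

open Finset

variable {ι κ : Type} [Fintype ι] [DecidableEq ι] [Fintype κ] [DecidableEq κ]

/-- set `B` to `false` and `J` to `true` -/
private def cc_set (B J : Finset ι) (x : ι → Bool) : ι → Bool :=
  glue B (fun _ => false) (glue J (fun _ => true) x)

omit [Fintype ι] in
private theorem cc_set_mono (B J : Finset ι) : Monotone (cc_set B J) := by
  intro x y h i
  unfold cc_set glue
  by_cases hB : i ∈ B
  · simp [hB]
  · by_cases hJ : i ∈ J
    · simp [hB, hJ]
    · simpa [hB, hJ] using h i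

omit [Fintype ι] in
private theorem cc_set_glue (K J : Finset ι) (x : ι → Bool) :
    cc_set K J x = glue (K ∪ J) (fun i => if i ∈ K then false else true) x := by
  funext i
  unfold cc_set glue
  by_cases hK : i ∈ K
  · simp [hK]
  · by_cases hJ : i ∈ J
    · simp [hK, hJ]
    · simp [hK, hJ]

omit [Fintype ι] in
private theorem cc_set_insert (K J : Finset ι) (i : ι) (x : ι → Bool) :
    cc_set (insert i K) J x = Function.update (cc_set K J x) i false := by
  funext k
  unfold cc_set glue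
  by_cases hk : k = i
  · subst hk; simp
  · simp [hk]

omit [Fintype ι] in
private theorem cc_le_upd (x : ι → Bool) (i : ι) : x ≤ Function.update x i true := by
  intro k
  by_cases hk : k = i
  · subst hk; simp [Bool.le_true]
  · simp [hk]

private theorem cc_side {p p' δ : ℝ} {j0 d : ℕ} (hp : 0 < p) (hpp : p < p') (hp' : p' < 1 / 2)
    (hδ : δ * (d * j0) * (p⁻¹) ^ ((d + 1) * j0) ≤ 1 / 8) (hδ0 : 0 ≤ δ) {f : (ι → Bool) → ℝ}
    (hf : Monotone f) {q : ℝ} (hq : p ≤ q ∧ q ≤ p') {J L : Finset ι}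
    (hc : Core q δ f J L) (hJ : J.card ≤ j0) (B : Finset ι) (hB : B.card ≤ d * j0)
    (hBL : ∀ i ∈ B, i ∉ L) : 5 / 8 ≤ ex q (fun x => f (cc_set B J x)) := by
  obtain ⟨_, h34, hinf⟩ := hc
  have hq0 : 0 ≤ q := hp.le.trans hq.1
  have hq1 : q ≤ 1 := by linarith [hq.2]
  have hpi : 1 ≤ p⁻¹ := by
    rw [one_le_inv₀ hp]; linarith
  have key : ∀ K : Finset ι, K ⊆ B →
      3 / 4 - K.card * ((p⁻¹) ^ ((d + 1) * j0) * δ) ≤ ex q (fun x => f (cc_set K J x)) := by
    intro K
    induction K using Finset.induction_on with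
    | empty =>
      intro _
      have : (fun x => f (cc_set ∅ J x)) = fun y => f (glue J (fun _ => true) y) := by
        funext x
        have hx : cc_set ∅ J x = glue J (fun _ => true) x := by
          funext i
          simp [cc_set, glue]
        rw [hx]
      rw [this]
      simpa using h34
    | insert i K hiK ih =>
      intro hK
      have hiB : i ∈ B := hK (mem_insert_self i K)
      have hKB : K ⊆ B := fun x hx => hK (mem_insert_of_mem hx)
      have h1 := ih hKB
      have h2 : ex q (fun x => f (cc_set K J x)) - ex q (fun x => f (cc_set (insert i K) J x)) ≤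
          ex q (fun x => dd i f (cc_set K J x)) := by
        rw [← ex_sub]
        refine ex_mono hq0 hq1 fun x => ?_
        rw [cc_set_insert]
        unfold dd
        have := hf (cc_le_upd (cc_set K J x) i)
        linarith
      have h3 : ex q (fun x => dd i f (cc_set K J x)) ≤ (p⁻¹) ^ (K ∪ J).card * ex q (dd i f) := by
        simp only [cc_set_glue]
        exact ex_set hp hq.1 (by linarith [hq.2]) (fun x => dd_nonneg hf i x) (K ∪ J) _
      have h4 : (p⁻¹) ^ (K ∪ J).card * ex q (dd i f) ≤ (p⁻¹) ^ ((d + 1) * j0) * δ := by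
        have hcard : (K ∪ J).card ≤ (d + 1) * j0 := by
          calc (K ∪ J).card ≤ K.card + J.card := card_union_le _ _
            _ ≤ d * j0 + j0 := add_le_add ((card_le_card hKB).trans hB) hJ
            _ = (d + 1) * j0 := by ring
        have h5 : (p⁻¹) ^ (K ∪ J).card ≤ (p⁻¹) ^ ((d + 1) * j0) := pow_le_pow_right₀ hpi hcard
        have h6 : 0 ≤ ex q (dd i f) := ex_nonneg hq0 hq1 fun x => dd_nonneg hf i x
        exact mul_le_mul h5 (hinf i (hBL i hiB)) h6 (by positivity)
      rw [card_insert_of_notMem hiK]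
      push_cast
      linarith
  have h := key B (Subset.refl B)
  have h7 : (B.card : ℝ) * ((p⁻¹) ^ ((d + 1) * j0) * δ) ≤ 1 / 8 := by
    have h8 : (B.card : ℝ) ≤ d * j0 := by exact_mod_cast hB
    calc (B.card : ℝ) * ((p⁻¹) ^ ((d + 1) * j0) * δ)
        ≤ (d * j0) * ((p⁻¹) ^ ((d + 1) * j0) * δ) := by
          have : 0 ≤ (p⁻¹) ^ ((d + 1) * j0) * δ := by positivity
          exact mul_le_mul_of_nonneg_right h8 this
      _ = δ * (d * j0) * (p⁻¹) ^ ((d + 1) * j0) := by ring
      _ ≤ 1 / 8 := hδ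
  linarith

private theorem cc_block {p p' δ : ℝ} {j0 d : ℕ} (hp : 0 < p) (hpp : p < p') (hp' : p' < 1 / 2)
    (hd : 1 / 2 ≤ (1 - p') ^ d)
    (hδ : δ * (d * j0) * (p⁻¹) ^ ((d + 1) * j0) ≤ 1 / 8) (hδ0 : 0 ≤ δ) {f : (ι → Bool) → ℝ}
    (hf : Monotone f) {q : ℝ} (hq : p ≤ q ∧ q ≤ p') {J L : Finset ι}
    (hc : Core q δ f J L) (hJ : J.card ≤ j0) (B : Finset ι) (hB : B.card ≤ d * j0)
    (hBL : ∀ i ∈ B, i ∉ L) (π : ι → κ) (hπ : ∀ j, (univ.filter fun i => π i = j).card ≤ d) :
    5 / 8 ≤ ex (1 / 2) (fun u : κ → Bool => f (cc_set B J (fun i => u (π i)))) := by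
  refine (cc_side hp hpp hp' hδ hδ0 hf hq hc hJ B hB hBL).trans ?_
  refine block_dom (q := q) (hp.le.trans hq.1) (by linarith [hq.2]) (d := d) ?_ π hπ
    (f := fun x => f (cc_set B J x)) (hf.comp (cc_set_mono B J))
  refine hd.trans ?_
  exact pow_le_pow_left₀ (by linarith) (by linarith [hq.2]) d

omit [DecidableEq κ] in
private theorem cc_wt_half (x : κ → Bool) : wt (1 / 2) x = (1 / 2) ^ Fintype.card κ := by
  unfold wt
  have : ∀ i, (if x i = true then (1 / 2 : ℝ) else 1 - 1 / 2) = 1 / 2 := fun i => by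
    split <;> norm_num
  simp only [this]
  simp

private theorem cc_flip (F : (κ → Bool) → ℝ) :
    ex (1 / 2) (fun u : κ → Bool => F (fun k => !u k)) = ex (1 / 2) F := by
  unfold ex
  simp only [cc_wt_half]
  rw [← Finset.mul_sum, ← Finset.mul_sum]
  congr 1
  have hinv : Function.Involutive (fun (u : κ → Bool) (k : κ) => !u k) := fun u => by
    funext k; simp
  exact Fintype.sum_equiv hinv.toPerm _ _ fun u => rfl

theorem cross_core {p p' δ : ℝ} {j0 d : ℕ} (hp : 0 < p) (hpp : p < p') (hp' : p' < 1 / 2)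
    (hd : 1 / 2 ≤ (1 - p') ^ d)
    (hδ : δ * (d * j0) * (p⁻¹) ^ ((d + 1) * j0) ≤ 1 / 8) (hδ0 : 0 ≤ δ) {f g : (ι → Bool) → ℝ}
    (hf : Monotone f) (hg : Monotone g)
    (hf01 : ∀ x, f x = 0 ∨ f x = 1) (hg01 : ∀ x, g x = 0 ∨ g x = 1) {q q' : ℝ}
    (hq : p ≤ q ∧ q ≤ p') (hq' : p ≤ q' ∧ q' ≤ p') {J L J' L' : Finset ι}
    (hc : Core q δ f J L) (hc' : Core q' δ g J' L') (hJ : J.card ≤ j0) (hJ' : J'.card ≤ j0)
    (π τ : ι → κ) (hπ : ∀ j, (univ.filter fun i => π i = j).card ≤ d)
    (hτ : ∀ j, (univ.filter fun i => τ i = j).card ≤ d)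
    (hLL : ∀ i ∈ L, ∀ i' ∈ L', π i ≠ τ i') :
    ∃ x y : ι → Bool, f x = 1 ∧ g y = 1 ∧ ∀ i i', π i = τ i' → ¬ (x i = true ∧ y i' = true) := by
  classical
  -- the sets that are switched off
  have hcard : ∀ (K : Finset ι) (π τ : ι → κ), K.card ≤ j0 →
      (∀ j, (univ.filter fun i => π i = j).card ≤ d) →
      (univ.filter fun i => ∃ i' ∈ K, π i = τ i').card ≤ d * j0 := by
    intro K π τ hK hπ
    have hsub : (univ.filter fun i => ∃ i' ∈ K, π i = τ i') ⊆
        K.biUnion fun i' => univ.filter fun i => π i = τ i' := by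
      intro i hi
      simp only [mem_filter, mem_univ, true_and] at hi
      obtain ⟨i', hi', he⟩ := hi
      simp only [mem_biUnion, mem_filter, mem_univ, true_and]
      exact ⟨i', hi', he⟩
    calc _ ≤ (K.biUnion fun i' => univ.filter fun i => π i = τ i').card := card_le_card hsub
      _ ≤ ∑ i' ∈ K, (univ.filter fun i => π i = τ i').card := card_biUnion_le
      _ ≤ ∑ _i' ∈ K, d := sum_le_sum fun i' _ => hπ _
      _ = K.card * d := by simp
      _ ≤ j0 * d := Nat.mul_le_mul_right d hK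
      _ = d * j0 := Nat.mul_comm _ _
  set B : Finset ι := univ.filter fun i => ∃ i' ∈ J', π i = τ i' with hBdef
  set B' : Finset ι := univ.filter fun i' => ∃ i ∈ J, τ i' = π i with hB'def
  have hB : B.card ≤ d * j0 := hcard J' π τ hJ' hπ
  have hB' : B'.card ≤ d * j0 := hcard J τ π hJ hτ
  have hBL : ∀ i ∈ B, i ∉ L := by
    intro i hi hiL
    simp only [hBdef, mem_filter, mem_univ, true_and] at hi
    obtain ⟨i', hi', he⟩ := hi
    exact hLL i hiL i' (hc'.1 hi') he
  have hBL' : ∀ i ∈ B', i ∉ L' := by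
    intro i' hi hiL
    simp only [hB'def, mem_filter, mem_univ, true_and] at hi
    obtain ⟨i, hi', he⟩ := hi
    exact hLL i (hc.1 hi') i' hiL he.symm
  have h1 := cc_block hp hpp hp' hd hδ hδ0 hf hq hc hJ B hB hBL π hπ
  have h2 := cc_block hp hpp hp' hd hδ hδ0 hg hq' hc' hJ' B' hB' hBL' τ hτ
  rw [← cc_flip] at h2
  set F : (κ → Bool) → ℝ := fun u => f (cc_set B J (fun i => u (π i))) with hF
  set G : (κ → Bool) → ℝ := fun u => g (cc_set B' J' (fun i => !u (τ i))) with hG
  have h2' : 5 / 8 ≤ ex (1 / 2) G := h2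
  have hex : ∃ u, 1 < F u + G u := by
    by_contra hcon
    push Not at hcon
    have h3 : ex (1 / 2) (fun u => F u + G u) ≤ ex (1 / 2) (fun _ : κ → Bool => (1 : ℝ)) :=
      ex_mono (by norm_num) (by norm_num) hcon
    rw [ex_add, ex_const] at h3
    linarith
  obtain ⟨u, hu⟩ := hex
  have hFu : F u = 1 := by
    rcases hf01 (cc_set B J (fun i => u (π i))) with h | h
    · have h' : F u = 0 := h
      rcases hg01 (cc_set B' J' (fun i => !u (τ i))) with h4 | h4
      · have : G u = 0 := h4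
        linarith
      · have : G u = 1 := h4
        linarith
    · exact h
  have hGu : G u = 1 := by
    rcases hg01 (cc_set B' J' (fun i => !u (τ i))) with h4 | h4
    · have : G u = 0 := h4
      linarith
    · exact h4
  refine ⟨_, _, hFu, hGu, fun i i' hii hxy => ?_⟩
  obtain ⟨hx, hy⟩ := hxy
  have hiB : i ∉ B := fun h => by
    simp [cc_set, glue, h] at hx
  have hiB' : i' ∉ B' := fun h => by
    simp [cc_set, glue, h] at hy
  have hi'J : i' ∉ J' := fun h => hiB (by
    simp only [hBdef, mem_filter, mem_univ, true_and]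
    exact ⟨i', h, hii⟩)
  have hiJ : i ∉ J := fun h => hiB' (by
    simp only [hB'def, mem_filter, mem_univ, true_and]
    exact ⟨i, h, hii.symm⟩)
  simp only [cc_set, glue, hiB, hiJ, if_false] at hx
  simp only [cc_set, glue, hiB', hi'J, if_false] at hy
  rw [hii] at hx
  rw [hx] at hy
  simp at hy

end SMT.Cube
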