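import Pool.Agent.SMT.CoreEx
import Pool.Agent.SMT.CoreCross
import Pool.Agent.SMT.Red

/-!
# MODULE CoreLemma: from words to the biased cube

`p = a/b`, `(1-p)^d > 1/2`; by continuity there is `p' > p` with `(1-p')^d ≥ 1/2`, `p' < 1/2`
(`p < 1/2` as `d ≥ 1`). For a set `F` of words let `f x = 1` if some `z ∈ F` has its low set
`{i : z i < a}` contained in `{i : x i}`, else `0`: `f` is monotone, `0/1`-valued and
`ex p f ≥ |F| / b^R₁ ≥ η` (the number of words with low set exactly `S` is `a^|S| (b-a)^(R₁-|S|)`, and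
`wt p x` is this divided by `b^R₁`). Take `j0` from `exists_core p p' η`, `δ > 0` with
`δ (d j0) p^(-(d+1) j0) ≤ 1/8`, then `t`; `L F` := the list of a core of `f` if `|F|` is large, `∅`
otherwise. Given `F`, `G`, `π`, `τ`: `cross_core` gives `x`, `y`; from `f x = 1` get `z ∈ F` with low
set inside `x`, and `w ∈ G` with low set inside `y`, and `Adj` follows.
-/

namespace SMT

open Finset Topology Filter

/-- the indicator of the up-closure of the low sets of the words in `F` -/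
private noncomputable def CoreLemma_f (a : ℕ) {b R₁ : ℕ} (F : Finset (Fin R₁ → Fin b))
    (x : Fin R₁ → Bool) : ℝ :=
  open Classical in
  if ∃ z ∈ F, ∀ i, ((z i : Fin b) : ℕ) < a → x i = true then 1 else 0

private theorem CoreLemma_f01 (a : ℕ) {b R₁ : ℕ} (F : Finset (Fin R₁ → Fin b))
    (x : Fin R₁ → Bool) : CoreLemma_f a F x = 0 ∨ CoreLemma_f a F x = 1 := by
  unfold CoreLemma_f
  split_ifs
  · right; rfl
  · left; rfl

private theorem CoreLemma_mono (a : ℕ) {b R₁ : ℕ} (F : Finset (Fin R₁ → Fin b)) :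
    Monotone (CoreLemma_f a F) := by
  intro x y hxy
  unfold CoreLemma_f
  split_ifs with h1 h2
  · exact le_rfl
  · exfalso
    apply h2
    obtain ⟨z, hz, hz2⟩ := h1
    refine ⟨z, hz, fun i hi => ?_⟩
    have h3 := hz2 i hi
    have h4 := hxy i
    rw [h3] at h4
    exact top_unique h4
  · exact zero_le_one
  · exact le_rfl

/-- the low set of a word -/
private def CoreLemma_low (a : ℕ) {b R₁ : ℕ} (z : Fin R₁ → Fin b) : Fin R₁ → Bool :=
  fun i => decide ((z i : ℕ) < a)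

private theorem CoreLemma_card1 (a b : ℕ) (hab : a ≤ b) (t : Bool) :
    ((univ.filter fun c : Fin b => decide ((c : ℕ) < a) = t).card : ℝ) =
      if t = true then (a : ℝ) else (b : ℝ) - a := by
  have h1 : (univ.filter fun c : Fin b => (c : ℕ) < a).card = a := by
    rw [Fin.card_filter_val_lt]
    exact min_eq_right hab
  cases t with
  | true => simpa using h1
  | false =>
    have h2 : (univ.filter fun c : Fin b => decide ((c : ℕ) < a) = false) =
        univ \ (univ.filter fun c : Fin b => (c : ℕ) < a) := by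
      ext c; simp
    rw [h2, Finset.card_sdiff_of_subset (Finset.subset_univ _), h1]
    simp [Nat.cast_sub hab]

private theorem CoreLemma_wt (a b : ℕ) (ha : 1 ≤ a) (hab : a ≤ b) (R₁ : ℕ) (x : Fin R₁ → Bool) :
    Cube.wt ((a : ℝ) / b) x * (b : ℝ) ^ R₁ =
      ((univ.filter fun z : Fin R₁ → Fin b => CoreLemma_low a z = x).card : ℝ) := by
  have hb : (b : ℝ) ≠ 0 := by
    have : 0 < b := by omega
    positivity
  have h1 : (univ.filter fun z : Fin R₁ → Fin b => CoreLemma_low a z = x) =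
      Fintype.piFinset fun i => univ.filter fun c : Fin b => decide ((c : ℕ) < a) = x i := by
    ext z
    simp only [mem_filter, mem_univ, true_and, Fintype.mem_piFinset]
    constructor
    · intro h i
      rw [← h]
      rfl
    · intro h
      funext i
      exact h i
  rw [h1, Fintype.card_piFinset]
  push_cast
  unfold Cube.wt
  have h2 : (b : ℝ) ^ R₁ = ∏ _i : Fin R₁, (b : ℝ) := by simp
  rw [h2, ← Finset.prod_mul_distrib]
  apply Finset.prod_congr rfl
  intro i _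
  rw [CoreLemma_card1 a b hab (x i)]
  split_ifs
  · field_simp
  · field_simp

private theorem CoreLemma_ex (a b : ℕ) (ha : 1 ≤ a) (hab : a ≤ b) (R₁ : ℕ)
    (F : Finset (Fin R₁ → Fin b)) :
    (F.card : ℝ) ≤ Cube.ex ((a : ℝ) / b) (CoreLemma_f a F) * (b : ℝ) ^ R₁ := by
  unfold Cube.ex
  rw [Finset.sum_mul]
  have h1 : ∀ x : Fin R₁ → Bool, Cube.wt ((a : ℝ) / b) x * CoreLemma_f a F x * (b : ℝ) ^ R₁ =
      ∑ z ∈ univ.filter (fun z : Fin R₁ → Fin b => CoreLemma_low a z = x),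
        CoreLemma_f a F (CoreLemma_low a z) := by
    intro x
    have h2 : ∑ z ∈ univ.filter (fun z : Fin R₁ → Fin b => CoreLemma_low a z = x),
        CoreLemma_f a F (CoreLemma_low a z) =
        ∑ z ∈ univ.filter (fun z : Fin R₁ → Fin b => CoreLemma_low a z = x),
        CoreLemma_f a F x := by
      apply Finset.sum_congr rfl
      intro z hz
      rw [(Finset.mem_filter.mp hz).2]
    rw [h2, Finset.sum_const, nsmul_eq_mul, ← CoreLemma_wt a b ha hab R₁ x]
    ring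
  rw [Finset.sum_congr rfl fun x _ => h1 x]
  rw [Finset.sum_fiberwise (s := (univ : Finset (Fin R₁ → Fin b))) (g := CoreLemma_low a)
    (f := fun z => CoreLemma_f a F (CoreLemma_low a z))]
  have h3 : (F.card : ℝ) = ∑ z ∈ F, (1 : ℝ) := by simp
  rw [h3]
  calc ∑ z ∈ F, (1 : ℝ) ≤ ∑ z ∈ F, CoreLemma_f a F (CoreLemma_low a z) := by
        apply Finset.sum_le_sum
        intro z hz
        unfold CoreLemma_f
        rw [if_pos]
        refine ⟨z, hz, fun i hi => ?_⟩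
        unfold CoreLemma_low
        simpa using hi
    _ ≤ ∑ z, CoreLemma_f a F (CoreLemma_low a z) := by
        apply Finset.sum_le_univ_sum_of_nonneg
        intro z
        rcases CoreLemma_f01 a F (CoreLemma_low a z) with h | h <;> rw [h]
        exact zero_le_one

theorem core_lemma (a b d : ℕ) (ha : 1 ≤ a) (hab : a ≤ b) (hd : 1 ≤ d)
    (hp : (1 : ℝ) / 2 < (1 - (a : ℝ) / b) ^ d) (η : ℝ) (hη : 0 < η) :
    ∃ t : ℕ, ∀ R₁ : ℕ, ∃ L : Finset (Fin R₁ → Fin b) → Finset (Fin R₁),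
      (∀ F, (L F).card ≤ t) ∧
      ∀ F G : Finset (Fin R₁ → Fin b), η * (b : ℝ) ^ R₁ ≤ F.card → η * (b : ℝ) ^ R₁ ≤ G.card →
        ∀ (R₂ : ℕ) (π τ : Fin R₁ → Fin R₂), (∀ j, (univ.filter fun i => π i = j).card ≤ d) →
        (∀ j, (univ.filter fun i => τ i = j).card ≤ d) →
        (∀ i ∈ L F, ∀ i' ∈ L G, π i ≠ τ i') →
        ∃ z ∈ F, ∃ w ∈ G, Adj a π τ (fun i => (z i : ℕ)) (fun i => (w i : ℕ)) := by
  have ha0 : (0 : ℝ) < a := by exact_mod_cast ha
  have hb0 : (0 : ℝ) < b := by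
    have : 0 < b := by omega
    exact_mod_cast this
  set p : ℝ := (a : ℝ) / b with hpdef
  have hp0 : 0 < p := div_pos ha0 hb0
  have hp1 : p ≤ 1 := by
    rw [hpdef, div_le_one hb0]
    exact_mod_cast hab
  have hp2 : p < 1 / 2 := by
    have h1 : (1 - p) ^ d ≤ (1 - p) ^ 1 :=
      pow_le_pow_of_le_one (by linarith) (by linarith) hd
    rw [pow_one] at h1
    linarith
  obtain ⟨p', ⟨hpp, hp'⟩, hdp⟩ : ∃ p' : ℝ, (p < p' ∧ p' < 1 / 2) ∧ 1 / 2 < (1 - p') ^ d := by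
    have hcont : ContinuousAt (fun x : ℝ => (1 - x) ^ d) p := by fun_prop
    have h1 : ∀ᶠ x in 𝓝[>] p, 1 / 2 < (1 - x) ^ d :=
      (hcont.tendsto.eventually (lt_mem_nhds hp)).filter_mono nhdsWithin_le_nhds
    have h2 : ∀ᶠ x in 𝓝[>] p, x < 1 / 2 :=
      (gt_mem_nhds hp2 : ∀ᶠ x in 𝓝 p, x < 1 / 2).filter_mono nhdsWithin_le_nhds
    have h3 : ∀ᶠ x in 𝓝[>] p, p < x := self_mem_nhdsWithin
    obtain ⟨x, ⟨hx1, hx2⟩, hx3⟩ := ((h1.and h2).and h3).exists
    exact ⟨x, ⟨hx3, hx2⟩, hx1⟩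
  obtain ⟨j0, hj0⟩ := Cube.exists_core p p' η hp0 hpp hp' hη
  set Q : ℝ := (p⁻¹) ^ ((d + 1) * j0) with hQ
  have hQ0 : 0 < Q := by positivity
  set δ : ℝ := 1 / (8 * ((d * j0 : ℝ) + 1) * Q) with hδ
  have hdj : (0 : ℝ) ≤ (d * j0 : ℝ) := by positivity
  have hδ0 : 0 < δ := by positivity
  have hδ1 : δ * (d * j0) * Q ≤ 1 / 8 := by
    rw [hδ]
    have h1 : 1 / (8 * ((d * j0 : ℝ) + 1) * Q) * (d * j0) * Q =
        (d * j0 : ℝ) / (8 * ((d * j0 : ℝ) + 1)) := by
      field_simp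
    rw [h1, div_le_div_iff₀ (by positivity) (by norm_num)]
    linarith
  obtain ⟨t, ht⟩ := hj0 δ hδ0
  refine ⟨t, fun R₁ => ?_⟩
  have H : ∀ F : Finset (Fin R₁ → Fin b), ∃ L : Finset (Fin R₁), L.card ≤ t ∧
      (η ≤ Cube.ex p (CoreLemma_f a F) → ∃ q, p ≤ q ∧ q ≤ p' ∧ ∃ J : Finset (Fin R₁),
        Cube.Core q δ (CoreLemma_f a F) J L ∧ J.card ≤ j0) := by
    intro F
    by_cases hF : η ≤ Cube.ex p (CoreLemma_f a F)
    · obtain ⟨q, hq1, hq2, J, L, hc, hJ, hL⟩ := ht (Fin R₁) (CoreLemma_f a F)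
        (CoreLemma_mono a F) (CoreLemma_f01 a F) hF
      exact ⟨L, hL, fun _ => ⟨q, hq1, hq2, J, hc, hJ⟩⟩
    · exact ⟨∅, by simp, fun h => absurd h hF⟩
  choose L hLt hL using H
  refine ⟨L, hLt, ?_⟩
  intro F G hF hG R₂ π τ hπ hτ hLL
  have hbR : (0 : ℝ) < (b : ℝ) ^ R₁ := by positivity
  have hexF : η ≤ Cube.ex p (CoreLemma_f a F) := by
    have := CoreLemma_ex a b ha hab R₁ F
    exact le_of_mul_le_mul_right (hF.trans this) hbR
  have hexG : η ≤ Cube.ex p (CoreLemma_f a G) := by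
    have := CoreLemma_ex a b ha hab R₁ G
    exact le_of_mul_le_mul_right (hG.trans this) hbR
  obtain ⟨q, hq1, hq2, J, hc, hJ⟩ := hL F hexF
  obtain ⟨q', hq1', hq2', J', hc', hJ'⟩ := hL G hexG
  obtain ⟨x, y, hx, hy, hxy⟩ := Cube.cross_core hp0 hpp hp' hdp.le hδ1 hδ0.le
    (CoreLemma_mono a F) (CoreLemma_mono a G) (CoreLemma_f01 a F) (CoreLemma_f01 a G)
    ⟨hq1, hq2⟩ ⟨hq1', hq2'⟩ hc hc' hJ hJ' π τ hπ hτ hLL
  have hx' : ∃ z ∈ F, ∀ i, ((z i : Fin b) : ℕ) < a → x i = true := by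
    unfold CoreLemma_f at hx
    by_contra hcon
    rw [if_neg hcon] at hx
    exact zero_ne_one hx
  have hy' : ∃ z ∈ G, ∀ i, ((z i : Fin b) : ℕ) < a → y i = true := by
    unfold CoreLemma_f at hy
    by_contra hcon
    rw [if_neg hcon] at hy
    exact zero_ne_one hy
  obtain ⟨z, hz, hz2⟩ := hx'
  obtain ⟨w, hw, hw2⟩ := hy'
  refine ⟨z, hz, w, hw, ?_⟩
  intro i i' hii
  rintro ⟨h1, h2⟩
  exact hxy i i' hii ⟨hz2 i h1, hw2 i' h2⟩

end SMT
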