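import Mathlib

/-!
# The biased cube: definitions (no proofs here)

`ex q f` is the expectation of `f` when each bit is `true` independently with probability `q`.
-/

namespace SMT.Cube

open Finset

noncomputable section

variable {ι : Type} [Fintype ι] [DecidableEq ι]

/-- weight of the point `x` for the bias `q` -/
def wt (q : ℝ) (x : ι → Bool) : ℝ := ∏ i, (if x i = true then q else 1 - q)

/-- expectation -/
def ex (q : ℝ) (f : (ι → Bool) → ℝ) : ℝ := ∑ x, wt q x * f x

/-- difference in direction `i` -/
def dd (i : ι) (f : (ι → Bool) → ℝ) (x : ι → Bool) : ℝ :=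
  f (Function.update x i true) - f (Function.update x i false)

/-- normalised character of one bit -/
def ph (q : ℝ) (b : Bool) : ℝ := if b = true then √((1 - q) / q) else -√(q / (1 - q))

/-- characters -/
def ch (q : ℝ) (S : Finset ι) (x : ι → Bool) : ℝ := ∏ i ∈ S, ph q (x i)

/-- Fourier coefficients -/
def coef (q : ℝ) (f : (ι → Bool) → ℝ) (S : Finset ι) : ℝ := ex q (fun x => f x * ch q S x)

/-- `x` on `J` and `y` off `J` -/
def glue (J : Finset ι) (x y : ι → Bool) : ι → Bool := fun i => if i ∈ J then x i else y i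

/-- `(J, L)` is a core of `f` at bias `q` with influence bound `δ`. -/
def Core (q δ : ℝ) (f : (ι → Bool) → ℝ) (J L : Finset ι) : Prop :=
  J ⊆ L ∧ 3 / 4 ≤ ex q (fun y => f (glue J (fun _ => true) y)) ∧ ∀ i ∉ L, ex q (dd i f) ≤ δ

end

end SMT.Cube
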