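import Pool.Agent.SMT.Cube

/-!
# MODULE CubeBasic: elementary facts on `ex`

All of them are finite sums. `ex_split` (average over one coordinate first) is the basic tool; one
way: `ex_split` from the involution/fibres of `Function.update`, or from
`Fintype.sum_equiv (Equiv.piSplitAt ..)`; `wt q (update x i b) = (if b then q else 1-q) * ∏ j ≠ i`.
`ex_glue` by induction on `J` with `ex_split`, or directly through the product structure.
`ex_set`: `ex q f ≥ (probability of {x_K = a}) * ex q (f ∘ glue K a)`; by induction on `K` with
`ex_split`: for one coordinate, `q * F true + (1-q) * F false ≥ lam * F b`.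
-/

namespace SMT.Cube

open Finset

variable {ι : Type} [Fintype ι] [DecidableEq ι]

theorem wt_nonneg {q : ℝ} (h0 : 0 ≤ q) (h1 : q ≤ 1) (x : ι → Bool) : 0 ≤ wt q x := by
  unfold wt
  refine Finset.prod_nonneg fun i _ => ?_
  split_ifs
  · exact h0
  · linarith

/-- expectation of a product function -/
theorem CubeBasic_prod (q : ℝ) (u : ι → Bool → ℝ) :
    ex q (fun x => ∏ i, u i (x i)) = ∏ i, (q * u i true + (1 - q) * u i false) := by
  have h := Finset.prod_univ_sum (fun _ : ι => (univ : Finset Bool))
    (fun i b => (if b = true then q else 1 - q) * u i b)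
  rw [Fintype.piFinset_univ] at h
  have h2 : (∏ i, ∑ b : Bool, (if b = true then q else 1 - q) * u i b) =
      ∏ i, (q * u i true + (1 - q) * u i false) := by
    refine Finset.prod_congr rfl fun i _ => ?_
    rw [Fintype.sum_bool]
    simp
  rw [← h2, h]
  unfold ex wt
  refine Finset.sum_congr rfl fun x _ => ?_
  rw [← Finset.prod_mul_distrib]

theorem ex_const (q c : ℝ) : ex q (fun _ : ι → Bool => c) = c := by
  have h := CubeBasic_prod q (fun (_ : ι) (_ : Bool) => (1 : ℝ))
  have h1 : (∏ _i : ι, (q * (1 : ℝ) + (1 - q) * 1)) = 1 := by
    refine Finset.prod_eq_one fun i _ => ?_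
    ring
  rw [h1] at h
  simp only [Finset.prod_const_one] at h
  have h2 : ex q (fun _ : ι → Bool => c) = c * ex q (fun _ : ι → Bool => (1 : ℝ)) := by
    unfold ex
    rw [Finset.mul_sum]
    refine Finset.sum_congr rfl fun x _ => ?_
    ring
  rw [h2, h, mul_one]

theorem ex_add (q : ℝ) (f g : (ι → Bool) → ℝ) :
    ex q (fun x => f x + g x) = ex q f + ex q g := by
  unfold ex
  rw [← Finset.sum_add_distrib]
  refine Finset.sum_congr rfl fun x _ => ?_
  ring

theorem ex_sub (q : ℝ) (f g : (ι → Bool) → ℝ) :
    ex q (fun x => f x - g x) = ex q f - ex q g := by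
  unfold ex
  rw [← Finset.sum_sub_distrib]
  refine Finset.sum_congr rfl fun x _ => ?_
  ring

theorem ex_mul_left (q c : ℝ) (f : (ι → Bool) → ℝ) :
    ex q (fun x => c * f x) = c * ex q f := by
  unfold ex
  rw [Finset.mul_sum]
  refine Finset.sum_congr rfl fun x _ => ?_
  ring

theorem ex_sum {κ : Type} (s : Finset κ) (q : ℝ) (f : κ → (ι → Bool) → ℝ) :
    ex q (fun x => ∑ k ∈ s, f k x) = ∑ k ∈ s, ex q (f k) := by
  unfold ex
  rw [Finset.sum_comm]
  refine Finset.sum_congr rfl fun x _ => ?_
  rw [Finset.mul_sum]

theorem ex_nonneg {q : ℝ} (h0 : 0 ≤ q) (h1 : q ≤ 1) {f : (ι → Bool) → ℝ} (hf : ∀ x, 0 ≤ f x) :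
    0 ≤ ex q f := by
  unfold ex
  exact Finset.sum_nonneg fun x _ => mul_nonneg (wt_nonneg h0 h1 x) (hf x)

theorem ex_mono {q : ℝ} (h0 : 0 ≤ q) (h1 : q ≤ 1) {f g : (ι → Bool) → ℝ}
    (hfg : ∀ x, f x ≤ g x) : ex q f ≤ ex q g := by
  unfold ex
  exact Finset.sum_le_sum fun x _ => mul_le_mul_of_nonneg_left (hfg x) (wt_nonneg h0 h1 x)

theorem ex_cauchy {q : ℝ} (h0 : 0 ≤ q) (h1 : q ≤ 1) (f g : (ι → Bool) → ℝ) :
    ex q (fun x => f x * g x) ^ 2 ≤ ex q (fun x => f x ^ 2) * ex q (fun x => g x ^ 2) := by
  unfold ex
  refine Finset.sum_sq_le_sum_mul_sum_of_sq_eq_mul _ ?_ ?_ ?_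
  · intro x _
    exact mul_nonneg (wt_nonneg h0 h1 x) (sq_nonneg _)
  · intro x _
    exact mul_nonneg (wt_nonneg h0 h1 x) (sq_nonneg _)
  · intro x _
    ring

theorem wt_update (q : ℝ) (x : ι → Bool) (i : ι) (b : Bool) :
    wt q (Function.update x i b) =
      (if b = true then q else 1 - q) * ∏ j ∈ univ.erase i, (if x j = true then q else 1 - q) := by
  unfold wt
  rw [← Finset.mul_prod_erase univ _ (Finset.mem_univ i)]
  rw [Function.update_self]
  congr 1
  refine Finset.prod_congr rfl fun j hj => ?_
  rw [Function.update_of_ne (Finset.ne_of_mem_erase hj)]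

theorem CubeBasic_flip (H : (ι → Bool) → ℝ) (i : ι) :
    2 * ∑ x, H x = ∑ x, (H (Function.update x i true) + H (Function.update x i false)) := by
  have h1 : ∑ x : ι → Bool, H (Function.update x i (!x i)) = ∑ x, H x := by
    refine Finset.sum_nbij' (fun x => Function.update x i (!x i))
      (fun x => Function.update x i (!x i)) ?_ ?_ ?_ ?_ ?_
    · intro x _; exact Finset.mem_univ _
    · intro x _; exact Finset.mem_univ _
    · intro x _
      funext j
      by_cases hj : j = i
      · subst hj; simp
      · simp [Function.update_of_ne hj]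
    · intro x _
      funext j
      by_cases hj : j = i
      · subst hj; simp
      · simp [Function.update_of_ne hj]
    · intro x _; rfl
  have h2 : 2 * ∑ x, H x = ∑ x, (H x + H (Function.update x i (!x i))) := by
    rw [Finset.sum_add_distrib, h1]; ring
  rw [h2]
  refine Finset.sum_congr rfl fun x _ => ?_
  cases hx : x i
  · have : Function.update x i false = x := by rw [← hx]; exact Function.update_eq_self i x
    rw [this]; simp [add_comm]
  · have : Function.update x i true = x := by rw [← hx]; exact Function.update_eq_self i x
    rw [this]; simp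

/-- average over the coordinate `i` first -/
theorem ex_split (q : ℝ) (f : (ι → Bool) → ℝ) (i : ι) :
    ex q f = ex q (fun x => q * f (Function.update x i true) +
      (1 - q) * f (Function.update x i false)) := by
  unfold ex
  have h1 := CubeBasic_flip (fun x => wt q x * f x) i
  have h2 := CubeBasic_flip (fun x => wt q x * (q * f (Function.update x i true) +
      (1 - q) * f (Function.update x i false))) i
  have h3 : ∑ x : ι → Bool, ((fun x => wt q x * f x) (Function.update x i true) +
      (fun x => wt q x * f x) (Function.update x i false)) =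
      ∑ x : ι → Bool, ((fun x => wt q x * (q * f (Function.update x i true) +
      (1 - q) * f (Function.update x i false))) (Function.update x i true) +
      (fun x => wt q x * (q * f (Function.update x i true) +
      (1 - q) * f (Function.update x i false))) (Function.update x i false)) := by
    refine Finset.sum_congr rfl fun x _ => ?_
    simp only [wt_update, Function.update_idem]
    simp only [if_true, Bool.false_eq_true, if_false]
    ring
  linarith

theorem CubeBasic_glue_insert (J : Finset ι) (i : ι) (x y : ι → Bool) :
    glue (insert i J) x y = Function.update (glue J x y) i (x i) := by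
  funext j
  by_cases hj : j = i
  · subst hj; simp [glue]
  · rw [Function.update_of_ne hj]
    simp [glue, hj]

theorem CubeBasic_glue_upd_left (J : Finset ι) (i : ι) (hi : i ∉ J) (x y : ι → Bool) (b : Bool) :
    glue J (Function.update x i b) y = glue J x y := by
  funext j
  by_cases hj : j = i
  · subst hj; simp [glue, hi]
  · simp [glue, Function.update_of_ne hj]

theorem CubeBasic_glue_upd_right (J : Finset ι) (i : ι) (hi : i ∉ J) (x y : ι → Bool) (b : Bool) :
    glue J x (Function.update y i b) = Function.update (glue J x y) i b := by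
  funext j
  by_cases hj : j = i
  · subst hj; simp [glue, hi]
  · simp [glue, Function.update_of_ne hj]

/-- average over the coordinates off `J` first -/
theorem ex_glue (q : ℝ) (f : (ι → Bool) → ℝ) (J : Finset ι) :
    ex q f = ex q (fun x => ex q (fun y => f (glue J x y))) := by
  induction J using Finset.induction_on with
  | empty =>
    have : ∀ x : ι → Bool, ex q (fun y => f (glue ∅ x y)) = ex q f := by
      intro x
      congr 1
    simp only [this]
    rw [ex_const]
  | insert i J hi ih =>
    rw [ih]
    rw [ex_split q (fun x => ex q (fun y => f (glue (insert i J) x y))) i]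
    congr 1
    funext x
    rw [ex_split q (fun y => f (glue J x y)) i]
    simp only [CubeBasic_glue_insert, CubeBasic_glue_upd_left J i hi,
      CubeBasic_glue_upd_right J i hi, Function.update_self]
    rw [ex_add, ex_mul_left, ex_mul_left]

/-- fixing the coordinates in `K` multiplies the expectation by at most `lam⁻¹ ^ |K|` -/
theorem ex_set {q lam : ℝ} (hl : 0 < lam) (hq : lam ≤ q) (hq' : lam ≤ 1 - q)
    {f : (ι → Bool) → ℝ} (hf : ∀ x, 0 ≤ f x) (K : Finset ι) (a : ι → Bool) :
    ex q (fun y => f (glue K a y)) ≤ (lam⁻¹) ^ K.card * ex q f := by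
  induction K using Finset.induction_on generalizing f with
  | empty =>
    have : ex q (fun y => f (glue ∅ a y)) = ex q f := by congr 1
    rw [this]; simp
  | insert i K hi ih =>
    have h0 : 0 ≤ q := by linarith
    have h1 : q ≤ 1 := by linarith
    have e1 : (fun y => f (glue (insert i K) a y)) =
        (fun y => (fun z => f (Function.update z i (a i))) (glue K a y)) := by
      funext y
      rw [CubeBasic_glue_insert]
    rw [e1]
    refine (ih (f := fun z => f (Function.update z i (a i))) (fun x => hf _)).trans ?_
    rw [Finset.card_insert_of_notMem hi, pow_succ, mul_assoc]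
    refine mul_le_mul_of_nonneg_left ?_ (by positivity)
    have e2 : lam * ex q (fun z => f (Function.update z i (a i))) ≤ ex q f := by
      rw [← ex_mul_left, ex_split q f i]
      refine ex_mono h0 h1 fun x => ?_
      have ht := hf (Function.update x i true)
      have hff := hf (Function.update x i false)
      cases hai : a i
      · have a1 : lam * f (Function.update x i false) ≤ (1 - q) * f (Function.update x i false) :=
          mul_le_mul_of_nonneg_right hq' hff
        have a2 : 0 ≤ q * f (Function.update x i true) := mul_nonneg h0 ht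
        linarith
      · have a1 : lam * f (Function.update x i true) ≤ q * f (Function.update x i true) :=
          mul_le_mul_of_nonneg_right hq ht
        have a2 : 0 ≤ (1 - q) * f (Function.update x i false) := mul_nonneg (by linarith) hff
        linarith
    have : ex q (fun z => f (Function.update z i (a i))) =
        lam⁻¹ * (lam * ex q (fun z => f (Function.update z i (a i)))) := by
      field_simp
    rw [this]
    exact mul_le_mul_of_nonneg_left e2 (by positivity)

/-- relabelling the coordinates -/
theorem ex_equiv {κ : Type} [Fintype κ] [DecidableEq κ] (e : ι ≃ κ) (q : ℝ)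
    (f : (ι → Bool) → ℝ) : ex q (fun x : κ → Bool => f (fun i => x (e i))) = ex q f := by
  unfold ex
  refine Fintype.sum_equiv (Equiv.arrowCongr e.symm (Equiv.refl Bool)) _ _ fun x => ?_
  have h1 : (Equiv.arrowCongr e.symm (Equiv.refl Bool)) x = fun i => x (e i) := by
    funext i
    simp [Equiv.arrowCongr]
  rw [h1]
  congr 1
  unfold wt
  exact (Equiv.prod_comp e (fun k => if x k = true then q else 1 - q)).symm

end SMT.Cube
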