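import Pool.Agent.SMT.Lower
import Pool.Agent.SMT.AlgRatio
import Pool.Agent.SMT.AlgPoly

/-!
# MODULE Final: `ρ* = 3/2` under the Unique Games Conjecture and `P ≠ NP`, and
`ρ* ≥ 2 - 1/√2` under `P ≠ NP` by the 2-to-1 games theorem
-/

namespace SMT

theorem alg_hasRatio : HasRatio alg (3 / 2) := by
  intro I
  refine ⟨alg_stable I, fun M hM => ?_⟩
  have h := alg_ratio I M hM
  have h' : (2 : ℝ) * M.length ≤ 3 * (alg I).length := by exact_mod_cast h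
  linarith

theorem three_halves_mem :
    (3 / 2 : ℝ) ∈ {r : ℝ | 1 ≤ r ∧ ∃ A : Inst → List (ℕ × ℕ), PTime A ∧ HasRatio A r} :=
  ⟨by norm_num, alg, ptime_of_poly poly_alg, alg_hasRatio⟩

theorem rhoStar_le : rhoStar ≤ 3 / 2 := csInf_le ⟨1, fun r hr => hr.1⟩ three_halves_mem

theorem le_rhoStar (d : ℕ) (hd : 1 ≤ d) (θ : ℝ) (hθ0 : 0 < θ) (hθ1 : θ < 1)
    (hθ : 1 / 2 ≤ (1 - θ) ^ d)
    (hU : ∀ ζ γ : ℝ, 0 < ζ → 0 < γ → ∃ R : ℕ, GapHard d (d * R) R ζ γ)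
    (hP : P ≠ NPC.NP) : 1 + θ ≤ rhoStar := by
  apply le_csInf ⟨_, three_halves_mem⟩
  rintro r ⟨hr, A, hA, h⟩
  exact lower d hd θ hθ0 hθ1 hθ hU hP r hr A hA h

theorem rhoStar_eq (hU : UGC) (hP : P ≠ NPC.NP) : rhoStar = 3 / 2 := by
  apply le_antisymm rhoStar_le
  have h := le_rhoStar 1 le_rfl (1 / 2) (by norm_num) (by norm_num) (by norm_num)
    (by intro ζ γ hζ hγ; obtain ⟨R, hR⟩ := hU ζ γ hζ hγ; exact ⟨R, by rw [one_mul]; exact hR⟩) hP
  linarith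

theorem rhoStar_two (hU : TwoToOne) (hP : P ≠ NPC.NP) : 2 - 1 / √2 ≤ rhoStar := by
  have h2 : (0 : ℝ) < √2 := by positivity
  have h2' : √2 * √2 = (2 : ℝ) := Real.mul_self_sqrt (by norm_num)
  have h1 : (1 : ℝ) < √2 := by nlinarith
  have h := le_rhoStar 2 (by norm_num) (1 - 1 / √2)
    (by have : 1 / √2 < 1 := by rw [div_lt_one h2]; exact h1
        linarith)
    (by have : 0 < 1 / √2 := by positivity
        linarith)
    (by
      have : (1 - (1 - 1 / √2)) ^ 2 = (1 : ℝ) / 2 := by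
        rw [show (1 - (1 - 1 / √2)) = 1 / √2 by ring, div_pow, sq (√2), h2']; norm_num
      rw [this]) hU hP
  linarith

end SMT
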