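import Pool.Agent.SMT.Sparse

/-!
# MODULE Flow: the flow argument (the heart of the soundness proof)

Nodes `κ = (v, c)`, `v ∈ V`, `c ∈ Fin C`, `C = m^(n+1)`; write the level of the node as
`c + 1 ∈ {1, …, C}`. Every node has `N` men and `N` women; `rm x, rw y ∈ {0, …, C+1}` are the ranks of
the partners (`0`: same node; `s + 1`: cross partner in a node of level `s + 1`; `C + 1`: low = private
partner). `P` = the cross pairs. `Bad`: off `Bad`, for all levels, fewer than `h` men of `(v,c)` are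
worse than `s+1` or fewer than `h` women of `(v,s)` are worse than `c+1`.

PROOF. W.l.o.g. `h ≤ N` (else the right side is `≥ n·5hC|V| ≥ n·N·C·|V|`). For `v ∉ Bad` let
`α v c` = the largest `s ≤ C+1` with at least `h` men of `(v,c)` of rank `≥ s`; so fewer than `h` men
have rank `> α`. (A): if `s + 1 < α v c` then fewer than `h` women of `(v,s)` have rank `> c + 1`.
For `i ≤ n` let `K i = m^(n-i)` and `T i = {(v,c) : v ∉ Bad, c + 1 + K i ≤ α v c}`, increasing in `i`.
`(v,c) ∈ T i` → fewer than `h` women of `(v,c)` have rank `> c+1` (A with `s = c`).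
Let `Lo` = number of low men. BALANCE: for each node #(men of rank 0) = #(women of rank 0), so
#(cross women) - #(cross men) = #(low men) - #(low women). Summing over `T i`:
`F_i := #{p ∈ P : woman's node ∈ T i, man's node ∉ T i} ≥ ∑_{T i} (low men) - ∑_{T i} (low women)`
`≥ Lo - N C |Bad| - N |V| K 0 - 2 h C |V|`: low men of nodes off `T i`: `v ∈ Bad` (`≤ N C |Bad|`), or
fewer than `h` low men (`≤ h C |V|` in total), or `α = C+1 < c + 1 + K i` (`≤ K 0` levels for each `v`).
Pairs counted in `F_i`, woman in `(v,c) ∈ T i`, man in `(u,c') ∉ T i` (so woman's rank `c'+1`, man's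
rank `c+1`): (a) `u ∈ Bad`: `≤ N C |Bad|`; (b) `c' > c`: woman's rank `> c+1`: `< h` for each node;
(c) `c + 1 > α u c'`: `< h` men for each node; (d) otherwise `c' ≤ c`, `c+1 ≤ α u c'`; if
`(u,c') ∈ T (i+1)` it is a man of `T (i+1) \ T i`; (e) if not, `α u c' < c'+1+K (i+1)`, so
`c < c' + K (i+1)`, the woman's rank is `> c + 1 - K (i+1)`. Let
`Z v = {c : (v,c) ∈ T i, at least h women y of (v,c) with c + 1 < rw y + K (i+1)}`; pairs with
`c ∉ Z v`: `< h` for each node; with `c ∈ Z v`: `≤ N |Z v|`. For `c1 < c2` in `Z v` with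
`c2 < c1 + K i`: `α v c1 ≥ c1 + 1 + K i > c2 + 1`, so by (A) fewer than `h` women of `(v,c2)` have rank
`> c1+1`; as `c2 ∈ Z v` this forces `c2 < c1 + K (i+1)`. So `|Z v| ≤ K (i+1) * (C / K i) = m^n` by
`sparse_card` with `A = K i = m^(n-i)`, `B = m^(n-i-1)`, `D = m^(i+1)`.
So `#men of T (i+1) \ T i ≥ Lo - E`, `E = 2 N C |Bad| + 5 h C |V| + 2 N |V| m^n`; sum over `i < n`
(disjoint sets of men, `≤ N C |V|` men in all): `n (Lo - E) ≤ N C |V|`.
-/

namespace SMT

open Finset


section flowaux

set_option linter.unusedSectionVars false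

variable {A K : Type} [Fintype A] [DecidableEq A] [Fintype K] [DecidableEq K]

theorem Flow_fib (f : A → K) (Q : A → Prop) [DecidablePred Q] :
    (univ.filter Q).card = ∑ κ, (univ.filter fun x => f x = κ ∧ Q x).card := by
  rw [Finset.card_eq_sum_card_fiberwise (f := f) (t := univ) (fun x _ => by simp)]
  refine Finset.sum_congr rfl fun κ _ => ?_
  congr 1
  ext x
  simp [and_comm]

/-- bound by a function on the nodes -/
theorem Flow_fib_le (f : A → K) (Q : A → Prop) [DecidablePred Q] (b : K → ℕ)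
    (h : ∀ κ, (univ.filter fun x => f x = κ ∧ Q x).card ≤ b κ) :
    (univ.filter Q).card ≤ ∑ κ, b κ := by
  rw [Flow_fib f Q]
  exact Finset.sum_le_sum fun κ _ => h κ

theorem Flow_le_N (f : A → K) {N : ℕ} (hN : ∀ κ, (univ.filter fun x => f x = κ).card = N)
    (Q : A → Prop) [DecidablePred Q] (κ : K) : (univ.filter fun x => f x = κ ∧ Q x).card ≤ N := by
  rw [← hN κ]
  refine Finset.card_le_card ?_
  intro x
  simp only [mem_filter, mem_univ, true_and]
  exact fun h => h.1

theorem Flow_sum_bad {V : Type} [Fintype V] [DecidableEq V] (C N : ℕ) (Bad : Finset V) :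
    ∑ κ : V × Fin C, (if κ.1 ∈ Bad then N else 0) = N * C * Bad.card := by
  rw [Fintype.sum_prod_type]
  have h1 : ∀ x : V, (∑ _y : Fin C, (if x ∈ Bad then N else 0)) = C * (if x ∈ Bad then N else 0) := by
    intro x
    rw [Finset.sum_const, Finset.card_univ, Fintype.card_fin, smul_eq_mul]
  calc _ = ∑ x : V, C * (if x ∈ Bad then N else 0) := Finset.sum_congr rfl fun x _ => h1 x
    _ = _ := by
      rw [← Finset.mul_sum, Finset.sum_ite_mem, Finset.univ_inter, Finset.sum_const, smul_eq_mul]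
      ring

theorem Flow_sum_const {V : Type} [Fintype V] [DecidableEq V] (C h : ℕ) :
    ∑ _κ : V × Fin C, h = h * C * Fintype.card V := by
  simp only [Finset.sum_const, Finset.card_univ, Fintype.card_prod, Fintype.card_fin, smul_eq_mul]
  ring

theorem Flow_sum_top {V : Type} [Fintype V] [DecidableEq V] (C K N : ℕ) :
    ∑ κ : V × Fin C, (if C < (κ.2 : ℕ) + K then N else 0) ≤ N * Fintype.card V * K := by
  rw [Fintype.sum_prod_type]
  have h0 : ∀ x : V, (∑ y : Fin C, (if C < (y : ℕ) + K then N else 0)) =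
      (univ.filter fun c : Fin C => C < (c : ℕ) + K).card * N := by
    intro x
    rw [← Finset.sum_filter, Finset.sum_const, smul_eq_mul]
  have : (univ.filter fun c : Fin C => C < (c : ℕ) + K).card ≤ K := by
    have h1 : (univ.filter fun c : Fin C => C < (c : ℕ) + K).card ≤ (Finset.range K).card := by
      refine Finset.card_le_card_of_injOn (fun c => C - 1 - (c : ℕ)) ?_ ?_
      · intro c hc
        simp only [coe_filter, mem_univ, true_and, Set.mem_ofPred_eq] at hc
        simp only [coe_range, Set.mem_Iio]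
        have := c.2
        omega
      · intro c _ c' _ hcc
        have h1 := c.2
        have h2 := c'.2
        simp only at hcc
        ext
        omega
    simpa using h1
  calc _ = ∑ _x : V, (univ.filter fun c : Fin C => C < (c : ℕ) + K).card * N :=
        Finset.sum_congr rfl fun x _ => h0 x
    _ = Fintype.card V * ((univ.filter fun c : Fin C => C < (c : ℕ) + K).card * N) := by
        rw [Finset.sum_const, Finset.card_univ, smul_eq_mul]
    _ ≤ Fintype.card V * (K * N) := by gcongr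
    _ = N * Fintype.card V * K := by ring

end flowaux

section flowstep

set_option linter.unusedSectionVars false

variable {V Am Aw : Type} [Fintype V] [DecidableEq V] [Fintype Am] [DecidableEq Am]
    [Fintype Aw] [DecidableEq Aw]

/-- the quantile -/
def Flow_al {C : ℕ} (h : ℕ) (nm : Am → V × Fin C) (rm : Am → ℕ) (κ : V × Fin C) : ℕ :=
  Nat.findGreatest (fun s => h ≤ (univ.filter fun x => nm x = κ ∧ s ≤ rm x).card) (C + 1)

theorem Flow_al_spec {C h N : ℕ} (hhN : h ≤ N) (nm : Am → V × Fin C) (rm : Am → ℕ)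
    (hNm : ∀ κ, (univ.filter fun x => nm x = κ).card = N) (κ : V × Fin C) :
    h ≤ (univ.filter fun x => nm x = κ ∧ Flow_al h nm rm κ ≤ rm x).card := by
  refine Nat.findGreatest_spec (P := fun s => h ≤ (univ.filter fun x => nm x = κ ∧ s ≤ rm x).card)
    (Nat.zero_le _) ?_
  simpa [hNm κ] using hhN

theorem Flow_al_lt {C h : ℕ} (hh : 1 ≤ h) (nm : Am → V × Fin C) (rm : Am → ℕ)
    (hrm : ∀ x, rm x ≤ C + 1) (κ : V × Fin C) {s : ℕ} (hs : Flow_al h nm rm κ < s) :
    (univ.filter fun x => nm x = κ ∧ s ≤ rm x).card < h := by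
  by_cases h1 : s ≤ C + 1
  · have := Nat.findGreatest_is_greatest (P := fun s => h ≤ (univ.filter fun x => nm x = κ ∧ s ≤ rm x).card)
      hs h1
    exact not_le.1 this
  · have : (univ.filter fun x => nm x = κ ∧ s ≤ rm x) = ∅ := by
      ext x
      simp only [mem_filter, mem_univ, true_and, notMem_empty, iff_false]
      rintro ⟨_, h2⟩
      have := hrm x
      omega
    rw [this, Finset.card_empty]
    exact hh

/-- the partition of a node into rank `0`, cross and low agents -/
theorem Flow_part {A K : Type} [Fintype A] [DecidableEq K] (f : A → K) (r : A → ℕ) (C : ℕ)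
    (hr : ∀ x, r x ≤ C + 1) (κ : K) :
    (univ.filter fun x => f x = κ).card = (univ.filter fun x => f x = κ ∧ r x = 0).card +
      ((univ.filter fun x => f x = κ ∧ (1 ≤ r x ∧ r x ≤ C)).card +
        (univ.filter fun x => f x = κ ∧ r x = C + 1).card) := by
  classical
  rw [← Finset.card_union_of_disjoint, ← Finset.card_union_of_disjoint]
  · congr 1
    ext x
    simp only [mem_filter, mem_univ, true_and, mem_union]
    have := hr x
    constructor
    · intro h
      rcases Nat.eq_zero_or_pos (r x) with h0 | h0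
      · exact Or.inl ⟨h, h0⟩
      · rcases Nat.lt_or_ge (r x) (C + 1) with h1 | h1
        · exact Or.inr (Or.inl ⟨h, h0, by omega⟩)
        · exact Or.inr (Or.inr ⟨h, by omega⟩)
    · rintro (h | h | h)
      exacts [h.1, h.1, h.1]
  · rw [Finset.disjoint_left]
    intro x
    simp only [mem_filter, mem_univ, true_and, mem_union]
    rintro ⟨_, h0⟩ (h | h)
    · omega
    · omega
  · rw [Finset.disjoint_left]
    intro x
    simp only [mem_filter, mem_univ, true_and]
    rintro ⟨_, h0⟩ h
    omega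

theorem Flow_pairs {A P : Type} [Fintype A] [DecidableEq A] (Pr : Finset P) (pr : P → A)
    (cr : A → Prop) [DecidablePred cr]
    (h : ∀ x, (Pr.filter fun p => pr p = x).card = if cr x then 1 else 0) (Q : A → Prop)
    [DecidablePred Q] :
    (Pr.filter fun p => Q (pr p)).card = (univ.filter fun x => Q x ∧ cr x).card := by
  rw [Finset.card_eq_sum_card_fiberwise (f := pr) (t := univ) (fun x _ => by simp)]
  rw [Finset.card_filter]
  refine Finset.sum_congr rfl fun x _ => ?_
  by_cases hQ : Q x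
  · have : ((Pr.filter fun p => Q (pr p)).filter fun p => pr p = x) =
        Pr.filter fun p => pr p = x := by
      ext p
      simp only [mem_filter]
      constructor
      · rintro ⟨⟨h1, _⟩, h2⟩
        exact ⟨h1, h2⟩
      · rintro ⟨h1, h2⟩
        exact ⟨⟨h1, by rw [h2]; exact hQ⟩, h2⟩
    rw [this, h x]
    simp [hQ]
  · have : ((Pr.filter fun p => Q (pr p)).filter fun p => pr p = x) = ∅ := by
      ext p
      simp only [mem_filter, notMem_empty, iff_false]
      rintro ⟨⟨_, h1⟩, h2⟩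
      rw [h2] at h1
      exact hQ h1
    rw [this]
    simp [hQ]

theorem Flow_pairs_le {A P : Type} [Fintype A] [DecidableEq A] (Pr : Finset P) (pr : P → A)
    (cr : A → Prop) [DecidablePred cr]
    (h : ∀ x, (Pr.filter fun p => pr p = x).card = if cr x then 1 else 0) (Q : A → Prop)
    [DecidablePred Q] (R : P → Prop) [DecidablePred R] (hRQ : ∀ p ∈ Pr, R p → Q (pr p)) :
    (Pr.filter R).card ≤ (univ.filter Q).card := by
  calc (Pr.filter R).card ≤ (Pr.filter fun p => Q (pr p)).card := by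
        refine Finset.card_le_card ?_
        intro p
        simp only [mem_filter]
        rintro ⟨h1, h2⟩
        exact ⟨h1, hRQ p h1 h2⟩
    _ = (univ.filter fun x => Q x ∧ cr x).card := Flow_pairs Pr pr cr h Q
    _ ≤ _ := by
        refine Finset.card_le_card ?_
        intro x
        simp only [mem_filter, mem_univ, true_and]
        exact fun h => h.1

/-- the cut -/
def Flow_T {C : ℕ} (h : ℕ) (nm : Am → V × Fin C) (rm : Am → ℕ) (Bad : Finset V) (K : ℕ)
    (κ : V × Fin C) : Prop :=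
  κ.1 ∉ Bad ∧ (κ.2 : ℕ) + 1 + K ≤ Flow_al h nm rm κ

instance {C : ℕ} (h : ℕ) (nm : Am → V × Fin C) (rm : Am → ℕ) (Bad : Finset V) (K : ℕ) :
    DecidablePred (Flow_T h nm rm Bad K) := fun κ =>
  inferInstanceAs (Decidable (κ.1 ∉ Bad ∧ (κ.2 : ℕ) + 1 + K ≤ Flow_al h nm rm κ))

theorem Flow_A {C h N : ℕ} (hhN : h ≤ N)
    (nm : Am → V × Fin C) (nww : Aw → V × Fin C)
    (hNm : ∀ κ, (univ.filter fun x => nm x = κ).card = N)
    (rm : Am → ℕ) (rw : Aw → ℕ) (Bad : Finset V)
    (hBad : ∀ v ∉ Bad, ∀ c s : Fin C,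
      (univ.filter fun x => nm x = (v, c) ∧ (s : ℕ) + 1 < rm x).card < h ∨
      (univ.filter fun y => nww y = (v, s) ∧ (c : ℕ) + 1 < rw y).card < h)
    {v : V} (hv : v ∉ Bad) {c s : Fin C} (hs : (s : ℕ) + 1 < Flow_al h nm rm (v, c)) :
    (univ.filter fun y => nww y = (v, s) ∧ (c : ℕ) + 1 < rw y).card < h := by
  rcases hBad v hv c s with h1 | h1
  · exfalso
    have h2 := Flow_al_spec hhN nm rm hNm (v, c)
    have h3 : (univ.filter fun x => nm x = (v, c) ∧ Flow_al h nm rm (v, c) ≤ rm x).card ≤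
        (univ.filter fun x => nm x = (v, c) ∧ (s : ℕ) + 1 < rm x).card := by
      refine Finset.card_le_card ?_
      intro x
      simp only [mem_filter, mem_univ, true_and]
      rintro ⟨h4, h5⟩
      exact ⟨h4, by omega⟩
    omega
  · exact h1

theorem Flow_L1 {C h N : ℕ} (hh : 1 ≤ h) (nm : Am → V × Fin C)
    (hNm : ∀ κ, (univ.filter fun x => nm x = κ).card = N)
    (rm : Am → ℕ) (hrm : ∀ x, rm x ≤ C + 1) (Bad : Finset V) (K : ℕ) :
    (univ.filter fun x => rm x = C + 1).card ≤
      (univ.filter fun x => Flow_T h nm rm Bad K (nm x) ∧ rm x = C + 1).card +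
        (N * C * Bad.card + h * C * Fintype.card V + N * Fintype.card V * K) := by
  have h1 : (univ.filter fun x => rm x = C + 1).card ≤
      (univ.filter fun x => Flow_T h nm rm Bad K (nm x) ∧ rm x = C + 1).card +
      (univ.filter fun x => ¬ Flow_T h nm rm Bad K (nm x) ∧ rm x = C + 1).card := by
    rw [← Finset.card_union_of_disjoint]
    · refine Finset.card_le_card ?_
      intro x
      simp only [mem_filter, mem_univ, true_and, mem_union]
      intro h2
      by_cases h3 : Flow_T h nm rm Bad K (nm x)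
      · exact Or.inl ⟨h3, h2⟩
      · exact Or.inr ⟨h3, h2⟩
    · rw [Finset.disjoint_left]
      intro x
      simp only [mem_filter, mem_univ, true_and]
      rintro ⟨h2, _⟩ ⟨h3, _⟩
      exact h3 h2
  have h2 : (univ.filter fun x => ¬ Flow_T h nm rm Bad K (nm x) ∧ rm x = C + 1).card ≤
      ∑ κ : V × Fin C, ((if κ.1 ∈ Bad then N else 0) + h + (if C < (κ.2 : ℕ) + K then N else 0)) := by
    refine Flow_fib_le nm _ _ fun κ => ?_
    have hN := Flow_le_N nm hNm (fun x => ¬ Flow_T h nm rm Bad K (nm x) ∧ rm x = C + 1) κ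
    by_cases hb : κ.1 ∈ Bad
    · rw [if_pos hb]
      omega
    · by_cases hT : Flow_T h nm rm Bad K κ
      · have : (univ.filter fun x => nm x = κ ∧ ¬ Flow_T h nm rm Bad K (nm x) ∧ rm x = C + 1) = ∅ := by
          ext x
          simp only [mem_filter, mem_univ, true_and, notMem_empty, iff_false]
          rintro ⟨h3, h4, _⟩
          rw [h3] at h4
          exact h4 hT
        rw [this]
        simp
      · have h3 : Flow_al h nm rm κ < (κ.2 : ℕ) + 1 + K := by
          by_contra h4
          exact hT ⟨hb, not_lt.1 h4⟩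
        by_cases h4 : Flow_al h nm rm κ < C + 1
        · have h5 := Flow_al_lt hh nm rm hrm κ h4
          have h6 : (univ.filter fun x => nm x = κ ∧ ¬ Flow_T h nm rm Bad K (nm x) ∧ rm x = C + 1).card
              ≤ (univ.filter fun x => nm x = κ ∧ C + 1 ≤ rm x).card := by
            refine Finset.card_le_card ?_
            intro x
            simp only [mem_filter, mem_univ, true_and]
            rintro ⟨h6, _, h7⟩
            exact ⟨h6, h7.ge⟩
          omega
        · have h5 : C < (κ.2 : ℕ) + K := by omega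
          rw [if_pos h5]
          omega
  rw [Finset.sum_add_distrib, Finset.sum_add_distrib, Flow_sum_bad, Flow_sum_const] at h2
  have h3 := Flow_sum_top (V := V) C K N
  omega

theorem Flow_L2 {C h N : ℕ} (hhN : h ≤ N)
    (nm : Am → V × Fin C) (nww : Aw → V × Fin C)
    (hNm : ∀ κ, (univ.filter fun x => nm x = κ).card = N)
    (rm : Am → ℕ) (rw : Aw → ℕ) (Bad : Finset V)
    (hBad : ∀ v ∉ Bad, ∀ c s : Fin C,
      (univ.filter fun x => nm x = (v, c) ∧ (s : ℕ) + 1 < rm x).card < h ∨
      (univ.filter fun y => nww y = (v, s) ∧ (c : ℕ) + 1 < rw y).card < h) (K : ℕ) (hK : 1 ≤ K) :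
    (univ.filter fun y => Flow_T h nm rm Bad K (nww y) ∧ rw y = C + 1).card ≤
      h * C * Fintype.card V := by
  rw [← Flow_sum_const]
  refine Flow_fib_le nww _ _ fun κ => ?_
  by_cases hT : Flow_T h nm rm Bad K κ
  · obtain ⟨v, c⟩ := κ
    have hT1 : v ∉ Bad := hT.1
    have hT2 : (c : ℕ) + 1 + K ≤ Flow_al h nm rm (v, c) := hT.2
    have h1 := Flow_A hhN nm nww hNm rm rw Bad hBad hT1 (c := c) (s := c) (by omega)
    refine le_trans (Finset.card_le_card ?_) h1.le
    intro y
    simp only [mem_filter, mem_univ, true_and]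
    rintro ⟨h2, _, h3⟩
    have := c.2
    exact ⟨h2, by omega⟩
  · have : (univ.filter fun x => nww x = κ ∧ Flow_T h nm rm Bad K (nww x) ∧ rw x = C + 1) = ∅ := by
      ext x
      simp only [mem_filter, mem_univ, true_and, notMem_empty, iff_false]
      rintro ⟨h3, h4, _⟩
      rw [h3] at h4
      exact hT h4
    rw [this]
    simp

theorem Flow_L3 {C N : ℕ}
    (nm : Am → V × Fin C) (nww : Aw → V × Fin C)
    (hNm : ∀ κ, (univ.filter fun x => nm x = κ).card = N)
    (hNw : ∀ κ, (univ.filter fun y => nww y = κ).card = N)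
    (rm : Am → ℕ) (rw : Aw → ℕ) (hrm : ∀ x, rm x ≤ C + 1) (hrw : ∀ y, rw y ≤ C + 1)
    (h0 : ∀ κ, (univ.filter fun x => nm x = κ ∧ rm x = 0).card =
      (univ.filter fun y => nww y = κ ∧ rw y = 0).card) (T : V × Fin C → Prop) [DecidablePred T] :
    (univ.filter fun x => T (nm x) ∧ (1 ≤ rm x ∧ rm x ≤ C)).card +
      (univ.filter fun x => T (nm x) ∧ rm x = C + 1).card =
    (univ.filter fun y => T (nww y) ∧ (1 ≤ rw y ∧ rw y ≤ C)).card +
      (univ.filter fun y => T (nww y) ∧ rw y = C + 1).card := by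
  have key : ∀ {A : Type} [Fintype A] [DecidableEq A] (f : A → V × Fin C) (Q : A → Prop)
      [DecidablePred Q], (univ.filter fun x => T (f x) ∧ Q x).card =
        ∑ κ ∈ univ.filter T, (univ.filter fun x => f x = κ ∧ Q x).card := by
    intro A _ _ f Q _
    rw [Flow_fib f, Finset.sum_filter]
    refine Finset.sum_congr rfl fun κ _ => ?_
    split_ifs with hT
    · congr 1
      ext x
      simp only [mem_filter, mem_univ, true_and]
      constructor
      · rintro ⟨h1, _, h2⟩
        exact ⟨h1, h2⟩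
      · rintro ⟨h1, h2⟩
        exact ⟨h1, by rw [h1]; exact hT, h2⟩
    · rw [Finset.card_eq_zero]
      ext x
      simp only [mem_filter, mem_univ, true_and, notMem_empty, iff_false]
      rintro ⟨h1, h2, _⟩
      rw [h1] at h2
      exact hT h2
  rw [key nm, key nm, key nww, key nww, ← Finset.sum_add_distrib, ← Finset.sum_add_distrib]
  refine Finset.sum_congr rfl fun κ _ => ?_
  have h1 := Flow_part nm rm C hrm κ
  have h2 := Flow_part nww rw C hrw κ
  rw [hNm κ, h0 κ] at h1
  rw [hNw κ] at h2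
  omega

theorem Flow_L5 {C h N K K' D mn : ℕ} (hh : 1 ≤ h) (hhN : h ≤ N) (hK : 1 ≤ K) (hK' : 1 ≤ K')
    (hKD : K * D = C)
    (hKmn : K' * D = mn)
    (nm : Am → V × Fin C) (nww : Aw → V × Fin C)
    (hNm : ∀ κ, (univ.filter fun x => nm x = κ).card = N)
    (hNw : ∀ κ, (univ.filter fun y => nww y = κ).card = N)
    (rm : Am → ℕ) (rw : Aw → ℕ) (hrm : ∀ x, rm x ≤ C + 1)
    (Pr : Finset (Am × Aw))
    (hP : ∀ p ∈ Pr, rm p.1 = ((nww p.2).2 : ℕ) + 1 ∧ rw p.2 = ((nm p.1).2 : ℕ) + 1)
    (hPm : ∀ x, (Pr.filter fun p => p.1 = x).card = if 1 ≤ rm x ∧ rm x ≤ C then 1 else 0)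
    (hPw : ∀ y, (Pr.filter fun p => p.2 = y).card = if 1 ≤ rw y ∧ rw y ≤ C then 1 else 0)
    (Bad : Finset V)
    (hBad : ∀ v ∉ Bad, ∀ c s : Fin C,
      (univ.filter fun x => nm x = (v, c) ∧ (s : ℕ) + 1 < rm x).card < h ∨
      (univ.filter fun y => nww y = (v, s) ∧ (c : ℕ) + 1 < rw y).card < h) :
    (Pr.filter fun p => Flow_T h nm rm Bad K (nww p.2) ∧ ¬ Flow_T h nm rm Bad K (nm p.1)).card ≤
      (univ.filter fun x => Flow_T h nm rm Bad K' (nm x) ∧ ¬ Flow_T h nm rm Bad K (nm x)).card +
        (N * C * Bad.card + 3 * (h * C * Fintype.card V) + N * Fintype.card V * mn) := by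
  classical
  -- the five sets
  have hsub : (Pr.filter fun p => Flow_T h nm rm Bad K (nww p.2) ∧ ¬ Flow_T h nm rm Bad K (nm p.1)) ⊆
      ((Pr.filter fun p => (nm p.1).1 ∈ Bad) ∪
      (Pr.filter fun p => Flow_T h nm rm Bad K (nww p.2) ∧ ((nww p.2).2 : ℕ) < (nm p.1).2)) ∪
      ((Pr.filter fun p => Flow_al h nm rm (nm p.1) < rm p.1) ∪
      ((Pr.filter fun p => Flow_T h nm rm Bad K' (nm p.1) ∧ ¬ Flow_T h nm rm Bad K (nm p.1)) ∪
      (Pr.filter fun p => Flow_T h nm rm Bad K (nww p.2) ∧ ((nww p.2).2 : ℕ) + 1 < rw p.2 + K'))) := by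
    intro p
    simp only [mem_filter, mem_union]
    rintro ⟨hp, h1, h2⟩
    by_cases ha : (nm p.1).1 ∈ Bad
    · exact Or.inl (Or.inl ⟨hp, ha⟩)
    by_cases hb : ((nww p.2).2 : ℕ) < (nm p.1).2
    · exact Or.inl (Or.inr ⟨hp, h1, hb⟩)
    by_cases hc : Flow_al h nm rm (nm p.1) < rm p.1
    · exact Or.inr (Or.inl ⟨hp, hc⟩)
    by_cases hd : Flow_T h nm rm Bad K' (nm p.1)
    · exact Or.inr (Or.inr (Or.inl ⟨hp, hd, h2⟩))
    · refine Or.inr (Or.inr (Or.inr ⟨hp, h1, ?_⟩))
      have h3 : Flow_al h nm rm (nm p.1) < ((nm p.1).2 : ℕ) + 1 + K' := by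
        by_contra h4
        exact hd ⟨ha, not_lt.1 h4⟩
      have h4 := hP p hp
      omega
  have hcard := Finset.card_le_card hsub
  have ha : (Pr.filter fun p => (nm p.1).1 ∈ Bad).card ≤ N * C * Bad.card := by
    refine le_trans (Flow_pairs_le Pr Prod.fst _ hPm (fun x => (nm x).1 ∈ Bad) _
      (fun p _ h => h)) ?_
    rw [← Flow_sum_bad]
    refine Flow_fib_le nm _ _ fun κ => ?_
    by_cases hb : κ.1 ∈ Bad
    · rw [if_pos hb]
      exact Flow_le_N nm hNm _ κ
    · rw [if_neg hb, Nat.le_zero, Finset.card_eq_zero]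
      ext x
      simp only [mem_filter, mem_univ, true_and, notMem_empty, iff_false]
      rintro ⟨h1, h2⟩
      rw [h1] at h2
      exact hb h2
  have hb : (Pr.filter fun p => Flow_T h nm rm Bad K (nww p.2) ∧
      ((nww p.2).2 : ℕ) < (nm p.1).2).card ≤ h * C * Fintype.card V := by
    refine le_trans (Flow_pairs_le Pr Prod.snd _ hPw
      (fun y => Flow_T h nm rm Bad K (nww y) ∧ ((nww y).2 : ℕ) + 1 < rw y) _
      (fun p hp h1 => ⟨h1.1, ?_⟩)) ?_
    · have h4 := hP p hp
      have := h1.2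
      omega
    rw [← Flow_sum_const]
    refine Flow_fib_le nww _ _ fun κ => ?_
    by_cases hT : Flow_T h nm rm Bad K κ
    · obtain ⟨v, c⟩ := κ
      have hT1 : v ∉ Bad := hT.1
      have hT2 : (c : ℕ) + 1 + K ≤ Flow_al h nm rm (v, c) := hT.2
      have h1 := Flow_A hhN nm nww hNm rm rw Bad hBad hT1 (c := c) (s := c) (by omega)
      refine le_trans (Finset.card_le_card ?_) h1.le
      intro y
      simp only [mem_filter, mem_univ, true_and]
      rintro ⟨h2, _, h3⟩
      rw [h2] at h3
      exact ⟨h2, h3⟩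
    · have : (univ.filter fun x => nww x = κ ∧ Flow_T h nm rm Bad K (nww x) ∧
          ((nww x).2 : ℕ) + 1 < rw x) = ∅ := by
        ext x
        simp only [mem_filter, mem_univ, true_and, notMem_empty, iff_false]
        rintro ⟨h3, h4, _⟩
        rw [h3] at h4
        exact hT h4
      rw [this]
      simp
  have hc : (Pr.filter fun p => Flow_al h nm rm (nm p.1) < rm p.1).card ≤
      h * C * Fintype.card V := by
    refine le_trans (Flow_pairs_le Pr Prod.fst _ hPm (fun x => Flow_al h nm rm (nm x) < rm x) _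
      (fun p _ h => h)) ?_
    rw [← Flow_sum_const]
    refine Flow_fib_le nm _ _ fun κ => ?_
    have h1 := Flow_al_lt hh nm rm hrm κ (Nat.lt_succ_self (Flow_al h nm rm κ))
    refine le_trans (Finset.card_le_card ?_) h1.le
    intro x
    simp only [mem_filter, mem_univ, true_and]
    rintro ⟨h2, h3⟩
    rw [h2] at h3
    exact ⟨h2, h3⟩
  have hd : (Pr.filter fun p => Flow_T h nm rm Bad K' (nm p.1) ∧
      ¬ Flow_T h nm rm Bad K (nm p.1)).card ≤
      (univ.filter fun x => Flow_T h nm rm Bad K' (nm x) ∧ ¬ Flow_T h nm rm Bad K (nm x)).card :=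
    Flow_pairs_le Pr Prod.fst _ hPm
      (fun x => Flow_T h nm rm Bad K' (nm x) ∧ ¬ Flow_T h nm rm Bad K (nm x)) _ (fun p _ h => h)
  have he : (Pr.filter fun p => Flow_T h nm rm Bad K (nww p.2) ∧
      ((nww p.2).2 : ℕ) + 1 < rw p.2 + K').card ≤
      h * C * Fintype.card V + N * Fintype.card V * mn := by
    refine le_trans (Flow_pairs_le Pr Prod.snd _ hPw
      (fun y => Flow_T h nm rm Bad K (nww y) ∧ ((nww y).2 : ℕ) + 1 < rw y + K') _
      (fun p _ h => h)) ?_
    -- the bad levels of `v`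
    set Zp : V × Fin C → Prop := fun κ => Flow_T h nm rm Bad K κ ∧
      h ≤ (univ.filter fun y => nww y = κ ∧ (κ.2 : ℕ) + 1 < rw y + K').card with hZp
    have h1 : (univ.filter fun y => Flow_T h nm rm Bad K (nww y) ∧
        ((nww y).2 : ℕ) + 1 < rw y + K').card ≤
        ∑ κ : V × Fin C, (h + (if Zp κ then N else 0)) := by
      refine Flow_fib_le nww _ _ fun κ => ?_
      by_cases hZ : Zp κ
      · rw [if_pos hZ]
        have := Flow_le_N nww hNw (fun y => Flow_T h nm rm Bad K (nww y) ∧
          ((nww y).2 : ℕ) + 1 < rw y + K') κ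
        omega
      · rw [if_neg hZ, add_zero]
        by_cases hT : Flow_T h nm rm Bad K κ
        · have h2 : (univ.filter fun y => nww y = κ ∧ (κ.2 : ℕ) + 1 < rw y + K').card < h := by
            by_contra h3
            exact hZ ⟨hT, not_lt.1 h3⟩
          refine le_trans (Finset.card_le_card ?_) h2.le
          intro y
          simp only [mem_filter, mem_univ, true_and]
          rintro ⟨h3, _, h4⟩
          rw [h3] at h4
          exact ⟨h3, h4⟩
        · have : (univ.filter fun x => nww x = κ ∧ Flow_T h nm rm Bad K (nww x) ∧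
              ((nww x).2 : ℕ) + 1 < rw x + K') = ∅ := by
            ext x
            simp only [mem_filter, mem_univ, true_and, notMem_empty, iff_false]
            rintro ⟨h3, h4, _⟩
            rw [h3] at h4
            exact hT h4
          rw [this]
          simp
    refine le_trans h1 ?_
    rw [Finset.sum_add_distrib, Flow_sum_const]
    refine Nat.add_le_add_left ?_ _
    rw [Fintype.sum_prod_type]
    have h2 : ∀ v : V, ∑ c : Fin C, (if Zp (v, c) then N else 0) ≤ N * mn := by
      intro v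
      rw [← Finset.sum_filter, Finset.sum_const, smul_eq_mul, mul_comm]
      refine Nat.mul_le_mul_left _ ?_
      have h3 : (univ.filter fun c : Fin C => Zp (v, c)).card =
          ((univ.filter fun c : Fin C => Zp (v, c)).map Fin.valEmbedding).card := by
        rw [Finset.card_map]
      rw [h3, ← hKmn]
      refine sparse_card K K' D hK hK' _ ?_ ?_
      · intro c hc
        simp only [mem_map, mem_filter, mem_univ, true_and, Fin.valEmbedding_apply] at hc
        obtain ⟨c', _, rfl⟩ := hc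
        rw [hKD]
        exact c'.2
      · intro c1 hc1 c2 hc2 h12 h12K
        simp only [mem_map, mem_filter, mem_univ, true_and, Fin.valEmbedding_apply] at hc1 hc2
        obtain ⟨c1, ⟨hT1, _⟩, rfl⟩ := hc1
        obtain ⟨c2, ⟨_, hZ2⟩, rfl⟩ := hc2
        by_contra hlt
        have hv : v ∉ Bad := hT1.1
        have hT1' : (c1 : ℕ) + 1 + K ≤ Flow_al h nm rm (v, c1) := hT1.2
        have h4 := Flow_A hhN nm nww hNm rm rw Bad hBad hv (c := c1) (s := c2) (by omega)
        have h5 : (univ.filter fun y => nww y = (v, c2) ∧ ((v, c2).2 : ℕ) + 1 < rw y + K').card ≤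
            (univ.filter fun y => nww y = (v, c2) ∧ (c1 : ℕ) + 1 < rw y).card := by
          refine Finset.card_le_card ?_
          intro y
          simp only [mem_filter, mem_univ, true_and]
          rintro ⟨h6, h7⟩
          exact ⟨h6, by omega⟩
        omega
    calc ∑ v : V, ∑ c : Fin C, (if Zp (v, c) then N else 0) ≤ ∑ _v : V, N * mn :=
          Finset.sum_le_sum fun v _ => h2 v
      _ = N * Fintype.card V * mn := by
          rw [Finset.sum_const, Finset.card_univ, smul_eq_mul]
          ring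
  have hU1 := Finset.card_union_le
    ((Pr.filter fun p => (nm p.1).1 ∈ Bad) ∪
      (Pr.filter fun p => Flow_T h nm rm Bad K (nww p.2) ∧ ((nww p.2).2 : ℕ) < (nm p.1).2))
    ((Pr.filter fun p => Flow_al h nm rm (nm p.1) < rm p.1) ∪
      ((Pr.filter fun p => Flow_T h nm rm Bad K' (nm p.1) ∧ ¬ Flow_T h nm rm Bad K (nm p.1)) ∪
      (Pr.filter fun p => Flow_T h nm rm Bad K (nww p.2) ∧ ((nww p.2).2 : ℕ) + 1 < rw p.2 + K')))
  have hU2 := Finset.card_union_le
    (Pr.filter fun p => (nm p.1).1 ∈ Bad)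
    (Pr.filter fun p => Flow_T h nm rm Bad K (nww p.2) ∧ ((nww p.2).2 : ℕ) < (nm p.1).2)
  have hU3 := Finset.card_union_le
    (Pr.filter fun p => Flow_al h nm rm (nm p.1) < rm p.1)
    ((Pr.filter fun p => Flow_T h nm rm Bad K' (nm p.1) ∧ ¬ Flow_T h nm rm Bad K (nm p.1)) ∪
      (Pr.filter fun p => Flow_T h nm rm Bad K (nww p.2) ∧ ((nww p.2).2 : ℕ) + 1 < rw p.2 + K'))
  have hU4 := Finset.card_union_le
    (Pr.filter fun p => Flow_T h nm rm Bad K' (nm p.1) ∧ ¬ Flow_T h nm rm Bad K (nm p.1))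
    (Pr.filter fun p => Flow_T h nm rm Bad K (nww p.2) ∧ ((nww p.2).2 : ℕ) + 1 < rw p.2 + K')
  omega

theorem Flow_step {C h N K K' D mn : ℕ} (hh : 1 ≤ h) (hhN : h ≤ N) (hK : 1 ≤ K) (hK' : 1 ≤ K')
    (hKD : K * D = C)
    (hKmn : K' * D = mn) (hKle : K ≤ mn) (hKK : K' ≤ K)
    (nm : Am → V × Fin C) (nww : Aw → V × Fin C)
    (hNm : ∀ κ, (univ.filter fun x => nm x = κ).card = N)
    (hNw : ∀ κ, (univ.filter fun y => nww y = κ).card = N)
    (rm : Am → ℕ) (rw : Aw → ℕ) (hrm : ∀ x, rm x ≤ C + 1) (hrw : ∀ y, rw y ≤ C + 1)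
    (h0 : ∀ κ, (univ.filter fun x => nm x = κ ∧ rm x = 0).card =
      (univ.filter fun y => nww y = κ ∧ rw y = 0).card)
    (Pr : Finset (Am × Aw))
    (hP : ∀ p ∈ Pr, rm p.1 = ((nww p.2).2 : ℕ) + 1 ∧ rw p.2 = ((nm p.1).2 : ℕ) + 1)
    (hPm : ∀ x, (Pr.filter fun p => p.1 = x).card = if 1 ≤ rm x ∧ rm x ≤ C then 1 else 0)
    (hPw : ∀ y, (Pr.filter fun p => p.2 = y).card = if 1 ≤ rw y ∧ rw y ≤ C then 1 else 0)
    (Bad : Finset V)
    (hBad : ∀ v ∉ Bad, ∀ c s : Fin C,
      (univ.filter fun x => nm x = (v, c) ∧ (s : ℕ) + 1 < rm x).card < h ∨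
      (univ.filter fun y => nww y = (v, s) ∧ (c : ℕ) + 1 < rw y).card < h) :
    (univ.filter fun x => Flow_T h nm rm Bad K (nm x)).card +
      (univ.filter fun x => rm x = C + 1).card ≤
      (univ.filter fun x => Flow_T h nm rm Bad K' (nm x)).card +
        (2 * N * C * Bad.card + 5 * h * C * Fintype.card V + 2 * N * Fintype.card V * mn) := by
  classical
  have h1 := Flow_L1 hh nm hNm rm hrm Bad K
  have h2 := Flow_L2 hhN nm nww hNm rm rw Bad hBad K hK
  have h3 := Flow_L3 nm nww hNm hNw rm rw hrm hrw h0 (Flow_T h nm rm Bad K)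
  have h5 := Flow_L5 hh hhN hK hK' hKD hKmn nm nww hNm hNw rm rw hrm Pr hP hPm hPw Bad hBad
  have h4m := Flow_pairs Pr Prod.fst _ hPm (fun x => Flow_T h nm rm Bad K (nm x))
  have h4w := Flow_pairs Pr Prod.snd _ hPw (fun y => Flow_T h nm rm Bad K (nww y))
  have h6 : (Pr.filter fun p => Flow_T h nm rm Bad K (nww p.2)).card ≤
      (Pr.filter fun p => Flow_T h nm rm Bad K (nww p.2) ∧ ¬ Flow_T h nm rm Bad K (nm p.1)).card +
      (Pr.filter fun p => Flow_T h nm rm Bad K (nm p.1)).card := by
    refine le_trans (Finset.card_le_card ?_) (Finset.card_union_le _ _)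
    intro p
    simp only [mem_filter, mem_union]
    rintro ⟨h7, h8⟩
    by_cases h9 : Flow_T h nm rm Bad K (nm p.1)
    · exact Or.inr ⟨h7, h9⟩
    · exact Or.inl ⟨h7, h8, h9⟩
  have h7 : (univ.filter fun x => Flow_T h nm rm Bad K (nm x)).card +
      (univ.filter fun x => Flow_T h nm rm Bad K' (nm x) ∧ ¬ Flow_T h nm rm Bad K (nm x)).card ≤
      (univ.filter fun x => Flow_T h nm rm Bad K' (nm x)).card := by
    rw [← Finset.card_union_of_disjoint]
    · refine Finset.card_le_card ?_
      intro x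
      simp only [mem_filter, mem_univ, true_and, mem_union]
      rintro (h8 | h8)
      · exact ⟨h8.1, by have := h8.2; omega⟩
      · exact h8.1
    · rw [Finset.disjoint_left]
      intro x
      simp only [mem_filter, mem_univ, true_and]
      rintro h8 ⟨_, h9⟩
      exact h9 h8
  have h8 : N * Fintype.card V * K ≤ N * Fintype.card V * mn := Nat.mul_le_mul_left _ hKle
  have e1 : 2 * N * C * Bad.card = N * C * Bad.card + N * C * Bad.card := by ring
  have e2 : 5 * h * C * Fintype.card V = 5 * (h * C * Fintype.card V) := by ring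
  have e3 : 2 * N * Fintype.card V * mn = N * Fintype.card V * mn + N * Fintype.card V * mn := by ring
  rw [e1, e2, e3]
  omega

end flowstep

theorem Flow_main {V Am Aw : Type} [Fintype V] [DecidableEq V] [Fintype Am] [DecidableEq Am]
    [Fintype Aw] [DecidableEq Aw] (m n h N C : ℕ) (hC : C = m ^ (n + 1)) (hm : 1 ≤ m) (hn : 1 ≤ n) (hh : 1 ≤ h)
    (nm : Am → V × Fin C) (nww : Aw → V × Fin C)
    (hNm : ∀ κ, (univ.filter fun x => nm x = κ).card = N)
    (hNw : ∀ κ, (univ.filter fun y => nww y = κ).card = N)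
    (rm : Am → ℕ) (rw : Aw → ℕ) (hrm : ∀ x, rm x ≤ C + 1)
    (hrw : ∀ y, rw y ≤ C + 1)
    (h0 : ∀ κ, (univ.filter fun x => nm x = κ ∧ rm x = 0).card =
      (univ.filter fun y => nww y = κ ∧ rw y = 0).card)
    (Pr : Finset (Am × Aw))
    (hP : ∀ p ∈ Pr, rm p.1 = ((nww p.2).2 : ℕ) + 1 ∧ rw p.2 = ((nm p.1).2 : ℕ) + 1)
    (hPm : ∀ x, (Pr.filter fun p => p.1 = x).card =
      if 1 ≤ rm x ∧ rm x ≤ C then 1 else 0)
    (hPw : ∀ y, (Pr.filter fun p => p.2 = y).card =
      if 1 ≤ rw y ∧ rw y ≤ C then 1 else 0)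
    (Bad : Finset V)
    (hBad : ∀ v ∉ Bad, ∀ c s : Fin C,
      (univ.filter fun x => nm x = (v, c) ∧ (s : ℕ) + 1 < rm x).card < h ∨
      (univ.filter fun y => nww y = (v, s) ∧ (c : ℕ) + 1 < rw y).card < h) :
    n * (univ.filter fun x => rm x = C + 1).card ≤
      N * C * Fintype.card V +
        n * (2 * N * C * Bad.card + 5 * h * C * Fintype.card V +
          2 * N * Fintype.card V * m ^ n) := by
  classical
  have hall : (univ : Finset Am).card = N * C * Fintype.card V := by
    have := Flow_fib nm (fun _ => True)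
    simp only [Finset.filter_true, and_true] at this
    rw [this, Finset.sum_congr rfl (fun κ _ => hNm κ), Flow_sum_const]
  rcases lt_or_ge N h with hNh | hhN
  · have h1 : (univ.filter fun x => rm x = C + 1).card ≤ N * C * Fintype.card V := by
      rw [← hall]
      exact Finset.card_le_card (Finset.filter_subset _ _)
    have h2 : N * C * Fintype.card V ≤ 5 * h * C * Fintype.card V := by
      gcongr
      omega
    calc n * (univ.filter fun x => rm x = C + 1).card ≤ n * (5 * h * C * Fintype.card V) :=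
          Nat.mul_le_mul_left _ (h1.trans h2)
      _ ≤ _ := by
          refine le_trans (Nat.mul_le_mul_left _ ?_) (Nat.le_add_left _ _)
          omega
  · set E := 2 * N * C * Bad.card + 5 * h * C * Fintype.card V + 2 * N * Fintype.card V * m ^ n
      with hE
    have key : ∀ i ≤ n, i * (univ.filter fun x => rm x = C + 1).card ≤
        (univ.filter fun x => Flow_T h nm rm Bad (m ^ (n - i)) (nm x)).card + i * E := by
      intro i
      induction i with
      | zero => intro _; simp
      | succ i ih =>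
        intro hi
        have ih' := ih (by omega)
        have hstep := Flow_step (C := C) (K := m ^ (n - i)) (K' := m ^ (n - (i + 1)))
          (D := m ^ (i + 1)) (mn := m ^ n) hh hhN (Nat.one_le_pow _ _ hm) (Nat.one_le_pow _ _ hm)
          (by rw [← pow_add, hC]; congr 1; omega) (by rw [← pow_add]; congr 1; omega)
          (Nat.pow_le_pow_right hm (by omega)) (Nat.pow_le_pow_right hm (by omega))
          nm nww hNm hNw rm rw hrm hrw h0 Pr hP hPm hPw Bad hBad
        rw [← hE] at hstep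
        rw [add_mul, add_mul, one_mul, one_mul]
        omega
    have h1 := key n le_rfl
    have h2 : (univ.filter fun x => Flow_T h nm rm Bad (m ^ (n - n)) (nm x)).card ≤
        N * C * Fintype.card V := by
      rw [← hall]
      exact Finset.card_le_card (Finset.filter_subset _ _)
    omega


theorem flow {V Am Aw : Type} [Fintype V] [DecidableEq V] [Fintype Am] [DecidableEq Am]
    [Fintype Aw] [DecidableEq Aw] (m n h N : ℕ) (hm : 1 ≤ m) (hn : 1 ≤ n) (hh : 1 ≤ h)
    (nm : Am → V × Fin (m ^ (n + 1))) (nww : Aw → V × Fin (m ^ (n + 1)))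
    (hNm : ∀ κ, (univ.filter fun x => nm x = κ).card = N)
    (hNw : ∀ κ, (univ.filter fun y => nww y = κ).card = N)
    (rm : Am → ℕ) (rw : Aw → ℕ) (hrm : ∀ x, rm x ≤ m ^ (n + 1) + 1)
    (hrw : ∀ y, rw y ≤ m ^ (n + 1) + 1)
    (h0 : ∀ κ, (univ.filter fun x => nm x = κ ∧ rm x = 0).card =
      (univ.filter fun y => nww y = κ ∧ rw y = 0).card)
    (Pr : Finset (Am × Aw))
    (hP : ∀ p ∈ Pr, rm p.1 = ((nww p.2).2 : ℕ) + 1 ∧ rw p.2 = ((nm p.1).2 : ℕ) + 1)
    (hPm : ∀ x, (Pr.filter fun p => p.1 = x).card =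
      if 1 ≤ rm x ∧ rm x ≤ m ^ (n + 1) then 1 else 0)
    (hPw : ∀ y, (Pr.filter fun p => p.2 = y).card =
      if 1 ≤ rw y ∧ rw y ≤ m ^ (n + 1) then 1 else 0)
    (Bad : Finset V)
    (hBad : ∀ v ∉ Bad, ∀ c s : Fin (m ^ (n + 1)),
      (univ.filter fun x => nm x = (v, c) ∧ (s : ℕ) + 1 < rm x).card < h ∨
      (univ.filter fun y => nww y = (v, s) ∧ (c : ℕ) + 1 < rw y).card < h) :
    n * (univ.filter fun x => rm x = m ^ (n + 1) + 1).card ≤
      N * m ^ (n + 1) * Fintype.card V +
        n * (2 * N * m ^ (n + 1) * Bad.card + 5 * h * m ^ (n + 1) * Fintype.card V +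
          2 * N * Fintype.card V * m ^ n) := by
  exact Flow_main m n h N _ rfl hm hn hh nm nww hNm hNw rm rw hrm hrw h0 Pr hP hPm hPw Bad hBad

end SMT
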