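import Pool.Agent.SMT.CubeBasic

/-!
# MODULE Fourier: Fourier analysis on the biased cube, `0 < q < 1`

`E ph = 0`, `E ph² = 1` for one bit. `ex_ch_mul` by `ex` of a product function (either prove
`ex q (fun x => ∏ i, u i (x i)) = ∏ i, (q * u i true + (1-q) * u i false)` by
`Finset.prod_univ_sum`/`Fintype.piFinset` and apply it, or by `ex_split`).
`inversion`: `∑ S, ch q S x * ch q S y = ∏ i, (1 + ph (x i) * ph (y i))` (`Finset.prod_one_add` /
`Finset.prod_add`), which is `0` if `x ≠ y` and `1 / wt q x` if `x = y` (one bit: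
`1 + ph true ^ 2 = 1/q`, `1 + ph false ^ 2 = 1/(1-q)`, `1 + ph true * ph false = 0`).
`coef_mem`: `f x = (part not depending on x_i) + √(q(1-q)) * ph (x i) * dd i f x` up to the mean, or
directly: for `i ∈ S` average over `x_i` first (`ex_split`):
`q * f(x^1) * ph true + (1-q) * f(x^0) * ph false = √(q(1-q)) * dd i f x`.
-/

namespace SMT.Cube

open Finset

variable {ι : Type} [Fintype ι] [DecidableEq ι]

private theorem Fourier_bit {q : ℝ} (h0 : 0 < q) (h1 : q < 1) :
    q * ph q true = √(q * (1 - q)) ∧ (1 - q) * ph q false = -√(q * (1 - q)) ∧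
    ph q true ^ 2 = (1 - q) / q ∧ ph q false ^ 2 = q / (1 - q) ∧
    ph q true * ph q false = -1 := by
  have h1' : 0 < 1 - q := by linarith
  have ha : 0 < √q := Real.sqrt_pos.2 h0
  have hb : 0 < √(1 - q) := Real.sqrt_pos.2 h1'
  have ha2 : √q ^ 2 = q := Real.sq_sqrt h0.le
  have hb2 : √(1 - q) ^ 2 = 1 - q := Real.sq_sqrt h1'.le
  have ht : ph q true = √(1 - q) / √q := by
    simp only [ph, if_true]
    exact Real.sqrt_div' _ h0.le
  have hf : ph q false = -(√q / √(1 - q)) := by
    simp only [ph, Bool.false_eq_true, if_false]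
    rw [Real.sqrt_div' _ h1'.le]
  have t2 : ph q true ^ 2 = (1 - q) / q := by rw [ht, div_pow, ha2, hb2]
  have f2 : ph q false ^ 2 = q / (1 - q) := by rw [hf, neg_sq, div_pow, ha2, hb2]
  have hs : √(q * (1 - q)) = √q * √(1 - q) := Real.sqrt_mul h0.le _
  refine ⟨?_, ?_, t2, f2, ?_⟩
  · rw [ht, hs, mul_div_assoc', div_eq_iff ha.ne']
    nth_rewrite 1 [← ha2]
    ring
  · rw [hf, hs, mul_neg, mul_div_assoc', neg_inj, div_eq_iff hb.ne']
    nth_rewrite 1 [← hb2]
    ring
  · rw [ht, hf]
    field_simp

theorem ex_ch_mul {q : ℝ} (h0 : 0 < q) (h1 : q < 1) (S T : Finset ι) :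
    ex q (fun x => ch q S x * ch q T x) = if S = T then 1 else 0 := by
  obtain ⟨b1, b2, b3, b4, b5⟩ := Fourier_bit h0 h1
  have h1' : (1 - q) ≠ 0 := by linarith
  have e1 : (fun x : ι → Bool => ch q S x * ch q T x) =
      fun x => ∏ i, ((fun (i : ι) (b : Bool) => (if i ∈ S then ph q b else 1) *
        (if i ∈ T then ph q b else 1)) i (x i)) := by
    funext x
    simp only [ch]
    rw [Finset.prod_mul_distrib, Finset.prod_ite_mem, Finset.prod_ite_mem, Finset.univ_inter,
      Finset.univ_inter]
  rw [e1]
  refine (CubeBasic_prod q (fun (i : ι) (b : Bool) => (if i ∈ S then ph q b else 1) *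
        (if i ∈ T then ph q b else 1))).trans ?_
  by_cases hST : S = T
  · rw [if_pos hST]
    subst hST
    refine Finset.prod_eq_one fun i _ => ?_
    by_cases hi : i ∈ S
    · simp only [hi, if_true]
      have t2 : ph q true * ph q true = (1 - q) / q := by rw [← b3]; ring
      have f2 : ph q false * ph q false = q / (1 - q) := by rw [← b4]; ring
      rw [t2, f2]
      field_simp
      ring
    · simp only [hi, if_false]
      ring
  · rw [if_neg hST]
    have : ∃ i, ¬ (i ∈ S ↔ i ∈ T) := by
      by_contra hcon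
      push Not at hcon
      exact hST (Finset.ext hcon)
    obtain ⟨i, hi⟩ := this
    refine Finset.prod_eq_zero (Finset.mem_univ i) ?_
    by_cases hS : i ∈ S
    · have hT : i ∉ T := fun h => hi ⟨fun _ => h, fun _ => hS⟩
      simp only [hS, hT, if_true, if_false, mul_one]
      linarith
    · have hT : i ∈ T := by
        by_contra h
        exact hi ⟨fun h' => absurd h' hS, fun h' => absurd h' h⟩
      simp only [hS, hT, if_true, if_false, one_mul]
      linarith

private theorem Fourier_kernel {q : ℝ} (h0 : 0 < q) (h1 : q < 1) (x y : ι → Bool) :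
    wt q y * ∑ S : Finset ι, ch q S y * ch q S x = if x = y then 1 else 0 := by
  obtain ⟨b1, b2, b3, b4, b5⟩ := Fourier_bit h0 h1
  have h1' : (1 - q) ≠ 0 := by linarith
  have e1 : ∑ S : Finset ι, ch q S y * ch q S x = ∏ i, (1 + ph q (y i) * ph q (x i)) := by
    rw [Finset.prod_one_add, Finset.powerset_univ]
    refine Finset.sum_congr rfl fun S _ => ?_
    simp only [ch]
    rw [Finset.prod_mul_distrib]
  rw [e1, wt, ← Finset.prod_mul_distrib]
  by_cases hxy : x = y
  · rw [if_pos hxy]
    subst hxy
    refine Finset.prod_eq_one fun i _ => ?_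
    cases x i
    · have f2 : ph q false * ph q false = q / (1 - q) := by rw [← b4]; ring
      simp only [Bool.false_eq_true, if_false]
      rw [f2]
      field_simp
      ring
    · have t2 : ph q true * ph q true = (1 - q) / q := by rw [← b3]; ring
      simp only [if_true]
      rw [t2]
      field_simp
      ring
  · rw [if_neg hxy]
    have : ∃ i, x i ≠ y i := by
      by_contra hcon
      push Not at hcon
      exact hxy (funext hcon)
    obtain ⟨i, hi⟩ := this
    refine Finset.prod_eq_zero (Finset.mem_univ i) ?_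
    have : 1 + ph q (y i) * ph q (x i) = 0 := by
      cases hx : x i <;> cases hy : y i
      · exact absurd (by rw [hx, hy]) hi
      · rw [b5]; ring
      · rw [mul_comm, b5]; ring
      · exact absurd (by rw [hx, hy]) hi
    rw [this, mul_zero]

theorem inversion {q : ℝ} (h0 : 0 < q) (h1 : q < 1) (f : (ι → Bool) → ℝ) (x : ι → Bool) :
    f x = ∑ S, coef q f S * ch q S x := by
  have e1 : ∑ S : Finset ι, coef q f S * ch q S x =
      ∑ y, f y * (wt q y * ∑ S : Finset ι, ch q S y * ch q S x) := by
    simp only [coef, ex, Finset.sum_mul, Finset.mul_sum]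
    rw [Finset.sum_comm]
    refine Finset.sum_congr rfl fun y _ => Finset.sum_congr rfl fun S _ => ?_
    ring
  rw [e1]
  simp only [Fourier_kernel h0 h1]
  simp

theorem plancherel {q : ℝ} (h0 : 0 < q) (h1 : q < 1) (f g : (ι → Bool) → ℝ) :
    ex q (fun x => f x * g x) = ∑ S, coef q f S * coef q g S := by
  have e1 : (fun x => f x * g x) = fun x => ∑ S : Finset ι, coef q g S * (f x * ch q S x) := by
    funext x
    rw [inversion h0 h1 g x, Finset.mul_sum]
    refine Finset.sum_congr rfl fun S _ => ?_
    ring
  rw [e1, ex_sum]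
  refine Finset.sum_congr rfl fun S _ => ?_
  rw [ex_mul_left, coef, mul_comm]
  rfl

/-- coefficients of a function given by its Fourier expansion -/
theorem coef_of_expansion {q : ℝ} (h0 : 0 < q) (h1 : q < 1) (c : Finset ι → ℝ) (S : Finset ι) :
    coef q (fun x => ∑ T, c T * ch q T x) S = c S := by
  unfold coef
  have e1 : (fun x : ι → Bool => (∑ T, c T * ch q T x) * ch q S x) =
      fun x => ∑ T, c T * (ch q T x * ch q S x) := by
    funext x
    rw [Finset.sum_mul]
    refine Finset.sum_congr rfl fun T _ => ?_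
    ring
  rw [e1, ex_sum]
  have e2 : ∀ T : Finset ι, ex q (fun x => c T * (ch q T x * ch q S x)) =
      if T = S then c T else 0 := by
    intro T
    rw [ex_mul_left, ex_ch_mul h0 h1]
    split_ifs <;> simp
  rw [Finset.sum_congr rfl fun T _ => e2 T]
  simp

private theorem Fourier_ch_upd (q : ℝ) (S : Finset ι) (i : ι) (hi : i ∈ S) (x : ι → Bool)
    (b : Bool) : ch q S (Function.update x i b) = ph q b * ch q (S.erase i) x := by
  unfold ch
  rw [← Finset.mul_prod_erase S _ hi, Function.update_self]
  congr 1
  refine Finset.prod_congr rfl fun j hj => ?_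
  rw [Function.update_of_ne (Finset.ne_of_mem_erase hj)]

theorem coef_mem {q : ℝ} (h0 : 0 < q) (h1 : q < 1) (f : (ι → Bool) → ℝ) (S : Finset ι) (i : ι)
    (hi : i ∈ S) : coef q f S = √(q * (1 - q)) * coef q (dd i f) (S.erase i) := by
  obtain ⟨b1, b2, b3, b4, b5⟩ := Fourier_bit h0 h1
  unfold coef
  rw [ex_split q _ i, ← ex_mul_left]
  congr 1
  funext x
  rw [Fourier_ch_upd q S i hi, Fourier_ch_upd q S i hi, dd]
  calc q * (f (Function.update x i true) * (ph q true * ch q (S.erase i) x)) +
      (1 - q) * (f (Function.update x i false) * (ph q false * ch q (S.erase i) x))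
      = (q * ph q true) * (f (Function.update x i true) * ch q (S.erase i) x) +
        ((1 - q) * ph q false) * (f (Function.update x i false) * ch q (S.erase i) x) := by ring
    _ = _ := by rw [b1, b2]; ring

theorem coef_dd_mem {q : ℝ} (h0 : 0 < q) (h1 : q < 1) (f : (ι → Bool) → ℝ) (S : Finset ι) (i : ι)
    (hi : i ∈ S) : coef q (dd i f) S = 0 := by
  obtain ⟨b1, b2, b3, b4, b5⟩ := Fourier_bit h0 h1
  unfold coef
  rw [ex_split q _ i]
  have e1 : (fun x : ι → Bool => q * (dd i f (Function.update x i true) *
      ch q S (Function.update x i true)) + (1 - q) * (dd i f (Function.update x i false) *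
      ch q S (Function.update x i false))) = fun _ => 0 := by
    funext x
    rw [Fourier_ch_upd q S i hi, Fourier_ch_upd q S i hi]
    simp only [dd, Function.update_idem]
    calc _ = (q * ph q true + (1 - q) * ph q false) *
        ((f (Function.update x i true) - f (Function.update x i false)) *
          ch q (S.erase i) x) := by ring
      _ = 0 := by rw [b1, b2]; ring
  rw [e1, ex_const]

end SMT.Cube
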