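import Mathlib

/-!
# MODULE GS: deferred acceptance on a list of edges with strict orders (abstract)

`prop E Rj`: the edges that are the best non-rejected edges of their man. `step`: reject the
proposals that lose against another proposal to the same woman. Invariant of the iteration
(`Rj ⊆ E`): every rejected edge `e` has a proposal `e' ∈ prop E Rj` with the same woman and
`lw e' e` (the best proposal at each woman is not rejected, and a man's best non-rejected edge stays
his best one if it is not rejected). `Rj` grows; after `E.length + 1` steps it is stationary (each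
non-stationary step adds an element of `E`; `E` has no duplicates). At a fixed point no two proposals
have the same woman, and no two have the same man (`lm` total).
-/

namespace SMT

variable {α : Type} [DecidableEq α]

/-- current proposals -/
def props (E : List α) (mn : α → ℕ) (lm : α → α → Bool) (Rj : List α) : List α :=
  E.filter fun e => !(decide (e ∈ Rj)) &&
    E.all fun e' => decide (e' ∈ Rj) || !(decide (mn e' = mn e)) || !(lm e' e)

/-- one round of rejections -/
def rejStep (E : List α) (mn wn : α → ℕ) (lm lw : α → α → Bool) (Rj : List α) : List α :=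
  E.filter fun e => decide (e ∈ Rj) || (decide (e ∈ props E mn lm Rj) &&
    (props E mn lm Rj).any fun e' => decide (wn e' = wn e) && lw e' e)

/-- the final proposals -/
def gsRun (E : List α) (mn wn : α → ℕ) (lm lw : α → α → Bool) : List α :=
  props E mn lm ((List.range (E.length + 1)).foldl (fun Rj _ => rejStep E mn wn lm lw Rj) [])

/-- `l` is a strict order, total on the edges of `E` with the same value of `k`. -/
structure StrictOn (E : List α) (k : α → ℕ) (l : α → α → Bool) : Prop where
  irrefl : ∀ e, l e e = false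
  trans : ∀ e e' e'', l e e' = true → l e' e'' = true → l e e'' = true
  total : ∀ e ∈ E, ∀ e' ∈ E, k e = k e' → e ≠ e' → l e e' = true ∨ l e' e = true

private theorem GS_mem_props {E : List α} {mn : α → ℕ} {lm : α → α → Bool} {Rj : List α} {e : α} :
    e ∈ props E mn lm Rj ↔ e ∈ E ∧ e ∉ Rj ∧
      ∀ e' ∈ E, e' ∈ Rj ∨ mn e' ≠ mn e ∨ lm e' e = false := by
  unfold props
  rw [List.mem_filter]
  simp only [Bool.and_eq_true, Bool.not_eq_true', decide_eq_false_iff_not, List.all_eq_true,
    Bool.or_eq_true, decide_eq_true_eq, or_assoc]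

private theorem GS_mem_step {E : List α} {mn wn : α → ℕ} {lm lw : α → α → Bool} {Rj : List α}
    {e : α} : e ∈ rejStep E mn wn lm lw Rj ↔ e ∈ E ∧ (e ∈ Rj ∨ (e ∈ props E mn lm Rj ∧
      ∃ e' ∈ props E mn lm Rj, wn e' = wn e ∧ lw e' e = true)) := by
  unfold rejStep
  rw [List.mem_filter]
  simp only [Bool.or_eq_true, Bool.and_eq_true, decide_eq_true_eq, List.any_eq_true]

private theorem GS_best (l : List α) (lw : α → α → Bool) (hi : ∀ e, lw e e = false)
    (ht : ∀ e e' e'', lw e e' = true → lw e' e'' = true → lw e e'' = true) (P : α → Prop) :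
    ∀ (n : ℕ) (e : α), e ∈ l → P e →
      (open Classical in (l.toFinset.filter (fun c => P c ∧ lw c e = true)).card) ≤ n →
      ∃ b ∈ l, P b ∧ (b = e ∨ lw b e = true) ∧ ∀ c ∈ l, P c → lw c b = false := by
  classical
  intro n
  induction n with
  | zero =>
    intro e he hPe hcard
    refine ⟨e, he, hPe, Or.inl rfl, fun c hc hPc => ?_⟩
    by_contra h
    have hc2 : c ∈ l.toFinset.filter (fun c => P c ∧ lw c e = true) :=
      Finset.mem_filter.mpr ⟨List.mem_toFinset.mpr hc, hPc, by simpa using h⟩
    have := Finset.card_pos.mpr ⟨c, hc2⟩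
    omega
  | succ n ih =>
    intro e he hPe hcard
    by_cases h : ∃ c ∈ l, P c ∧ lw c e = true
    · obtain ⟨c, hc, hPc, hce⟩ := h
      have hlt : (l.toFinset.filter (fun d => P d ∧ lw d c = true)).card <
          (l.toFinset.filter (fun d => P d ∧ lw d e = true)).card := by
        apply Finset.card_lt_card
        rw [Finset.ssubset_iff_of_subset]
        · refine ⟨c, Finset.mem_filter.mpr ⟨List.mem_toFinset.mpr hc, hPc, hce⟩, fun h2 => ?_⟩
          have h3 := (Finset.mem_filter.mp h2).2.2
          rw [hi] at h3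
          exact Bool.false_ne_true h3
        · intro d hd
          obtain ⟨h2, h3, h4⟩ := Finset.mem_filter.mp hd
          exact Finset.mem_filter.mpr ⟨h2, h3, ht _ _ _ h4 hce⟩
      obtain ⟨b, hb, hPb, hbc, hbest⟩ := ih c hc hPc (by omega)
      refine ⟨b, hb, hPb, Or.inr ?_, hbest⟩
      rcases hbc with rfl | hbc
      · exact hce
      · exact ht _ _ _ hbc hce
    · push Not at h
      refine ⟨e, he, hPe, Or.inl rfl, fun c hc hPc => ?_⟩
      have := h c hc hPc
      simpa using this

private theorem GS_stay {E : List α} {mn wn : α → ℕ} {lm lw : α → α → Bool} {Rj : List α} {e : α}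
    (h1 : e ∈ props E mn lm Rj) (h2 : e ∉ rejStep E mn wn lm lw Rj) :
    e ∈ props E mn lm (rejStep E mn wn lm lw Rj) := by
  obtain ⟨he, _, h3⟩ := GS_mem_props.mp h1
  refine GS_mem_props.mpr ⟨he, h2, fun e' he' => ?_⟩
  rcases h3 e' he' with h | h
  · exact Or.inl (GS_mem_step.mpr ⟨he', Or.inl h⟩)
  · exact Or.inr h

/-- the invariant of the iteration -/
private def GS_Inv (E : List α) (mn wn : α → ℕ) (lm lw : α → α → Bool) (Rj : List α) : Prop :=
  (∀ e ∈ Rj, ∃ e' ∈ props E mn lm Rj, wn e' = wn e ∧ lw e' e = true) ∧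
    Rj = E.filter (fun e => decide (e ∈ Rj))

private theorem GS_inv_step {E : List α} {mn wn : α → ℕ} {lm lw : α → α → Bool}
    (hw : StrictOn E wn lw) {Rj : List α} (h : GS_Inv E mn wn lm lw Rj) :
    GS_Inv E mn wn lm lw (rejStep E mn wn lm lw Rj) := by
  classical
  constructor
  · intro e he
    have hex : ∃ e' ∈ props E mn lm Rj, wn e' = wn e ∧ lw e' e = true := by
      rcases (GS_mem_step.mp he).2 with h1 | h1
      · exact h.1 e h1
      · exact h1.2
    obtain ⟨e', he', hwn, hlw⟩ := hex
    obtain ⟨b, hb, hPb, hbe, hbest⟩ := GS_best (props E mn lm Rj) lw hw.irrefl hw.trans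
      (fun c => wn c = wn e) _ e' he' hwn le_rfl
    have hbn : b ∉ rejStep E mn wn lm lw Rj := by
      intro hb2
      rcases (GS_mem_step.mp hb2).2 with h1 | ⟨_, c, hc, hcb, hlc⟩
      · exact (GS_mem_props.mp hb).2.1 h1
      · have := hbest c hc (hcb.trans hPb)
        rw [hlc] at this
        exact Bool.noConfusion this
    refine ⟨b, GS_stay hb hbn, hPb, ?_⟩
    rcases hbe with rfl | hbe
    · exact hlw
    · exact hw.trans _ _ _ hbe hlw
  · have hgen : ∀ p : α → Bool, E.filter p = E.filter (fun e => decide (e ∈ E.filter p)) := by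
      intro p
      refine List.filter_congr fun e he => ?_
      simp only [List.mem_filter, he, true_and, Bool.decide_eq_true]
    exact hgen _

private theorem GS_grow {E : List α} {mn wn : α → ℕ} {lm lw : α → α → Bool} {Rj : List α}
    (h : GS_Inv E mn wn lm lw Rj) : Rj ⊆ rejStep E mn wn lm lw Rj := by
  intro e he
  refine GS_mem_step.mpr ⟨?_, Or.inl he⟩
  have h2 := h.2
  rw [h2] at he
  exact (List.mem_filter.mp he).1

theorem gs_spec (E : List α) (hE : E.Nodup) (mn wn : α → ℕ) (lm lw : α → α → Bool)
    (hm : StrictOn E mn lm) (hw : StrictOn E wn lw) :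
    (∀ e ∈ gsRun E mn wn lm lw, e ∈ E) ∧
    (gsRun E mn wn lm lw).Nodup ∧
    (∀ e ∈ gsRun E mn wn lm lw, ∀ e' ∈ gsRun E mn wn lm lw, mn e = mn e' → e = e') ∧
    (∀ e ∈ gsRun E mn wn lm lw, ∀ e' ∈ gsRun E mn wn lm lw, wn e = wn e' → e = e') ∧
    ∀ e ∈ E, e ∈ gsRun E mn wn lm lw ∨
      (∃ e' ∈ gsRun E mn wn lm lw, mn e' = mn e ∧ lm e' e = true) ∨
      (∃ e' ∈ gsRun E mn wn lm lw, wn e' = wn e ∧ lw e' e = true) := by
  classical
  set R : ℕ → List α := fun n =>
    (List.range n).foldl (fun Rj _ => rejStep E mn wn lm lw Rj) [] with hR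
  have hRs : ∀ n, R (n + 1) = rejStep E mn wn lm lw (R n) := by
    intro n
    simp only [hR, List.range_succ, List.foldl_append, List.foldl_cons, List.foldl_nil]
  have hR0 : R 0 = [] := by simp [hR]
  have hinv : ∀ n, GS_Inv E mn wn lm lw (R n) := by
    intro n
    induction n with
    | zero =>
      rw [hR0]
      refine ⟨fun e he => absurd he List.not_mem_nil, ?_⟩
      symm
      rw [List.filter_eq_nil_iff]
      intro a _ h
      simp at h
    | succ n ih =>
      rw [hRs]
      exact GS_inv_step hw ih
  have hnd : ∀ n, (R n).Nodup := by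
    intro n
    rw [(hinv n).2]
    exact hE.filter _
  have hgrow : ∀ n, n ≤ (R n).length ∨ R (n + 1) = R n := by
    intro n
    induction n with
    | zero => exact Or.inl (Nat.zero_le _)
    | succ n ih =>
      by_cases heq : R (n + 1) = R n
      · refine Or.inr ?_
        rw [hRs (n + 1), heq, ← hRs n, heq]
      · have hlen : n ≤ (R n).length := ih.resolve_right heq
        refine Or.inl ?_
        have hsub : R n ⊆ R (n + 1) := by
          rw [hRs]
          exact GS_grow (hinv n)
        have hex : ∃ e ∈ R (n + 1), e ∉ R n := by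
          by_contra hcon
          push Not at hcon
          apply heq
          rw [(hinv (n + 1)).2, (hinv n).2]
          refine List.filter_congr fun e _ => ?_
          rw [decide_eq_decide]
          exact ⟨fun h => hcon e h, fun h => hsub h⟩
        obtain ⟨e, he1, he2⟩ := hex
        have h1 : (e :: R n).Nodup := List.nodup_cons.mpr ⟨he2, hnd n⟩
        have h2 : (e :: R n) ⊆ R (n + 1) := List.cons_subset.mpr ⟨he1, hsub⟩
        have h3 := (h1.subperm h2).length_le
        rw [List.length_cons] at h3
        omega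
  have hst : R (E.length + 1 + 1) = R (E.length + 1) := by
    rcases hgrow (E.length + 1) with h | h
    · exfalso
      have h1 : (R (E.length + 1)).length ≤ E.length := by
        rw [(hinv _).2]
        exact List.length_filter_le _ _
      omega
    · exact h
  have hgs : gsRun E mn wn lm lw = props E mn lm (R (E.length + 1)) := rfl
  rw [hgs]
  set F := R (E.length + 1) with hF
  have hFi : GS_Inv E mn wn lm lw F := hinv _
  have hFs : rejStep E mn wn lm lw F = F := by
    rw [hRs] at hst
    exact hst
  refine ⟨fun e he => (GS_mem_props.mp he).1, ?_, ?_, ?_, ?_⟩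
  · unfold props
    exact hE.filter _
  · intro e he e' he' hmn
    by_contra hne
    obtain ⟨h1, h2, h3⟩ := GS_mem_props.mp he
    obtain ⟨k1, k2, k3⟩ := GS_mem_props.mp he'
    rcases hm.total e h1 e' k1 hmn hne with h | h
    · rcases k3 e h1 with h4 | h4 | h4
      · exact h2 h4
      · exact h4 hmn
      · rw [h] at h4
        exact Bool.noConfusion h4
    · rcases h3 e' k1 with h4 | h4 | h4
      · exact k2 h4
      · exact h4 hmn.symm
      · rw [h] at h4
        exact Bool.noConfusion h4
  · intro e he e' he' hwn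
    by_contra hne
    obtain ⟨h1, h2, h3⟩ := GS_mem_props.mp he
    obtain ⟨k1, k2, k3⟩ := GS_mem_props.mp he'
    rcases hw.total e h1 e' k1 hwn hne with h | h
    · have h4 : e' ∈ rejStep E mn wn lm lw F := GS_mem_step.mpr ⟨k1, Or.inr ⟨he', e, he, hwn, h⟩⟩
      rw [hFs] at h4
      exact k2 h4
    · have h4 : e ∈ rejStep E mn wn lm lw F := GS_mem_step.mpr ⟨h1, Or.inr ⟨he, e', he', hwn.symm, h⟩⟩
      rw [hFs] at h4
      exact h2 h4
  · intro e he
    by_cases heF : e ∈ F
    · exact Or.inr (Or.inr (hFi.1 e heF))
    · obtain ⟨b, hb, ⟨hbF, hbm⟩, hbe, hbest⟩ := GS_best E lm hm.irrefl hm.trans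
        (fun c => c ∉ F ∧ mn c = mn e) _ e he ⟨heF, rfl⟩ le_rfl
      have hbp : b ∈ props E mn lm F := by
        refine GS_mem_props.mpr ⟨hb, hbF, fun c hc => ?_⟩
        by_cases h1 : c ∈ F
        · exact Or.inl h1
        · by_cases h2 : mn c = mn b
          · exact Or.inr (Or.inr (hbest c hc ⟨h1, h2.trans hbm⟩))
          · exact Or.inr (Or.inl h2)
      rcases hbe with rfl | hbe
      · exact Or.inl hbp
      · exact Or.inr (Or.inl ⟨b, hbp, hbm, hbe⟩)

end SMT
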