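import Pool.Agent.SMT.Sound
import Pool.Agent.SMT.Complete

/-!
# MODULE Gap: the choice of the parameters

`θ` with `1/2 ≤ (1-θ)^d` (`θ = 1/2` for `d = 1`, `θ = 1 - 1/√2` for `d = 2`); `θ ≤ 1/2` as
`(1-θ)^d ≤ 1-θ`. W.l.o.g. `ε ≤ 1` (use `min ε 1`).
`n = ⌈8/ε⌉`, `m = ⌈16/ε⌉`, `C = m^(n+1)`, `η = ε/80`. Choose `a, b` with `1 ≤ a`,
`θ - ε/4 ≤ a/b < θ`, `b ≥ 1/η` (e.g. `b` large and `a = ⌈θ b⌉ - 1`); then `2a ≤ b`,
`1/2 ≤ (1-θ)^d < (1-a/b)^d`, and `η N ≥ 1` for `N = nw b R₁`, `R₁ ≥ 1`.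
`t` from `no_case a b d .. η`, `ℓ = 2 t²`, `γ = ε / (256 d t⁵ C²)`, `ζ = ε / (4 ℓ)`.
YES: `complete` gives `T (1 + (θ - ε/4)(1 - ε/2)) ≥ (1 + θ - ε) T`.
NO: `h = ⌈η N⌉ ≤ 2 η N`; `no_case` with `ℓ = 2t²` gives `t²|S| ≤ 2 t ℓ³ d γ nV = 16 t⁷ d γ nV`, so
`|S| ≤ 16 t⁵ d γ nV ≤ ε/(16 C²) nV`, `β = ⌊ε/(16 C²) nV⌋`; `sound` divided by `n T`:
`|M|/T ≤ 1 + 1/n + 2 C² β/nV + 5h/N + 2/m ≤ 1 + 4 ε/8`.
-/

namespace SMT

open Finset

/-- The choice of the fraction of low letters. -/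
theorem Gap_ab (d : ℕ) (hd : 1 ≤ d) (θ : ℝ) (hθ0 : 0 < θ) (hθ : 1 / 2 ≤ (1 - θ) ^ d) (hθ1 : θ < 1)
    (ε η : ℝ) (hε : 0 < ε) (hη : 0 < η) :
    ∃ a b : ℕ, 1 ≤ a ∧ 1 ≤ b ∧ 2 * a ≤ b ∧ θ - ε / 4 ≤ (a : ℝ) / b ∧ (a : ℝ) / b ≤ 1 ∧ 1 ≤ η * b ∧
      (1 : ℝ) / 2 < (1 - (a : ℝ) / b) ^ d := by
  have hθ2 : θ ≤ 1 / 2 := by
    have h1 : (1 - θ) ^ d ≤ (1 - θ) ^ 1 := pow_le_pow_of_le_one (by linarith) (by linarith) hd
    rw [pow_one] at h1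
    linarith
  obtain ⟨b, hb⟩ := exists_nat_ge (2 / θ + 4 / ε + 1 / η + 1)
  have h2θ : 0 < 2 / θ := by positivity
  have h4ε : 0 < 4 / ε := by positivity
  have h1η : 0 < 1 / η := by positivity
  have hb0 : (0 : ℝ) < b := by linarith
  have hb1 : 1 ≤ b := by exact_mod_cast (show (1 : ℝ) ≤ b by linarith)
  have hθb : 2 ≤ θ * b := by
    have h1 : 2 / θ ≤ b := by linarith
    rw [div_le_iff₀ hθ0] at h1
    linarith
  have hεb : 4 ≤ ε * b := by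
    have h1 : 4 / ε ≤ b := by linarith
    rw [div_le_iff₀ hε] at h1
    linarith
  have hηb : 1 ≤ η * b := by
    have h1 : 1 / η ≤ b := by linarith
    rw [div_le_iff₀ hη] at h1
    linarith
  set a := ⌈θ * b⌉₊ - 1 with ha
  have hc : 2 ≤ ⌈θ * b⌉₊ := by
    have h1 : ((2 : ℕ) : ℝ) ≤ θ * b := by push_cast; exact hθb
    have h2 : ((2 : ℕ) : ℝ) ≤ (⌈θ * b⌉₊ : ℝ) := h1.trans (Nat.le_ceil _)
    exact_mod_cast h2
  have hac : (a : ℝ) + 1 = (⌈θ * b⌉₊ : ℝ) := by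
    have : a + 1 = ⌈θ * b⌉₊ := by omega
    exact_mod_cast this
  have ha1 : (a : ℝ) < θ * b := by
    have := Nat.ceil_lt_add_one (show 0 ≤ θ * b by positivity)
    linarith
  have ha2 : θ * b ≤ a + 1 := by
    rw [hac]
    exact Nat.le_ceil _
  have hab : (a : ℝ) / b < θ := by
    rw [div_lt_iff₀ hb0]
    exact ha1
  refine ⟨a, b, by omega, hb1, ?_, ?_, by linarith, hηb, ?_⟩
  · have : (2 : ℝ) * a ≤ b := by nlinarith
    exact_mod_cast this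
  · rw [le_div_iff₀ hb0]
    nlinarith
  · refine lt_of_le_of_lt hθ ?_
    exact pow_lt_pow_left₀ (by linarith) (by linarith) (by omega)

theorem Gap_aux (d : ℕ) (hd : 1 ≤ d) (θ : ℝ) (hθ0 : 0 < θ) (hθ1 : θ < 1) (hθ : 1 / 2 ≤ (1 - θ) ^ d)
    (ε : ℝ) (hε : 0 < ε) (_hε1 : ε ≤ 1) :
    ∃ (ζ γ : ℝ) (a b ℓ C : ℕ), 0 < ζ ∧ 0 < γ ∧ 1 ≤ b ∧ 1 ≤ C ∧
      ∀ R₁ R₂ : ℕ, 0 < R₁ → ∀ [NeZero R₂] (G : Game R₁ R₂), G.DTo1 d →
      (G.Yes ζ → ∃ M, WeaklyStable (red G a b ℓ C) M ∧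
        (1 + θ - ε) * (nT G b ℓ C : ℝ) ≤ M.length) ∧
      (G.No γ → ∀ M, WeaklyStable (red G a b ℓ C) M →
        (M.length : ℝ) ≤ (1 + ε) * (nT G b ℓ C : ℝ)) := by
  set η := ε / 80 with hη
  have hη0 : 0 < η := by rw [hη]; positivity
  obtain ⟨a, b, ha, hb, hab, hρ1, hρ2, hηb, hp⟩ := Gap_ab d hd θ hθ0 hθ hθ1 ε η hε hη0
  have hab' : a ≤ b := by omega
  obtain ⟨t, ht, hno⟩ := no_case a b d ha hab' hd hp η hη0
  set n := ⌈8 / ε⌉₊ with hn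
  set m := ⌈16 / ε⌉₊ with hm
  have hn8 : 8 ≤ n * ε := by
    have h1 : 8 / ε ≤ n := Nat.le_ceil _
    rw [div_le_iff₀ hε] at h1
    exact h1
  have hm16 : 16 ≤ m * ε := by
    have h1 : 16 / ε ≤ m := Nat.le_ceil _
    rw [div_le_iff₀ hε] at h1
    exact h1
  have hn1 : 1 ≤ n := Nat.ceil_pos.mpr (by positivity)
  have hm1 : 1 ≤ m := Nat.ceil_pos.mpr (by positivity)
  set C := m ^ (n + 1) with hC
  have hC1 : 1 ≤ C := Nat.one_le_pow _ _ hm1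
  have hC0 : (0 : ℝ) < C := by exact_mod_cast hC1
  have hd0 : (0 : ℝ) < d := by exact_mod_cast hd
  have ht0 : (0 : ℝ) < t := by exact_mod_cast ht
  set ℓ := 2 * t ^ 2 with hℓ
  have hℓ1 : 1 ≤ ℓ := by
    have : 1 ≤ t ^ 2 := Nat.one_le_pow _ _ ht
    omega
  have hℓ0 : (0 : ℝ) < ℓ := by exact_mod_cast hℓ1
  have hℓr : (ℓ : ℝ) = 2 * (t : ℝ) ^ 2 := by rw [hℓ]; push_cast; ring
  set γ := ε / (256 * d * (t : ℝ) ^ 5 * (C : ℝ) ^ 2) with hγ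
  have hγ0 : 0 < γ := by rw [hγ]; positivity
  set ζ := ε / (4 * ℓ) with hζ
  have hζ0 : 0 < ζ := by rw [hζ]; positivity
  refine ⟨ζ, γ, a, b, ℓ, C, hζ0, hγ0, hb, hC1, ?_⟩
  intro R₁ R₂ hR₁ _ G hG
  constructor
  · intro hY
    obtain ⟨M, hM, hMl⟩ := complete G a b ℓ C ha hab hℓ1 hζ0 hY
    refine ⟨M, hM, le_trans ?_ hMl⟩
    have h1 : 2 * (ℓ : ℝ) * ζ = ε / 2 := by rw [hζ]; field_simp; norm_num
    rw [h1, mul_comm (nT G b ℓ C : ℝ)]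
    apply mul_le_mul_of_nonneg_right _ (by positivity)
    have h2 : (a : ℝ) / b * (ε / 2) ≤ 1 * (ε / 2) := mul_le_mul_of_nonneg_right hρ2 (by positivity)
    linarith
  · intro hN M hM
    have hG0 : G ≠ [] := hN.1
    have hGl : 1 ≤ G.length := List.length_pos_of_ne_nil hG0
    set nV := G.length ^ (ℓ + 1) with hnV
    have hnV1 : 1 ≤ nV := Nat.one_le_pow _ _ hGl
    have hnV0 : (0 : ℝ) < nV := by exact_mod_cast hnV1
    set N := nw b R₁ with hNd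
    have hNb : b ≤ N := by
      rw [hNd]
      unfold nw
      exact Nat.le_self_pow hR₁.ne' b
    have hN0 : (0 : ℝ) < N := by exact_mod_cast (by omega : 0 < N)
    have hηN : 1 ≤ η * N := by
      have : (b : ℝ) ≤ N := by exact_mod_cast hNb
      nlinarith
    set h := ⌈η * N⌉₊ with hh
    have hh1 : 1 ≤ h := Nat.ceil_pos.mpr (by linarith)
    have hhle : (h : ℝ) ≤ 2 * (η * N) := by
      have := Nat.ceil_lt_add_one (show 0 ≤ η * N by positivity)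
      linarith
    set β := ⌊ε / (16 * (C : ℝ) ^ 2) * nV⌋₊ with hβd
    have hβle : (β : ℝ) ≤ ε / (16 * (C : ℝ) ^ 2) * nV := Nat.floor_le (by positivity)
    have hβ : ∀ S : Finset ℕ, (∀ v ∈ S, v < G.length ^ (ℓ + 1)) → IndepFam G a b ℓ h S → S.card ≤ β := by
      intro S hS hI
      have h1 := hno R₁ R₂ G γ hG hN ℓ h S hS (Nat.le_ceil _) hI
      apply Nat.le_floor
      have e0 : ((G.length : ℝ)) ^ (ℓ + 1) = nV := by rw [hnV]; push_cast; rfl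
      rw [e0, hℓr] at h1
      have e1 : (t : ℝ) * (t * S.card + 2 * (t : ℝ) ^ 2 * (2 * (2 * (t : ℝ) ^ 2) ^ 2 * (d * γ) * nV)) =
          (t : ℝ) ^ 2 * S.card + (t : ℝ) ^ 2 * (16 * (t : ℝ) ^ 5 * (d * γ) * nV) := by ring
      rw [e1] at h1
      have h2 : (t : ℝ) ^ 2 * S.card ≤ (t : ℝ) ^ 2 * (16 * (t : ℝ) ^ 5 * (d * γ) * nV) := by linarith
      have h3 : (S.card : ℝ) ≤ 16 * (t : ℝ) ^ 5 * (d * γ) * nV := le_of_mul_le_mul_left h2 (by positivity)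
      refine h3.trans (le_of_eq ?_)
      rw [hγ]
      field_simp
      norm_num
    have hs := sound G hG0 a b ℓ m n h β hb hm1 hn1 hh1 hβ M hM
    rw [← hC, ← hnV, ← hNd] at hs
    have hsr : (n : ℝ) * M.length ≤ n * (nT G b ℓ C : ℝ) +
      (N * C * nV + n * (2 * N * C * (C * C * β) + 5 * h * C * nV + 2 * N * nV * (m : ℝ) ^ n)) := by
      exact_mod_cast hs
    have hT : (nT G b ℓ C : ℝ) = nV * C * N := by
      unfold nT
      push_cast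
      rw [hnV, hNd]
      push_cast
      ring
    rw [hT] at hsr ⊢
    have hn0 : (0 : ℝ) < n := by exact_mod_cast hn1
    have hm0 : (0 : ℝ) < m := by exact_mod_cast hm1
    set T : ℝ := (nV : ℝ) * C * N with hTd
    have hT0 : 0 < T := by rw [hTd]; positivity
    have f1 : (N : ℝ) * C * nV ≤ n * (ε / 8 * T) := by
      have e : (N : ℝ) * C * nV = T := by rw [hTd]; ring
      rw [e]
      have h1 : 1 ≤ (n : ℝ) * (ε / 8) := by linarith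
      calc T = 1 * T := (one_mul T).symm
        _ ≤ (n : ℝ) * (ε / 8) * T := mul_le_mul_of_nonneg_right h1 hT0.le
        _ = _ := by ring
    have f2 : 2 * (N : ℝ) * C * (C * C * β) ≤ ε / 8 * T := by
      calc 2 * (N : ℝ) * C * (C * C * β) ≤ 2 * (N : ℝ) * C * (C * C * (ε / (16 * (C : ℝ) ^ 2) * nV)) := by
            apply mul_le_mul_of_nonneg_left _ (by positivity)
            exact mul_le_mul_of_nonneg_left hβle (by positivity)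
        _ = ε / 8 * T := by
            rw [hTd]
            field_simp
            norm_num
    have f3 : 5 * (h : ℝ) * C * nV ≤ ε / 8 * T := by
      calc 5 * (h : ℝ) * C * nV ≤ 5 * (2 * (η * N)) * C * nV := by
            apply mul_le_mul_of_nonneg_right _ hnV0.le
            apply mul_le_mul_of_nonneg_right _ hC0.le
            linarith
        _ = ε / 8 * T := by
            rw [hTd, hη]
            ring
    have f4 : 2 * (N : ℝ) * nV * (m : ℝ) ^ n ≤ ε / 8 * T := by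
      have e : (C : ℝ) = (m : ℝ) ^ n * m := by rw [hC]; push_cast; rw [pow_succ]
      have h1 : 2 ≤ ε / 8 * m := by linarith
      calc 2 * (N : ℝ) * nV * (m : ℝ) ^ n = 2 * (N * nV * (m : ℝ) ^ n) := by ring
        _ ≤ (ε / 8 * m) * (N * nV * (m : ℝ) ^ n) := mul_le_mul_of_nonneg_right h1 (by positivity)
        _ = ε / 8 * T := by rw [hTd, e]; ring
    have f5 : (n : ℝ) * M.length ≤ n * ((1 + ε) * T) := by
      have g1 : (n : ℝ) * (2 * N * C * (C * C * β) + 5 * h * C * nV + 2 * N * nV * (m : ℝ) ^ n) ≤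
          n * (3 * (ε / 8 * T)) := by
        apply mul_le_mul_of_nonneg_left _ hn0.le
        linarith
      have g2 : 0 ≤ (n : ℝ) * (ε / 2 * T) := by positivity
      calc (n : ℝ) * M.length ≤ n * T + (n * (ε / 8 * T) + n * (3 * (ε / 8 * T))) := by linarith
        _ = n * ((1 + ε) * T) - n * (ε / 2 * T) := by ring
        _ ≤ _ := by linarith
    exact le_of_mul_le_mul_left f5 hn0

theorem gap (d : ℕ) (hd : 1 ≤ d) (θ : ℝ) (hθ0 : 0 < θ) (hθ1 : θ < 1) (hθ : 1 / 2 ≤ (1 - θ) ^ d)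
    (ε : ℝ) (hε : 0 < ε) :
    ∃ (ζ γ : ℝ) (a b ℓ C : ℕ), 0 < ζ ∧ 0 < γ ∧ 1 ≤ b ∧ 1 ≤ C ∧
      ∀ R₁ R₂ : ℕ, 0 < R₁ → ∀ [NeZero R₂] (G : Game R₁ R₂), G.DTo1 d →
      (G.Yes ζ → ∃ M, WeaklyStable (red G a b ℓ C) M ∧
        (1 + θ - ε) * (nT G b ℓ C : ℝ) ≤ M.length) ∧
      (G.No γ → ∀ M, WeaklyStable (red G a b ℓ C) M →
        (M.length : ℝ) ≤ (1 + ε) * (nT G b ℓ C : ℝ)) := by
  obtain ⟨ζ, γ, a, b, ℓ, C, h1, h2, h3, h4, h5⟩ := Gap_aux d hd θ hθ0 hθ1 hθ (min ε 1)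
    (lt_min hε one_pos) (min_le_right _ _)
  refine ⟨ζ, γ, a, b, ℓ, C, h1, h2, h3, h4, ?_⟩
  intro R₁ R₂ hR₁ _ G hG
  obtain ⟨h6, h7⟩ := h5 R₁ R₂ hR₁ G hG
  have h8 : min ε 1 ≤ ε := min_le_left _ _
  have h9 : (0 : ℝ) ≤ (nT G b ℓ C : ℝ) := by positivity
  constructor
  · intro hY
    obtain ⟨M, hM, hMl⟩ := h6 hY
    refine ⟨M, hM, le_trans ?_ hMl⟩
    apply mul_le_mul_of_nonneg_right _ h9
    linarith
  · intro hN M hM
    refine (h7 hN M hM).trans ?_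
    apply mul_le_mul_of_nonneg_right _ h9
    linarith

end SMT
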