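import Pool.Agent.SMT.CubeBasic

/-!
# MODULE Hyper: (2,4)-hypercontractivity on the biased cube

Model: `Pool/Agent/FEI/Hyper.lean` (the unbiased case, `hyper4_aux`); copy its structure.
Induction on the set `R` of coordinates for `nz R c x = ∑ S ∈ R.powerset, ρ^|S| * c S * ch q S x`.
Insert `i`: `nz (insert i R) c x = u x + ρ * ph q (x i) * v x` with `u`, `v` not depending on `x_i`,
`E u^4 ≤ A^2`, `E v^4 ≤ B^2` (induction), total `A + B`. For one bit `E ph = 0`, `E ph^2 = 1`,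
`E ph^4 = κ`, `E ph^3 = θ` with `κ ≤ 1/(q(1-q))` and `θ^2 ≤ κ` (explicitly
`κ = ((1-q)^3+q^3)/(q(1-q))`, `θ = (1-2q)/√(q(1-q))`). So
`E (nz)^4 = E u^4 + 6 ρ² E u²v² + 4 ρ³ θ E u v³ + ρ⁴ κ E v⁴`, and
`4 ρ³ |θ| |u v³| ≤ 2 ρ² u² v² + 2 ρ⁴ κ v⁴`. With `E u²v² ≤ A B` (Cauchy) and `ρ² ≤ 1/4`,
`ρ² κ ≤ 1/4`, `ρ² ≤ 1/4`: total `≤ A² + 8 ρ² A B + 3 ρ⁴ κ B² ≤ A² + 2AB + B²`.
-/

namespace SMT.Cube

open Finset

variable {ι : Type} [Fintype ι] [DecidableEq ι]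

private theorem Hyper_bit {q : ℝ} (h0 : 0 < q) (h1 : q < 1) :
    q * ph q true + (1 - q) * ph q false = 0 ∧
    q * ph q true ^ 2 + (1 - q) * ph q false ^ 2 = 1 ∧
    q * (1 - q) * (q * ph q true ^ 4 + (1 - q) * ph q false ^ 4) ≤ 1 := by
  have h1' : 0 < 1 - q := by linarith
  have ha : 0 < √q := Real.sqrt_pos.2 h0
  have hb : 0 < √(1 - q) := Real.sqrt_pos.2 h1'
  have ha2 : √q ^ 2 = q := Real.sq_sqrt h0.le
  have hb2 : √(1 - q) ^ 2 = 1 - q := Real.sq_sqrt h1'.le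
  have ht : ph q true = √(1 - q) / √q := by
    simp only [ph, if_true]
    exact Real.sqrt_div' _ h0.le
  have hf : ph q false = -(√q / √(1 - q)) := by
    simp only [ph, Bool.false_eq_true, if_false]
    rw [Real.sqrt_div' _ h1'.le]
  have t2 : ph q true ^ 2 = (1 - q) / q := by rw [ht, div_pow, ha2, hb2]
  have f2 : ph q false ^ 2 = q / (1 - q) := by rw [hf, neg_sq, div_pow, ha2, hb2]
  refine ⟨?_, ?_, ?_⟩
  · rw [ht, hf]
    have e1 : q * (√(1 - q) / √q) = √q * √(1 - q) := by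
      rw [mul_div_assoc', div_eq_iff ha.ne']
      nth_rewrite 1 [← ha2]
      ring
    have e2 : (1 - q) * -(√q / √(1 - q)) = -(√q * √(1 - q)) := by
      rw [mul_neg, mul_div_assoc', neg_inj, div_eq_iff hb.ne']
      nth_rewrite 1 [← hb2]
      ring
    rw [e1, e2]
    ring
  · rw [t2, f2]
    field_simp
    ring
  · have t4 : ph q true ^ 4 = ((1 - q) / q) ^ 2 := by rw [← t2]; ring
    have f4 : ph q false ^ 4 = (q / (1 - q)) ^ 2 := by rw [← f2]; ring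
    rw [t4, f4]
    have e : q * (1 - q) * (q * ((1 - q) / q) ^ 2 + (1 - q) * (q / (1 - q)) ^ 2)
        = (1 - q) ^ 3 + q ^ 3 := by
      field_simp
    rw [e]
    nlinarith [mul_pos h0 h1']

private theorem Hyper_pt {q ρ : ℝ} (h0 : 0 < q) (h1 : q < 1)
    (hρ : ρ ^ 2 ≤ q * (1 - q) / 4) (u v : ℝ) :
    q * (u + ρ * ph q true * v) ^ 4 + (1 - q) * (u + ρ * ph q false * v) ^ 4
      ≤ u ^ 4 + 2 * (u ^ 2 * v ^ 2) + v ^ 4 := by
  obtain ⟨b1, b2, b3⟩ := Hyper_bit h0 h1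
  obtain ⟨t, ht⟩ : ∃ t, t = ph q true := ⟨_, rfl⟩
  obtain ⟨f, hf⟩ : ∃ f, f = ph q false := ⟨_, rfl⟩
  rw [← ht, ← hf] at b1 b2 b3 ⊢
  obtain ⟨κ, hκ⟩ : ∃ κ, κ = q * t ^ 4 + (1 - q) * f ^ 4 := ⟨_, rfl⟩
  obtain ⟨θ, hθ⟩ : ∃ θ, θ = q * t ^ 3 + (1 - q) * f ^ 3 := ⟨_, rfl⟩
  rw [← hκ] at b3
  have h1' : 0 < 1 - q := by linarith
  have hκ0 : 0 ≤ κ := by
    rw [hκ]
    positivity
  have hθ2 : θ ^ 2 ≤ κ := by
    have e : κ - θ ^ 2 = q * (1 - q) * (t * f) ^ 2 * (f - t) ^ 2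
        + κ * (1 - (q * t ^ 2 + (1 - q) * f ^ 2)) := by
      rw [hκ, hθ]
      ring
    rw [b2, sub_self, mul_zero, add_zero] at e
    have : 0 ≤ q * (1 - q) * (t * f) ^ 2 * (f - t) ^ 2 := by positivity
    linarith
  have hexp : q * (u + ρ * t * v) ^ 4 + (1 - q) * (u + ρ * f * v) ^ 4
      = u ^ 4 + 4 * ρ * u ^ 3 * v * (q * t + (1 - q) * f)
        + 6 * ρ ^ 2 * (u ^ 2 * v ^ 2) * (q * t ^ 2 + (1 - q) * f ^ 2)
        + 4 * ρ ^ 3 * θ * (u * v ^ 3) + ρ ^ 4 * κ * v ^ 4 := by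
    rw [hκ, hθ]
    ring
  rw [hexp, b1, b2]
  have hr1 : ρ ^ 2 ≤ 1 / 16 := by nlinarith [sq_nonneg (q - 1 / 2)]
  have hr0 : 0 ≤ ρ ^ 2 := sq_nonneg _
  have hr2 : ρ ^ 2 * κ ≤ 1 / 4 := by
    have := mul_le_mul_of_nonneg_right hρ hκ0
    nlinarith
  have hr3 : ρ ^ 4 * κ ≤ 1 / 64 := by
    have e : ρ ^ 4 * κ = ρ ^ 2 * (ρ ^ 2 * κ) := by ring
    rw [e]
    have h5 : 0 ≤ ρ ^ 2 * κ := mul_nonneg hr0 hκ0
    nlinarith
  have hmid : 4 * ρ ^ 3 * θ * (u * v ^ 3)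
      ≤ 2 * ρ ^ 2 * (u ^ 2 * v ^ 2) + 2 * (ρ ^ 4 * κ) * v ^ 4 := by
    have e1 : 2 * ρ ^ 2 * (u ^ 2 * v ^ 2) + 2 * (ρ ^ 4 * θ ^ 2) * v ^ 4
        - 4 * ρ ^ 3 * θ * (u * v ^ 3) = 2 * (ρ * v * (u - ρ * θ * v)) ^ 2 := by ring
    have e2 : ρ ^ 4 * θ ^ 2 * v ^ 4 ≤ ρ ^ 4 * κ * v ^ 4 := by
      apply mul_le_mul_of_nonneg_right _ (by positivity)
      exact mul_le_mul_of_nonneg_left hθ2 (by positivity)
    have e3 : 0 ≤ 2 * (ρ * v * (u - ρ * θ * v)) ^ 2 := by positivity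
    linarith
  have hw : 0 ≤ u ^ 2 * v ^ 2 := by positivity
  have hv : 0 ≤ v ^ 4 := by positivity
  have e4 : 3 * (ρ ^ 4 * κ) * v ^ 4 ≤ v ^ 4 := by nlinarith
  have e5 : 8 * ρ ^ 2 * (u ^ 2 * v ^ 2) ≤ 2 * (u ^ 2 * v ^ 2) := by nlinarith
  linarith

/-- the truncated noise sum over the subsets of `R` -/
private noncomputable def Hyper_nz (q ρ : ℝ) (R : Finset ι) (c : Finset ι → ℝ) (x : ι → Bool) : ℝ :=
  ∑ S ∈ R.powerset, ρ ^ S.card * c S * ch q S x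

private theorem Hyper_ch_update (q : ℝ) (S : Finset ι) (i : ι) (hi : i ∉ S) (x : ι → Bool)
    (b : Bool) : ch q S (Function.update x i b) = ch q S x := by
  unfold ch
  refine Finset.prod_congr rfl fun j hj => ?_
  rw [Function.update_of_ne]
  intro h
  exact hi (h ▸ hj)

private theorem Hyper_nz_indep (q ρ : ℝ) (R : Finset ι) (c : Finset ι → ℝ) (i : ι) (hi : i ∉ R)
    (x : ι → Bool) (b : Bool) :
    Hyper_nz q ρ R c (Function.update x i b) = Hyper_nz q ρ R c x := by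
  unfold Hyper_nz
  apply Finset.sum_congr rfl
  intro S hS
  rw [Hyper_ch_update q S i (fun h => hi (Finset.mem_powerset.mp hS h))]

private theorem Hyper_nz_insert (q ρ : ℝ) (R : Finset ι) (c : Finset ι → ℝ) (i : ι) (hi : i ∉ R)
    (x : ι → Bool) :
    Hyper_nz q ρ (insert i R) c x
      = Hyper_nz q ρ R c x + ρ * ph q (x i) * Hyper_nz q ρ R (fun S => c (insert i S)) x := by
  unfold Hyper_nz
  rw [Finset.sum_powerset_insert hi]
  congr 1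
  rw [Finset.mul_sum]
  apply Finset.sum_congr rfl
  intro S hS
  have hiS : i ∉ S := fun h => hi (Finset.mem_powerset.mp hS h)
  have : ch q (insert i S) x = ph q (x i) * ch q S x := by
    unfold ch
    rw [Finset.prod_insert hiS]
  rw [this, Finset.card_insert_of_notMem hiS, pow_succ]
  ring

private theorem Hyper_aux {q ρ : ℝ} (h0 : 0 < q) (h1 : q < 1) (hρ : ρ ^ 2 ≤ q * (1 - q) / 4)
    (R : Finset ι) : ∀ c : Finset ι → ℝ,
    ex q (fun x => (Hyper_nz q ρ R c x) ^ 4) ≤ (∑ S ∈ R.powerset, (c S) ^ 2) ^ 2 := by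
  induction R using Finset.induction_on with
  | empty =>
    intro c
    have h1 : (fun x : ι → Bool => (Hyper_nz q ρ ∅ c x) ^ 4) = fun _ => (c ∅) ^ 4 := by
      funext x
      unfold Hyper_nz ch
      rw [Finset.powerset_empty, Finset.sum_singleton, Finset.prod_empty, Finset.card_empty]
      ring
    rw [h1, ex_const, Finset.powerset_empty, Finset.sum_singleton]
    apply le_of_eq
    ring
  | insert i R hi ih =>
    intro c
    obtain ⟨u, hu⟩ : ∃ u, u = Hyper_nz q ρ R c := ⟨_, rfl⟩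
    obtain ⟨v, hv⟩ : ∃ v, v = Hyper_nz q ρ R (fun S => c (insert i S)) := ⟨_, rfl⟩
    obtain ⟨A, hA⟩ : ∃ A, A = ∑ S ∈ R.powerset, (c S) ^ 2 := ⟨_, rfl⟩
    obtain ⟨B, hB⟩ : ∃ B, B = ∑ S ∈ R.powerset, (c (insert i S)) ^ 2 := ⟨_, rfl⟩
    have hA0 : 0 ≤ A := by rw [hA]; exact Finset.sum_nonneg fun S _ => sq_nonneg _
    have hB0 : 0 ≤ B := by rw [hB]; exact Finset.sum_nonneg fun S _ => sq_nonneg _
    have hu4 : ex q (fun x => (u x) ^ 4) ≤ A ^ 2 := by rw [hu, hA]; exact ih c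
    have hv4 : ex q (fun x => (v x) ^ 4) ≤ B ^ 2 := by rw [hv, hB]; exact ih _
    have hui : ∀ x b, u (Function.update x i b) = u x := by
      intro x b; rw [hu]; exact Hyper_nz_indep q ρ R c i hi x b
    have hvi : ∀ x b, v (Function.update x i b) = v x := by
      intro x b; rw [hv]; exact Hyper_nz_indep q ρ R _ i hi x b
    have hsum : ∑ S ∈ (insert i R).powerset, (c S) ^ 2 = A + B := by
      rw [Finset.sum_powerset_insert hi, hA, hB]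
    rw [hsum]
    have hle : ex q (fun x => (Hyper_nz q ρ (insert i R) c x) ^ 4)
        ≤ ex q (fun x => u x ^ 4 + 2 * (u x ^ 2 * v x ^ 2) + v x ^ 4) := by
      rw [ex_split q (fun x => (Hyper_nz q ρ (insert i R) c x) ^ 4) i]
      apply ex_mono h0.le h1.le
      intro x
      rw [Hyper_nz_insert q ρ R c i hi, Hyper_nz_insert q ρ R c i hi, ← hu, ← hv, hui, hui, hvi, hvi,
        Function.update_self, Function.update_self]
      exact Hyper_pt h0 h1 hρ (u x) (v x)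
    refine hle.trans ?_
    rw [ex_add, ex_add, ex_mul_left]
    have huv : ex q (fun x => (u x) ^ 2 * (v x) ^ 2) ≤ A * B := by
      have h2 := ex_cauchy h0.le h1.le (fun x => (u x) ^ 2) (fun x => (v x) ^ 2)
      have e1 : ∀ x, ((u x) ^ 2) ^ 2 = (u x) ^ 4 := fun x => by ring
      have e2 : ∀ x, ((v x) ^ 2) ^ 2 = (v x) ^ 4 := fun x => by ring
      simp only [e1, e2] at h2
      have h3 : ex q (fun x => (u x) ^ 4) * ex q (fun x => (v x) ^ 4) ≤ A ^ 2 * B ^ 2 := by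
        apply mul_le_mul hu4 hv4 (ex_nonneg h0.le h1.le fun x => by positivity) (by positivity)
      have h4 : (ex q (fun x => (u x) ^ 2 * (v x) ^ 2)) ^ 2 ≤ (A * B) ^ 2 := by
        rw [mul_pow]; exact le_trans h2 h3
      exact (abs_le_of_sq_le_sq' h4 (mul_nonneg hA0 hB0)).2
    nlinarith [mul_nonneg hB0 hB0]

theorem hyper {q ρ : ℝ} (h0 : 0 < q) (h1 : q < 1) (hρ0 : 0 ≤ ρ) (hρ : ρ ^ 2 ≤ q * (1 - q) / 4)
    (c : Finset ι → ℝ) :
    ex q (fun x => (∑ S, ρ ^ S.card * c S * ch q S x) ^ 4) ≤ (∑ S, (c S) ^ 2) ^ 2 := by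
  have h := Hyper_aux h0 h1 hρ (univ : Finset ι) c
  unfold Hyper_nz at h
  rw [Finset.powerset_univ] at h
  exact h

end SMT.Cube
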