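import Pool.Agent.SMT.CubeBasic

/-!
# MODULE Russo: Russo's formula and its consequences

`hasDerivAt_ex`: `wt q x` is a product of `n` factors `q` or `1 - q`; use
`HasDerivAt.fun_finset_prod` (or `HasDerivAt.finset_prod`): the derivative of `wt` is
`∑ i, (∏ j ∈ univ.erase i, w_j) * (±1)`; multiply by `f x`, sum over `x` and compare with
`ex q (dd i f)` (split off the coordinate `i`: `dd i f` does not depend on it and the two signs give
the difference; `CubeBasic.wt_update`, `ex_split` may help).
`ex_mono_q`: the derivative is `≥ 0` on `[0,1]` since `dd i f ≥ 0` for monotone `f`.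
`exists_small`: mean value theorem (`exists_hasDerivAt_eq_slope`), `0 ≤ ex ≤ 1`.
-/

namespace SMT.Cube

open Finset

variable {ι : Type} [Fintype ι] [DecidableEq ι]

private theorem Russo_wt (q : ℝ) (x : ι → Bool) :
    HasDerivAt (fun q => wt q x)
      (∑ i, (∏ j ∈ univ.erase i, (if x j = true then q else 1 - q)) *
        (if x i = true then 1 else -1)) q := by
  unfold wt
  have h := HasDerivAt.fun_finsetProd (u := (univ : Finset ι))
    (f := fun (i : ι) (q : ℝ) => if x i = true then q else 1 - q)
    (f' := fun i => if x i = true then (1 : ℝ) else -1) (x := q) (by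
      intro i _
      by_cases hi : x i = true
      · simp only [hi, if_true]
        exact hasDerivAt_id q
      · simp only [hi, if_false]
        simpa using (hasDerivAt_id q).const_sub 1)
  simpa only [smul_eq_mul] using h

theorem hasDerivAt_ex (f : (ι → Bool) → ℝ) (q : ℝ) :
    HasDerivAt (fun q => ex q f) (∑ i, ex q (dd i f)) q := by
  unfold ex
  have h := HasDerivAt.fun_sum (u := (univ : Finset (ι → Bool)))
    (A := fun (x : ι → Bool) (q : ℝ) => wt q x * f x)
    (A' := fun x => (∑ i, (∏ j ∈ univ.erase i, (if x j = true then q else 1 - q)) *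
        (if x i = true then 1 else -1)) * f x) (x := q)
    (fun x _ => (Russo_wt q x).mul_const (f x))
  have e1 : ∀ i : ι, ∑ x, wt q x * dd i f x =
      ∑ x : ι → Bool, (∏ j ∈ univ.erase i, (if x j = true then q else 1 - q)) *
        (if x i = true then 1 else -1) * f x := by
    intro i
    have h1 := CubeBasic_flip (fun x => wt q x * dd i f x) i
    have h2 := CubeBasic_flip (fun x : ι → Bool =>
      (∏ j ∈ univ.erase i, (if x j = true then q else 1 - q)) *
        (if x i = true then 1 else -1) * f x) i
    have h3 : ∀ (x : ι → Bool) (b : Bool), (∏ j ∈ univ.erase i,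
        (if Function.update x i b j = true then q else 1 - q)) =
        ∏ j ∈ univ.erase i, (if x j = true then q else 1 - q) := by
      intro x b
      refine Finset.prod_congr rfl fun j hj => ?_
      rw [Function.update_of_ne (Finset.ne_of_mem_erase hj)]
    have h4 : ∑ x : ι → Bool, ((fun x => wt q x * dd i f x) (Function.update x i true) +
        (fun x => wt q x * dd i f x) (Function.update x i false)) =
        ∑ x : ι → Bool, ((fun x : ι → Bool =>
      (∏ j ∈ univ.erase i, (if x j = true then q else 1 - q)) *
        (if x i = true then 1 else -1) * f x) (Function.update x i true) +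
        (fun x : ι → Bool =>
      (∏ j ∈ univ.erase i, (if x j = true then q else 1 - q)) *
        (if x i = true then 1 else -1) * f x) (Function.update x i false)) := by
      refine Finset.sum_congr rfl fun x _ => ?_
      simp only [h3, wt_update, Function.update_self, dd, Function.update_idem]
      simp only [if_true, Bool.false_eq_true, if_false]
      ring
    linarith
  have e2 : (∑ i, ∑ x, wt q x * dd i f x) =
      ∑ x : ι → Bool, (∑ i, (∏ j ∈ univ.erase i, (if x j = true then q else 1 - q)) *
        (if x i = true then 1 else -1)) * f x := by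
    rw [Finset.sum_congr rfl fun i _ => e1 i, Finset.sum_comm]
    refine Finset.sum_congr rfl fun x _ => ?_
    rw [Finset.sum_mul]
  rw [e2]
  exact h

theorem dd_nonneg {f : (ι → Bool) → ℝ} (hf : Monotone f) (i : ι) (x : ι → Bool) :
    0 ≤ dd i f x := by
  unfold dd
  have : Function.update x i false ≤ Function.update x i true := by
    intro j
    by_cases hj : j = i
    · subst hj; simp
    · simp [Function.update_of_ne hj]
  linarith [hf this]

theorem ex_mono_q {f : (ι → Bool) → ℝ} (hf : Monotone f) {q q' : ℝ} (h0 : 0 ≤ q) (h : q ≤ q')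
    (h1 : q' ≤ 1) : ex q f ≤ ex q' f := by
  have hm : MonotoneOn (fun q => ex q f) (Set.Icc 0 1) := by
    refine monotoneOn_of_deriv_nonneg (convex_Icc 0 1) ?_ ?_ ?_
    · intro x _
      exact (hasDerivAt_ex f x).continuousAt.continuousWithinAt
    · intro x _
      exact (hasDerivAt_ex f x).differentiableAt.differentiableWithinAt
    · intro x hx
      rw [interior_Icc] at hx
      rw [(hasDerivAt_ex f x).deriv]
      exact Finset.sum_nonneg fun i _ => ex_nonneg hx.1.le hx.2.le (dd_nonneg hf i)
  exact hm ⟨h0, h.trans h1⟩ ⟨h0.trans h, h1⟩ h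

theorem exists_small {f : (ι → Bool) → ℝ} (hf : Monotone f) (h0 : ∀ x, 0 ≤ f x)
    (h1 : ∀ x, f x ≤ 1) {p p' : ℝ} (hp : 0 ≤ p) (hpp : p < p') (hp' : p' ≤ 1) :
    ∃ q, p ≤ q ∧ q ≤ p' ∧ ∑ i, ex q (dd i f) ≤ 1 / (p' - p) := by
  obtain ⟨q, hq, he⟩ := exists_hasDerivAt_eq_slope (fun q => ex q f)
    (fun q => ∑ i, ex q (dd i f)) hpp
    (fun x _ => (hasDerivAt_ex f x).continuousAt.continuousWithinAt)
    (fun x _ => hasDerivAt_ex f x)
  refine ⟨q, hq.1.le, hq.2.le, ?_⟩
  rw [he]
  have a1 : ex p' f ≤ 1 := by
    have := ex_mono (hp.trans hpp.le) hp' (f := f) (g := fun _ => 1) h1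
    rwa [ex_const] at this
  have a2 : 0 ≤ ex p f := ex_nonneg hp (hpp.le.trans hp') h0
  exact div_le_div_of_nonneg_right (by linarith) (by linarith)

end SMT.Cube
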