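import Pool.Agent.SMT.Fourier
import Pool.Agent.SMT.Hyper
import Pool.Agent.SMT.Russo

/-!
# MODULE Junta: Friedgut's argument

`level_ineq`: put `X = ∑ ρ^(2|S|) D̂(S)²` and `g = ∑ ρ^(2|S|) D̂(S) χ_S`; then `X = E[D g]`
(Plancherel, `coef_of_expansion`). As `D² = D`: `X² = (E[D·(D g)])² ≤ E[D] E[D g²]` and
`(E[D g²])² ≤ E[D] E[g⁴]` (`ex_cauchy`), and `E[g⁴] ≤ (∑ (ρ^|S| D̂(S))²)² = X²` (`hyper` with
`c S = ρ^|S| D̂(S)`). Hence `X⁴ ≤ E[D]² · E[D] · X²`.

`junta`: for `S ⊄ J`: either `|S| ≥ d`, and `∑_{|S| ≥ d} f̂² ≤ (1/d) ∑ |S| f̂(S)²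
= (1/d) ∑_i ∑_{S ∋ i} f̂(S)² = (1/d) ∑_i q(1-q) ∑_{U ∌ i} (dd i f)^(U)² ≤ (1/d) ∑_i E[dd i f]`
(`coef_mem`; Parseval; `dd i f` has values in `{0,1}`, so its square is itself); or `|S| < d` and `S`
contains some `i ∉ J`, and `∑_{S ∋ i, |S| < d} f̂(S)² ≤ q(1-q) ρ^(-2d) ∑_U ρ^(2|U|) (dd i f)^(U)²
≤ ρ^(-2d) (E dd i f)^(3/2) ≤ ρ^(-2d) √τ E[dd i f]` by `level_ineq`.
-/

namespace SMT.Cube

open Finset

variable {ι : Type} [Fintype ι] [DecidableEq ι]

theorem level_ineq {q ρ : ℝ} (h0 : 0 < q) (h1 : q < 1) (hρ0 : 0 ≤ ρ) (hρ : ρ ^ 2 ≤ q * (1 - q) / 4)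
    {D : (ι → Bool) → ℝ} (hD : ∀ x, D x = 0 ∨ D x = 1) :
    (∑ S, ρ ^ (2 * S.card) * coef q D S ^ 2) ^ 2 ≤ ex q D ^ 3 := by
  obtain ⟨X, hX⟩ : ∃ X, X = ∑ S, ρ ^ (2 * S.card) * coef q D S ^ 2 := ⟨_, rfl⟩
  obtain ⟨g, hg⟩ : ∃ g : (ι → Bool) → ℝ,
    g = fun x => ∑ T, (ρ ^ (2 * T.card) * coef q D T) * ch q T x := ⟨_, rfl⟩
  have hcg : ∀ S, coef q g S = ρ ^ (2 * S.card) * coef q D S := by
    intro S
    rw [hg]
    exact coef_of_expansion h0 h1 (fun T => ρ ^ (2 * T.card) * coef q D T) S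
  have hXE : X = ex q (fun x => D x * g x) := by
    rw [plancherel h0 h1, hX]
    refine Finset.sum_congr rfl fun S _ => ?_
    rw [hcg]
    ring
  have hD2 : ∀ x, D x ^ 2 = D x := by
    intro x
    rcases hD x with h | h <;> rw [h] <;> norm_num
  have hD0 : ∀ x, 0 ≤ D x := by
    intro x
    rcases hD x with h | h <;> rw [h]
    norm_num
  have hE0 : 0 ≤ ex q D := ex_nonneg h0.le h1.le hD0
  have s1 : X ^ 2 ≤ ex q D * ex q (fun x => D x * g x ^ 2) := by
    have h2 := ex_cauchy h0.le h1.le D (fun x => D x * g x)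
    have e1 : (fun x => D x * (D x * g x)) = fun x => D x * g x := by
      funext x
      rw [← mul_assoc, ← sq, hD2]
    have e2 : (fun x => D x ^ 2) = D := funext hD2
    have e3 : (fun x => (D x * g x) ^ 2) = fun x => D x * g x ^ 2 := by
      funext x
      rw [mul_pow, hD2]
    rw [e1, e2, e3, ← hXE] at h2
    exact h2
  have s2 : ex q (fun x => D x * g x ^ 2) ^ 2 ≤ ex q D * ex q (fun x => g x ^ 4) := by
    have h2 := ex_cauchy h0.le h1.le D (fun x => g x ^ 2)
    have e2 : (fun x => D x ^ 2) = D := funext hD2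
    have e3 : (fun x => (g x ^ 2) ^ 2) = fun x => g x ^ 4 := by
      funext x
      ring
    rw [e2, e3] at h2
    exact h2
  have s3 : ex q (fun x => g x ^ 4) ≤ X ^ 2 := by
    have h2 := hyper h0 h1 hρ0 hρ (fun S => ρ ^ S.card * coef q D S)
    have e1 : (fun x : ι → Bool => (∑ S, ρ ^ S.card * (ρ ^ S.card * coef q D S) * ch q S x) ^ 4)
        = fun x => g x ^ 4 := by
      funext x
      rw [hg]
      congr 1
      refine Finset.sum_congr rfl fun S _ => ?_
      rw [two_mul, pow_add]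
      ring
    have e2 : ∑ S, (ρ ^ S.card * coef q D S) ^ 2 = X := by
      rw [hX]
      refine Finset.sum_congr rfl fun S _ => ?_
      rw [mul_pow, two_mul, pow_add]
      ring
    rw [e1, e2] at h2
    exact h2
  rw [← hX]
  have hX0 : 0 ≤ X := by
    rw [hX]
    exact Finset.sum_nonneg fun S _ => by positivity
  rcases hX0.eq_or_lt with hz | hpos
  · rw [← hz]
    simp only [ne_eq, OfNat.ofNat_ne_zero, not_false_eq_true, zero_pow]
    positivity
  · have hM0 : 0 ≤ ex q (fun x => D x * g x ^ 2) :=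
      ex_nonneg h0.le h1.le fun x => mul_nonneg (hD0 x) (sq_nonneg _)
    have t1 : X ^ 4 ≤ ex q D ^ 2 * ex q (fun x => D x * g x ^ 2) ^ 2 := by
      calc X ^ 4 = (X ^ 2) ^ 2 := by ring
        _ ≤ (ex q D * ex q (fun x => D x * g x ^ 2)) ^ 2 :=
          pow_le_pow_left₀ (sq_nonneg _) s1 2
        _ = _ := by ring
    have t2 : ex q D ^ 2 * ex q (fun x => D x * g x ^ 2) ^ 2 ≤ ex q D ^ 2 * (ex q D * X ^ 2) := by
      apply mul_le_mul_of_nonneg_left _ (sq_nonneg _)
      exact s2.trans (mul_le_mul_of_nonneg_left s3 hE0)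
    have t3 : X ^ 2 * X ^ 2 ≤ ex q D ^ 3 * X ^ 2 := by
      calc X ^ 2 * X ^ 2 = X ^ 4 := by ring
        _ ≤ _ := t1.trans t2
        _ = _ := by ring
    exact le_of_mul_le_mul_right t3 (by positivity)

private theorem Junta_erase (i : ι) (G : Finset ι → ℝ) (hG : ∀ U, 0 ≤ G U) :
    ∑ S : Finset ι, (if i ∈ S then G (S.erase i) else 0) ≤ ∑ U, G U := by
  rw [← Finset.sum_filter]
  have hinj : Set.InjOn (fun S : Finset ι => S.erase i)
      ((univ.filter (fun S : Finset ι => i ∈ S) : Finset (Finset ι)) : Set (Finset ι)) := by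
    intro S hS T hT h
    simp only [Finset.coe_filter, Finset.mem_univ, true_and, Set.mem_ofPred_eq] at hS hT
    rw [← Finset.insert_erase hS, ← Finset.insert_erase hT]
    exact congrArg (insert i) h
  rw [← Finset.sum_image (f := G) hinj]
  exact Finset.sum_le_univ_sum_of_nonneg hG

theorem junta {q ρ τ : ℝ} (h0 : 0 < q) (h1 : q < 1) (hρ0 : 0 < ρ) (hρ : ρ ^ 2 ≤ q * (1 - q) / 4)
    {f : (ι → Bool) → ℝ} (hf : Monotone f) (hf01 : ∀ x, f x = 0 ∨ f x = 1) (J : Finset ι)
    (hJ : ∀ i ∉ J, ex q (dd i f) ≤ τ) (d : ℕ) (hd : 1 ≤ d) :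
    ∑ S ∈ univ.filter (fun S : Finset ι => ¬ S ⊆ J), coef q f S ^ 2 ≤
      (1 / d + √τ / ρ ^ (2 * d)) * ∑ i, ex q (dd i f) := by
  have h1' : 0 < 1 - q := by linarith
  have hqq : 0 ≤ q * (1 - q) := by positivity
  have hqq1 : q * (1 - q) ≤ 1 := by nlinarith
  have hρ1 : ρ ^ 2 ≤ 1 := by nlinarith
  have hρle : ρ ≤ 1 := by nlinarith
  have hd0 : (0 : ℝ) < d := by exact_mod_cast hd
  have hdd01 : ∀ i x, dd i f x = 0 ∨ dd i f x = 1 := by
    intro i x
    have hn := dd_nonneg hf i x
    unfold dd at hn ⊢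
    rcases hf01 (Function.update x i true) with a | a <;>
      rcases hf01 (Function.update x i false) with b | b <;> rw [a, b] at hn ⊢ <;>
      first
        | (left; linarith)
        | (right; linarith)
        | (exfalso; linarith)
  have hI0 : ∀ i, 0 ≤ ex q (dd i f) := fun i =>
    ex_nonneg h0.le h1.le fun x => dd_nonneg hf i x
  -- coefficients through the difference
  have hcoef : ∀ (i : ι) (S : Finset ι), i ∈ S → coef q f S ^ 2 ≤ coef q (dd i f) (S.erase i) ^ 2 := by
    intro i S hi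
    rw [coef_mem h0 h1 f S i hi, mul_pow, Real.sq_sqrt hqq]
    have := sq_nonneg (coef q (dd i f) (S.erase i))
    nlinarith
  have hA : ∀ i, ∑ S : Finset ι, (if i ∈ S then coef q f S ^ 2 else 0) ≤ ex q (dd i f) := by
    intro i
    calc ∑ S : Finset ι, (if i ∈ S then coef q f S ^ 2 else 0)
        ≤ ∑ S : Finset ι, (if i ∈ S then coef q (dd i f) (S.erase i) ^ 2 else 0) := by
          refine Finset.sum_le_sum fun S _ => ?_
          split_ifs with h
          · exact hcoef i S h
          · exact le_rfl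
      _ ≤ ∑ U, coef q (dd i f) U ^ 2 :=
          Junta_erase i (fun U => coef q (dd i f) U ^ 2) fun U => sq_nonneg _
      _ = ex q (fun x => dd i f x * dd i f x) := by
          rw [plancherel h0 h1]
          exact Finset.sum_congr rfl fun S _ => sq _
      _ = ex q (dd i f) := by
          congr 1
          funext x
          rcases hdd01 i x with h | h <;> rw [h] <;> norm_num
  have hB : ∀ i ∉ J, ∑ S : Finset ι, (if i ∈ S then ρ ^ (2 * S.card) * coef q f S ^ 2 else 0)
      ≤ √τ * ex q (dd i f) := by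
    intro i hi
    have hX := level_ineq h0 h1 hρ0.le hρ (hdd01 i)
    have hle : ∑ S : Finset ι, (if i ∈ S then ρ ^ (2 * S.card) * coef q f S ^ 2 else 0)
        ≤ ∑ U, ρ ^ (2 * U.card) * coef q (dd i f) U ^ 2 := by
      calc ∑ S : Finset ι, (if i ∈ S then ρ ^ (2 * S.card) * coef q f S ^ 2 else 0)
          ≤ ∑ S : Finset ι, (if i ∈ S then
            ρ ^ (2 * (S.erase i).card) * coef q (dd i f) (S.erase i) ^ 2 else 0) := by
            refine Finset.sum_le_sum fun S _ => ?_
            split_ifs with h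
            · apply mul_le_mul _ (hcoef i S h) (sq_nonneg _) (by positivity)
              apply pow_le_pow_of_le_one hρ0.le hρle
              have := Finset.card_erase_le (s := S) (a := i)
              omega
            · exact le_rfl
        _ ≤ _ := Junta_erase i (fun U => ρ ^ (2 * U.card) * coef q (dd i f) U ^ 2)
            fun U => by positivity
    refine hle.trans ?_
    have hτ := hJ i hi
    have hτ0 : 0 ≤ τ := (hI0 i).trans hτ
    have h3 : (∑ U, ρ ^ (2 * U.card) * coef q (dd i f) U ^ 2) ^ 2 ≤ (√τ * ex q (dd i f)) ^ 2 := by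
      refine hX.trans ?_
      rw [mul_pow, Real.sq_sqrt hτ0]
      calc ex q (dd i f) ^ 3 = ex q (dd i f) * ex q (dd i f) ^ 2 := by ring
        _ ≤ τ * ex q (dd i f) ^ 2 := mul_le_mul_of_nonneg_right hτ (sq_nonneg _)
    exact (abs_le_of_sq_le_sq' h3 (mul_nonneg (Real.sqrt_nonneg _) (hI0 i))).2
  have hC0 : 0 < ρ ^ (2 * d) := by positivity
  -- pointwise bound
  have hpt : ∀ S : Finset ι, (if ¬ S ⊆ J then coef q f S ^ 2 else 0)
      ≤ ∑ i, ((1 / d) * (if i ∈ S then coef q f S ^ 2 else 0)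
        + (if i ∉ J then (1 / ρ ^ (2 * d)) *
          (if i ∈ S then ρ ^ (2 * S.card) * coef q f S ^ 2 else 0) else 0)) := by
    intro S
    have hterm0 : ∀ i, 0 ≤ ((1 / d : ℝ) * (if i ∈ S then coef q f S ^ 2 else 0)
        + (if i ∉ J then (1 / ρ ^ (2 * d)) *
          (if i ∈ S then ρ ^ (2 * S.card) * coef q f S ^ 2 else 0) else 0)) := by
      intro i
      split_ifs <;> positivity
    by_cases hS : S ⊆ J
    · rw [if_neg (not_not.2 hS)]
      exact Finset.sum_nonneg fun i _ => hterm0 i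
    · rw [if_pos hS]
      obtain ⟨i0, hi0S, hi0J⟩ := Finset.not_subset.1 hS
      rcases le_or_gt d S.card with hc | hc
      · calc coef q f S ^ 2 = (1 / d : ℝ) * (d * coef q f S ^ 2) := by
              field_simp
          _ ≤ (1 / d : ℝ) * (S.card * coef q f S ^ 2) := by
              apply mul_le_mul_of_nonneg_left _ (by positivity)
              apply mul_le_mul_of_nonneg_right _ (sq_nonneg _)
              exact_mod_cast hc
          _ = ∑ i, (1 / d : ℝ) * (if i ∈ S then coef q f S ^ 2 else 0) := by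
              rw [← Finset.mul_sum, ← Finset.sum_filter, Finset.filter_mem_eq_inter,
                Finset.univ_inter, Finset.sum_const, nsmul_eq_mul]
          _ ≤ _ := by
              refine Finset.sum_le_sum fun i _ => ?_
              have : 0 ≤ (if i ∉ J then (1 / ρ ^ (2 * d)) *
                (if i ∈ S then ρ ^ (2 * S.card) * coef q f S ^ 2 else 0) else 0) := by
                split_ifs <;> positivity
              linarith
      · refine le_trans ?_ (Finset.single_le_sum (f := fun i => ((1 / d : ℝ) *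
          (if i ∈ S then coef q f S ^ 2 else 0)
        + (if i ∉ J then (1 / ρ ^ (2 * d)) *
          (if i ∈ S then ρ ^ (2 * S.card) * coef q f S ^ 2 else 0) else 0)))
          (fun i _ => hterm0 i) (Finset.mem_univ i0))
        simp only [hi0S, hi0J, if_true, not_false_eq_true]
        have e1 : 0 ≤ (1 / d : ℝ) * coef q f S ^ 2 := by positivity
        have e2 : ρ ^ (2 * d) ≤ ρ ^ (2 * S.card) :=
          pow_le_pow_of_le_one hρ0.le hρle (by omega)
        have e3 : coef q f S ^ 2 ≤ 1 / ρ ^ (2 * d) * (ρ ^ (2 * S.card) * coef q f S ^ 2) := by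
          rw [one_div, ← mul_assoc]
          have e4 : 1 ≤ (ρ ^ (2 * d))⁻¹ * ρ ^ (2 * S.card) := by
            rw [inv_mul_eq_div, le_div_iff₀ hC0, one_mul]
            exact e2
          have := sq_nonneg (coef q f S)
          nlinarith
        linarith
  rw [Finset.sum_filter]
  calc ∑ S : Finset ι, (if ¬ S ⊆ J then coef q f S ^ 2 else 0)
      ≤ ∑ S : Finset ι, ∑ i, ((1 / d) * (if i ∈ S then coef q f S ^ 2 else 0)
        + (if i ∉ J then (1 / ρ ^ (2 * d)) *
          (if i ∈ S then ρ ^ (2 * S.card) * coef q f S ^ 2 else 0) else 0)) :=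
        Finset.sum_le_sum fun S _ => hpt S
    _ = ∑ i, ((1 / d) * ∑ S : Finset ι, (if i ∈ S then coef q f S ^ 2 else 0)
        + (if i ∉ J then (1 / ρ ^ (2 * d)) *
          ∑ S : Finset ι, (if i ∈ S then ρ ^ (2 * S.card) * coef q f S ^ 2 else 0) else 0)) := by
        rw [Finset.sum_comm]
        refine Finset.sum_congr rfl fun i _ => ?_
        rw [Finset.sum_add_distrib, ← Finset.mul_sum]
        congr 1
        by_cases hi : i ∈ J
        · simp only [hi, not_true_eq_false, if_false, Finset.sum_const_zero]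
        · simp only [hi, not_false_eq_true, if_true]
          rw [← Finset.mul_sum]
    _ ≤ ∑ i, (1 / d + √τ / ρ ^ (2 * d)) * ex q (dd i f) := by
        refine Finset.sum_le_sum fun i _ => ?_
        have k1 : (1 / d : ℝ) * ∑ S : Finset ι, (if i ∈ S then coef q f S ^ 2 else 0)
            ≤ (1 / d) * ex q (dd i f) := mul_le_mul_of_nonneg_left (hA i) (by positivity)
        have k2 : (if i ∉ J then (1 / ρ ^ (2 * d)) *
          ∑ S : Finset ι, (if i ∈ S then ρ ^ (2 * S.card) * coef q f S ^ 2 else 0) else 0)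
            ≤ √τ / ρ ^ (2 * d) * ex q (dd i f) := by
          by_cases h : i ∈ J
          · rw [if_neg (not_not.2 h)]
            have := hI0 i
            positivity
          · rw [if_pos h]
            calc (1 / ρ ^ (2 * d)) *
                ∑ S : Finset ι, (if i ∈ S then ρ ^ (2 * S.card) * coef q f S ^ 2 else 0)
                ≤ (1 / ρ ^ (2 * d)) * (√τ * ex q (dd i f)) :=
                  mul_le_mul_of_nonneg_left (hB i h) (by positivity)
              _ = _ := by ring
        calc _ ≤ (1 / d) * ex q (dd i f) + √τ / ρ ^ (2 * d) * ex q (dd i f) := add_le_add k1 k2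
          _ = _ := by ring
    _ = _ := by rw [← Finset.mul_sum]

end SMT.Cube
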