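import Pool.Agent.SMT.Defs

/-!
# MODULE PNP: `P ⊆ NP`; languages in `P` from `Poly` functions; `PTime` and `Poly`

`ptime_iff_poly` on the types used here: `Poly.polyTime` and the converse
`FP.poly_of_polyTime` (see `Pool/Agent/PolyTime/Converse.lean`).
`P_of_poly`: `Poly f` for `f : List Bool → Bool` gives `PolyTime encStr encBool` (`PolyPred.polyTime_str`
or `polyTime_of_F3`). `P_sub_NP`: `V (x, w) = f x && w.isEmpty`.
`univ_mem_NP` : `V (x,w) = w.isEmpty`.
-/

namespace SMT

open NPC FP

theorem ptime_of_poly {α β : Type} [Code α] [Code β] {f : α → β} (hf : Poly f) : PTime f :=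
  hf.polyTime

theorem PNP_encStr {α : Type} [Code α] {g : α → List Bool} (hg : Poly g) :
    Poly (fun a => encStr (g a)) :=
  FP.Poly.map (g := fun _ b => (some b : Sym)) hg (by fun_prop)

theorem PNP_of_encStr {α : Type} [Code α] {g : α → List Bool} (hg : Poly (fun a => encStr (g a))) :
    Poly g := by
  refine (FP.Poly.map (g := fun _ b => Option.getD b false) hg (by fun_prop)).congr (fun a => ?_)
  rw [encStr, List.map_map]
  conv_rhs => rw [← List.map_id (g a)]
  rfl

theorem poly_of_ptime {α β : Type} [Code α] [Code β] {f : α → β} (hf : PTime f) : Poly f := by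
  have h1 : Poly (fun a : α => encStr (enc a)) := PNP_encStr (g := fun a => enc a) (FP.Poly.encode (f := fun a : α => a) (by fun_prop))
  have h2 : Poly (fun a : α => encStr (enc (f a))) := poly_of_polyTime (f := f) (eb := fun b => encStr (enc b)) h1 hf
  have h3 : Poly (fun a : α => (enc (f a) : List Bool)) := PNP_of_encStr h2
  exact Poly.rawMk h3

/-- input a bit string, written as such -/
theorem poly_of_ptime_str {β : Type} [Code β] {f : List Bool → β}
    (hf : PTime f) : Poly f := poly_of_ptime hf

theorem mem_P_of_poly {L : Set (List Bool)} (f : List Bool → Bool) (hf : Poly f)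
    (h : ∀ x, x ∈ L ↔ f x = true) : L ∈ P :=
  ⟨f, polyTime_of_F3 (fun l => l) (fun b => [b]) _ (F3.ofRaw hf), h⟩

theorem PNP_poly_of_bool {f : List Bool → Bool} (hf : NPC.PolyTime encStr encBool f) : Poly f := by
  have h1 : Poly encStr := PNP_encStr (g := fun x : List Bool => x) (by fun_prop)
  have h2 := poly_of_polyTime h1 hf
  have h3 : Poly (fun p => (((encBool (f p)).head?).getD none).getD false) := by fun_prop
  exact h3.congr (fun p => rfl)

theorem P_sub_NP : P ⊆ NPC.NP := by
  rintro L ⟨f, hf, h⟩
  have hp := PNP_poly_of_bool hf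
  refine mem_NP (fun p => f p.1 && p.2.isEmpty) ?_ 0 ?_ ?_
  · have : Poly (fun p : List Bool × List Bool => f p.1) := hp.comp Poly.fst'
    fun_prop
  · intro x w hw
    simp only [Bool.and_eq_true, List.isEmpty_iff] at hw
    simp [hw.2]
  · intro x
    rw [h x]
    constructor
    · intro hx
      exact ⟨[], by simp [hx]⟩
    · rintro ⟨w, hw⟩
      simp only [Bool.and_eq_true] at hw
      exact hw.1

theorem univ_mem_NP : (Set.univ : Set (List Bool)) ∈ NPC.NP := by
  refine P_sub_NP (mem_P_of_poly (fun _ => true) (FP.Poly.const _) fun x => by simp)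

end SMT
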