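import Pool.Agent.SMT.Red

/-!
# MODULE PolyRed: the reduction is computable in polynomial time

`fun_prop` with the library `Pool/Agent/PolyTime` (see `Demo.lean`, `Tags.lean`). `R₁`, `R₂`, `a`, `b`,
`ℓ`, `C` are constants, so `nw b R₁` is a constant, `digit` is division by `m^j` (`Poly.powConst` for
constant `j`; in `cross` the ranges over `List.range ℓ` are constant lists: either unfold `any` on a
constant list, or use that `m^j` with `j < ℓ` bounded is `Poly.pow` with `PolyBdd`).
`adjn a b π τ k l` depends only on `π`, `τ`, `k % nw b R₁`, `l % nw b R₁` (in `rk` the arguments are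
already `% nw b R₁`): a function on a finite type (`FP.Poly.ofFinite`) after writing `k % nw` as an
element of `Fin (nw ..)`, or compute `word` by `fun_prop`.
`List.range T` needs `PolyBdd T`.
-/

namespace SMT

open FP

section
variable {α β : Type} [Code α] [Code β]

theorem PolyRed_forallFin {n : ℕ} {p : α → Fin n → Prop} (hp : ∀ i, PolyPred (fun a => p a i)) :
    PolyPred (fun a => ∀ i, p a i) := by
  induction n with
  | zero => exact (PolyPred.const True).congr (fun a => by simp)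
  | succ n ih =>
    exact ((hp 0).and (ih (fun i => hp i.succ))).congr (fun a => by
      rw [Fin.forall_fin_succ])

theorem PolyRed_anyConst (L : List β) {g : α → β → Bool} (h : ∀ b, Poly (fun a => g a b)) :
    Poly (fun a => L.any (g a)) := by
  induction L with
  | nil => exact (FP.Poly.const false).congr (fun a => rfl)
  | cons b L ih => exact ((h b).or ih).congr (fun a => rfl)

variable {R R' : ℕ}

theorem PolyRed_app {f : α → Fin R → Fin R'} (hf : Poly f) (i : Fin R) : Poly (fun a => f a i) :=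
  FP.Poly.comp (g := fun π : Fin R → Fin R' => π i) (FP.Poly.ofFinite _) hf

theorem PolyRed_adjn (a b : ℕ) {π τ : α → Fin R → Fin R'} {k l : α → ℕ} (hπ : Poly π) (hτ : Poly τ)
    (hk : Poly k) (hl : Poly l) : Poly (fun x => adjn a b (π x) (τ x) (k x) (l x)) := by
  unfold adjn Adj word
  refine PolyPred.dec (PolyRed_forallFin (fun i => PolyRed_forallFin (fun i' => ?_)))
  have h1 := PolyRed_app hπ i
  have h2 := PolyRed_app hτ i'
  refine PolyPred.imp (PolyPred.eq h1 h2) ?_
  fun_prop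

variable {R₁ R₂ : ℕ} [NeZero R₂]

theorem PolyRed_digit {m v : α → ℕ} (hm : Poly m) (hv : Poly v) (j : ℕ) :
    Poly (fun x => digit (m x) (v x) j) := by
  unfold digit
  fun_prop

theorem PolyRed_vx {G : α → Game R₁ R₂} {v : α → ℕ} (hG : Poly G) (hv : Poly v) :
    Poly (fun x => vx (G x) (v x)) := by
  unfold vx
  have h := PolyRed_digit (m := fun x => (G x).length) (v := v) (by fun_prop) hv 0
  fun_prop

theorem PolyRed_consAt {G : α → Game R₁ R₂} {v : α → ℕ} (hG : Poly G) (hv : Poly v) :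
    Poly (fun x => consAt (G x) (v x)) := by
  unfold consAt
  have hv' : Poly (fun p : α × (ℕ × ℕ × (Fin R₁ → Fin R₂)) => v p.1) := hv.comp (by fun_prop)
  fun_prop

theorem PolyRed_vcon {G : α → Game R₁ R₂} {v : α → ℕ} (hG : Poly G) (hv : Poly v) (j : ℕ) :
    Poly (fun x => vcon (G x) (v x) j) := by
  unfold vcon
  have h := PolyRed_digit (m := fun x => (G x).length) (v := v) (by fun_prop) hv (j + 1)
  have h2 := PolyRed_consAt hG (PolyRed_vx hG hv)
  fun_prop

theorem PolyRed_cross (a b ℓ : ℕ) {G : α → Game R₁ R₂} {v u k l : α → ℕ} (hG : Poly G) (hv : Poly v)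
    (hu : Poly u) (hk : Poly k) (hl : Poly l) :
    Poly (fun x => cross (G x) a b ℓ (v x) (u x) (k x) (l x)) := by
  unfold cross
  refine PolyRed_anyConst _ (fun j => PolyRed_anyConst _ (fun j' => ?_))
  have h1 := PolyRed_vcon hG hv j
  have h2 := PolyRed_vcon hG hu j'
  have h3 := PolyRed_adjn a b (π := fun x => (vcon (G x) (v x) j).2.2)
    (τ := fun x => (vcon (G x) (u x) j').2.2) (by fun_prop) (by fun_prop) hk hl
  fun_prop

theorem PolyRed_rk (a b ℓ C : ℕ) {G : α → Game R₁ R₂} {μ ω : α → ℕ} (hG : Poly G) (hμ : Poly μ)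
    (hω : Poly ω) : Poly (fun x => rk (G x) a b ℓ C (μ x) (ω x)) := by
  unfold rk
  have h1 := PolyRed_adjn a b (π := fun _ : α => (id : Fin R₁ → Fin R₁)) (τ := fun _ => id)
    (k := fun x => agW b R₁ (μ x)) (l := fun x => agW b R₁ (ω x)) (FP.Poly.const _) (FP.Poly.const _)
    (by unfold agW; fun_prop) (by unfold agW; fun_prop)
  have h2 := PolyRed_cross a b ℓ (v := fun x => agV b R₁ C (μ x)) (u := fun x => agV b R₁ C (ω x))
    (k := fun x => agW b R₁ (μ x)) (l := fun x => agW b R₁ (ω x)) hG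
    (by unfold agV; fun_prop) (by unfold agV; fun_prop)
    (by unfold agW; fun_prop) (by unfold agW; fun_prop)
  have h3 : Poly (fun x => agC b R₁ C (ω x)) := by unfold agC; fun_prop
  have h4 : Poly (fun x => agC b R₁ C (μ x)) := by unfold agC; fun_prop
  refine FP.Poly.ite (PolyPred.and (PolyPred.eq (by fun_prop) (by fun_prop)) h1.pred) (FP.Poly.const _) ?_
  refine FP.Poly.ite h2.pred (by fun_prop) (FP.Poly.const _)

end

theorem poly_nT (R₁ R₂ b ℓ C : ℕ) : Poly (fun G : Game R₁ R₂ => nT G b ℓ C) := by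
  unfold nT
  fun_prop

theorem PolyRed_bdd (R₁ R₂ b ℓ C : ℕ) : PolyBdd (fun G : Game R₁ R₂ => nT G b ℓ C) := by
  unfold nT
  exact ((PolyBdd.length FP.Poly.ident).pow (ℓ + 1)).mul (PolyBdd.const C) |>.mul (PolyBdd.const _)

theorem poly_red (R₁ R₂ a b ℓ C : ℕ) [NeZero R₂] :
    Poly (fun G : Game R₁ R₂ => red G a b ℓ C) := by
  unfold red
  have hT := poly_nT R₁ R₂ b ℓ C
  have hB := PolyRed_bdd R₁ R₂ b ℓ C
  have hr1 : Poly (fun G : Game R₁ R₂ => List.range (nT G b ℓ C)) := FP.Poly.range hT hB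
  have hr2 : Poly (fun G : Game R₁ R₂ => List.range (2 * nT G b ℓ C)) :=
    FP.Poly.range (by fun_prop) ((PolyBdd.const 2).mul hB)
  have hTp : Poly (fun p : Game R₁ R₂ × ℕ => nT p.1 b ℓ C) := hT.comp FP.Poly.fst'
  have hrp : Poly (fun p : Game R₁ R₂ × ℕ => List.range (nT p.1 b ℓ C)) := hr1.comp FP.Poly.fst'
  refine FP.Poly.pair (FP.Poly.map hr2 ?_) (FP.Poly.map hr2 ?_)
  · refine FP.Poly.ite (PolyPred.lt (FP.Poly.snd') hTp) (FP.Poly.append (FP.Poly.filterMap hrp ?_) ?_) ?_
    · refine FP.Poly.optionMap (f := fun p : (Game R₁ R₂ × ℕ) × ℕ => rk p.1.1 a b ℓ C p.1.2 p.2)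
        (g := fun p r => (p.2, r.1)) (PolyRed_rk a b ℓ C (by fun_prop) (by fun_prop) (by fun_prop)) (by fun_prop)
    · fun_prop
    · fun_prop
  · refine FP.Poly.ite (PolyPred.lt (FP.Poly.snd') hTp) (FP.Poly.append (FP.Poly.filterMap hrp ?_) ?_) ?_
    · refine FP.Poly.optionMap (f := fun p : (Game R₁ R₂ × ℕ) × ℕ => rk p.1.1 a b ℓ C p.2 p.1.2)
        (g := fun p r => (p.2, r.2)) (PolyRed_rk a b ℓ C (by fun_prop) (by fun_prop) (by fun_prop)) (by fun_prop)
    · fun_prop
    · fun_prop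

end SMT
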