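import Pool.Agent.SMT.Gap
import Pool.Agent.SMT.PolyRed
import Pool.Agent.SMT.PNP

/-!
# MODULE Lower: hardness of `d`-to-1 games and `P ≠ NP` give `ρ* ≥ 1 + θ`, `(1-θ)^d ≥ 1/2`

Suppose `r < 1 + θ`, `A` in `PTime` with `HasRatio A r` (`r ≥ 1`). Choose `ε > 0` with
`(1 + ε) r < 1 + θ - ε` and natural numbers `p1, p2 > 0` with `1 + ε < p1/p2 < (1 + θ - ε)/r`. `gap ε`,
the hypothesis `hU` with `ζ, γ`; `R > 0` since `univ ∈ NP` and `Yes` needs a labelling `ℕ → Fin R`.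
For `L ∈ NP` with `F`: `x ∈ L ↔ p1 * T (F x) ≤ p2 * |A (red (F x))|`, where `T = nT`. (`x ∈ L`:
`r |A| ≥ (1 + θ - ε) T`. `x ∉ L`: `F x ≠ []`, so `T ≥ 1`; `nw b R₁ ≥ 1`, `C ≥ 1`.) This is a `Poly`
predicate of `x`; so `L ∈ P`, `NP = P`.
-/

namespace SMT

open FP in
theorem Lower_dec0 (p1 p2 : ℕ) (g : List Bool → ℕ) (k : List Bool → List (ℕ × ℕ))
    (hg : Poly g) (hk : Poly k) :
    Poly (fun x : List Bool => decide (p1 * g x ≤ p2 * (k x).length)) := by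
  fun_prop

open FP in
theorem Lower_dec {R₁ R₂ : ℕ} [NeZero R₂] (a b ℓ C p1 p2 : ℕ) (F : List Bool → Game R₁ R₂)
    (hF : PTime F) (A : Inst → List (ℕ × ℕ)) (hA : PTime A) :
    Poly (fun x : List Bool => decide (p1 * nT (F x) b ℓ C ≤
      p2 * (A (red (F x) a b ℓ C)).length)) := by
  have h1 : Poly F := poly_of_ptime hF
  have h2 : Poly A := poly_of_ptime hA
  have h3 : Poly (fun x : List Bool => nT (F x) b ℓ C) := (poly_nT R₁ R₂ b ℓ C).comp h1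
  have h4 : Poly (fun x : List Bool => A (red (F x) a b ℓ C)) :=
    h2.comp ((poly_red R₁ R₂ a b ℓ C).comp h1)
  exact Lower_dec0 p1 p2 _ _ h3 h4

theorem lower (d : ℕ) (hd : 1 ≤ d) (θ : ℝ) (hθ0 : 0 < θ) (hθ1 : θ < 1) (hθ : 1 / 2 ≤ (1 - θ) ^ d)
    (hU : ∀ ζ γ : ℝ, 0 < ζ → 0 < γ → ∃ R : ℕ, GapHard d (d * R) R ζ γ)
    (hP : P ≠ NPC.NP) (r : ℝ) (hr : 1 ≤ r) (A : Inst → List (ℕ × ℕ))
    (hA : PTime A) (h : HasRatio A r) : 1 + θ ≤ r := by
  by_contra hcon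
  push Not at hcon
  have hr0 : 0 < r := by linarith
  set ε : ℝ := (1 + θ - r) / (2 * (r + 1)) with hεdef
  have hε : 0 < ε := div_pos (by linarith) (by positivity)
  have hε1 : ε * (r + 1) = (1 + θ - r) / 2 := by
    rw [hεdef]
    field_simp
  have hlt : (1 + ε) < (1 + θ - ε) / r := by
    rw [lt_div_iff₀ hr0]
    nlinarith
  obtain ⟨ζ, γ, a, b, ℓ, C, hζ, hγ, hb, hC, hgap⟩ := gap d hd θ hθ0 hθ1 hθ ε hε
  obtain ⟨R, hR⟩ := hU ζ γ hζ hγ
  have hRpos : 0 < R := by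
    obtain ⟨F, -, -, hY, -⟩ := hR Set.univ univ_mem_NP
    obtain ⟨f, g, -⟩ := hY [] (Set.mem_univ _)
    exact Fin.pos (g 0)
  have hnz : NeZero R := ⟨hRpos.ne'⟩
  obtain ⟨q, hq1, hq2⟩ := exists_rat_btwn hlt
  have hq0 : (0 : ℝ) < (q : ℝ) := by linarith
  have hq0' : 0 < q := by exact_mod_cast hq0
  have hden : (0 : ℝ) < (q.den : ℝ) := by exact_mod_cast q.den_pos
  have hnum : ((q.num.toNat : ℕ) : ℝ) = (q : ℝ) * q.den := by
    have h1 : ((q.num.toNat : ℕ) : ℤ) = q.num := Int.toNat_of_nonneg (Rat.num_nonneg.2 hq0'.le)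
    have h2 : ((q.num.toNat : ℕ) : ℝ) = (q.num : ℝ) := by exact_mod_cast h1
    rw [h2]
    have h3 : (q : ℝ) = (q.num : ℝ) / (q.den : ℝ) := by
      exact_mod_cast (Rat.num_div_den q).symm
    rw [h3]
    field_simp
  apply hP
  apply Set.Subset.antisymm P_sub_NP
  intro L hL
  obtain ⟨F, hF, hD, hY, hN⟩ := hR L hL
  refine mem_P_of_poly _ (Lower_dec a b ℓ C q.num.toNat q.den F hF A hA) ?_
  intro x
  rw [decide_eq_true_iff]
  have hiff : (q.num.toNat * nT (F x) b ℓ C ≤ q.den * (A (red (F x) a b ℓ C)).length) ↔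
      (q : ℝ) * (nT (F x) b ℓ C : ℝ) ≤ ((A (red (F x) a b ℓ C)).length : ℝ) := by
    rw [← Nat.cast_le (α := ℝ)]
    push_cast
    rw [hnum]
    constructor
    · intro h1
      have h2 : (q.den : ℝ) * ((q : ℝ) * (nT (F x) b ℓ C : ℝ)) ≤
          (q.den : ℝ) * ((A (red (F x) a b ℓ C)).length : ℝ) := by linarith
      exact le_of_mul_le_mul_left h2 hden
    · intro h1
      have h2 := mul_le_mul_of_nonneg_left h1 hden.le
      linarith
  rw [hiff]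
  obtain ⟨hg1, hg2⟩ := hgap (d * R) R (Nat.mul_pos (by omega) hRpos) (F x) (hD x)
  obtain ⟨hws, hopt⟩ := h (red (F x) a b ℓ C)
  constructor
  · intro hx
    obtain ⟨M, hM, hM1⟩ := hg1 (hY x hx)
    have h1 := hopt M hM
    have h2 : (1 + θ - ε) / r * (nT (F x) b ℓ C : ℝ) ≤ ((A (red (F x) a b ℓ C)).length : ℝ) := by
      rw [div_mul_eq_mul_div, div_le_iff₀ hr0]
      linarith
    have h3 : (0 : ℝ) ≤ (nT (F x) b ℓ C : ℝ) := Nat.cast_nonneg _
    nlinarith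
  · intro hx
    by_contra hxL
    have hno := hN x hxL
    have h1 := hg2 hno _ hws
    have hT : 0 < nT (F x) b ℓ C := by
      unfold nT nw
      have h5 : 0 < (F x).length := List.length_pos_of_ne_nil hno.1
      positivity
    have hT' : (0 : ℝ) < (nT (F x) b ℓ C : ℝ) := by exact_mod_cast hT
    nlinarith

end SMT
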