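import Pool.Agent.SMT.UGNo
import Pool.Agent.SMT.CoreLemma

/-!
# MODULE NoCase: independent families are small

`t = 2 * t0 + 1` with `t0` from `core_lemma a b d .. η hη`. Given `A`, `B`, let `F v`, `G v` be the
sets of words `Fin R₁ → Fin b` with numbers in `A v`, `B v` (`word b R k i = (e k i : ℕ)` for
`e = finFunctionFinEquiv.symm`, injective on `range (nw b R)`, so the cardinalities are those of
`A v`, `B v`, at least `h ≥ η b^R₁`), `L v = L0 (F v) ∪ L0 (G v)`. If for some `v, u ∈ S`, `j, j'`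
with the same right vertex the projected lists were disjoint, `core_lemma` with
`F v`, `G u`, `π = (vcon G v j).2.2`, `τ = (vcon G u j').2.2` would give
`k ∈ A v`, `l ∈ B u` with `cross G a b ℓ v u k l = true`. Apply `ug_no`.
-/

namespace SMT

open Finset

/-- `S` is a set of tuples, each with a set `A v` and a set `B v` of at least `h` words, with no
cross pair between any `A v` and any `B u`. -/
def IndepFam {R₁ R₂ : ℕ} [NeZero R₂] (G : Game R₁ R₂) (a b ℓ h : ℕ) (S : Finset ℕ) : Prop :=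
  ∃ A B : ℕ → Finset ℕ, ∀ v ∈ S, A v ⊆ range (nw b R₁) ∧ B v ⊆ range (nw b R₁) ∧
    h ≤ (A v).card ∧ h ≤ (B v).card ∧
    ∀ u ∈ S, ∀ k ∈ A v, ∀ l ∈ B u, cross G a b ℓ v u k l = false

/-- the words with numbers in `X` -/
noncomputable def NoCase_ws (b R : ℕ) (X : Finset ℕ) : Finset (Fin R → Fin b) :=
  univ.filter fun z => ((finFunctionFinEquiv z : Fin (b ^ R)) : ℕ) ∈ X

theorem NoCase_card (b R : ℕ) (X : Finset ℕ) (hX : X ⊆ range (nw b R)) :
    (NoCase_ws b R X).card = X.card := by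
  have himg : (NoCase_ws b R X).image
      (fun z => ((finFunctionFinEquiv z : Fin (b ^ R)) : ℕ)) = X := by
    ext k
    constructor
    · intro hk
      obtain ⟨z, hz, rfl⟩ := mem_image.1 hk
      exact (mem_filter.1 hz).2
    · intro hk
      have hlt : k < b ^ R := mem_range.1 (hX hk)
      refine mem_image.2 ⟨finFunctionFinEquiv.symm ⟨k, hlt⟩, ?_, ?_⟩
      · refine mem_filter.2 ⟨mem_univ _, ?_⟩
        rw [Equiv.apply_symm_apply]
        exact hk
      · simp only [Equiv.apply_symm_apply]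
  conv_rhs => rw [← himg]
  rw [card_image_of_injective]
  intro z w hzw
  exact finFunctionFinEquiv.injective (Fin.ext hzw)

theorem NoCase_word (b R : ℕ) (z : Fin R → Fin b) :
    word b R ((finFunctionFinEquiv z : Fin (b ^ R)) : ℕ) = fun i => ((z i : Fin b) : ℕ) := by
  funext i
  have h : finFunctionFinEquiv.symm (finFunctionFinEquiv z : Fin (b ^ R)) i = z i := by
    rw [Equiv.symm_apply_apply]
  rw [← h]
  rfl

theorem no_case (a b d : ℕ) (ha : 1 ≤ a) (hab : a ≤ b) (hd : 1 ≤ d)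
    (hp : (1 : ℝ) / 2 < (1 - (a : ℝ) / b) ^ d) (η : ℝ) (hη : 0 < η) :
    ∃ t : ℕ, 1 ≤ t ∧ ∀ (R₁ R₂ : ℕ) [NeZero R₂] (G : Game R₁ R₂) (γ : ℝ), G.DTo1 d → G.No γ →
      ∀ (ℓ h : ℕ) (S : Finset ℕ),
      (∀ v ∈ S, v < G.length ^ (ℓ + 1)) → η * nw b R₁ ≤ h → IndepFam G a b ℓ h S →
      (ℓ : ℝ) * S.card ≤
        t * (t * S.card + ℓ * (2 * (ℓ : ℝ) ^ 2 * (d * γ) * (G.length : ℝ) ^ (ℓ + 1))) := by
  classical
  obtain ⟨t0, hcore⟩ := core_lemma a b d ha hab hd hp η hη
  refine ⟨2 * t0 + 1, by omega, ?_⟩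
  intro R₁ R₂ _ G γ hG hno ℓ h S hS hh hfam
  obtain ⟨L0, hL0, hcross⟩ := hcore R₁
  obtain ⟨A, B, hAB⟩ := hfam
  have hne : G ≠ [] := hno.1
  have hbig : ∀ X : Finset ℕ, X ⊆ range (nw b R₁) → h ≤ X.card →
      η * (b : ℝ) ^ R₁ ≤ (NoCase_ws b R₁ X).card := by
    intro X hX hc
    rw [NoCase_card b R₁ X hX]
    have h1 : ((nw b R₁ : ℕ) : ℝ) = (b : ℝ) ^ R₁ := by
      unfold nw; push_cast; ring
    rw [h1] at hh
    exact hh.trans (by exact_mod_cast hc)
  refine ug_no (t := 2 * t0 + 1) hG hno ℓ S hS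
    (fun v => L0 (NoCase_ws b R₁ (A v)) ∪ L0 (NoCase_ws b R₁ (B v))) ?_ ?_
  · intro v _
    refine (card_union_le _ _).trans ?_
    have h1 := hL0 (NoCase_ws b R₁ (A v))
    have h2 := hL0 (NoCase_ws b R₁ (B v))
    omega
  · intro v hv u hu j hj j' hj' hright
    by_contra hcon
    push Not at hcon
    obtain ⟨hAv, hBv, hcA, hcB, hindep⟩ := hAB v hv
    obtain ⟨hAu, hBu, hcAu, hcBu, -⟩ := hAB u hu
    obtain ⟨z, hz, w, hw, hadj⟩ := hcross (NoCase_ws b R₁ (A v)) (NoCase_ws b R₁ (B u))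
      (hbig _ hAv hcA) (hbig _ hBu hcBu) R₂ (vcon G v j).2.2 (vcon G u j').2.2
      (fun y => (hG _ (vcon_mem' hne v j) y).le) (fun y => (hG _ (vcon_mem' hne u j') y).le)
      (fun i hi i' hi' => hcon i (mem_union_left _ hi) i' (mem_union_right _ hi'))
    have hzA := (mem_filter.1 hz).2
    have hwB := (mem_filter.1 hw).2
    have hfalse := hindep u hu _ hzA _ hwB
    have htrue : cross G a b ℓ v u ((finFunctionFinEquiv z : Fin (b ^ R₁)) : ℕ)
        ((finFunctionFinEquiv w : Fin (b ^ R₁)) : ℕ) = true := by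
      unfold cross
      rw [List.any_eq_true]
      refine ⟨j, List.mem_range.2 hj, ?_⟩
      rw [List.any_eq_true]
      refine ⟨j', List.mem_range.2 hj', ?_⟩
      rw [Bool.and_eq_true]
      refine ⟨decide_eq_true hright, ?_⟩
      unfold adjn
      rw [NoCase_word, NoCase_word]
      exact decide_eq_true hadj
    rw [hfalse] at htrue
    exact Bool.false_ne_true htrue

end SMT
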