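import Pool.Agent.SMT.Red

/-!
# MODULE RedSem: the ranks in the instance `red G a b ℓ C`

`rankIn` of a `filterMap` over `range`; each index occurs at most once. `T = nT G b ℓ C`.
-/

namespace SMT

variable {R₁ R₂ : ℕ} [NeZero R₂]

theorem RedSem_find_fm (T : ℕ) (o : ℕ → Option ℕ) (ω : ℕ) :
    (((List.range T).filterMap fun x => (o x).map fun r => (x, r)).find?
      (fun p => decide (p.1 = ω))) = if ω < T then (o ω).map (fun r => (ω, r)) else none := by
  induction T with
  | zero => simp
  | succ T ih =>
    rw [List.range_succ, List.filterMap_append, List.find?_append, ih]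
    by_cases h1 : ω < T
    · rw [if_pos h1, if_pos (by omega)]
      have hTω : T ≠ ω := by omega
      have : (List.filterMap (fun x => Option.map (fun r => (x, r)) (o x)) [T]).find?
          (fun p => decide (p.1 = ω)) = none := by
        rw [List.find?_eq_none]
        intro p hp
        rw [List.mem_filterMap] at hp
        obtain ⟨x, hx, hxp⟩ := hp
        rw [List.mem_singleton] at hx
        subst hx
        cases hox : o x with
        | none => rw [hox] at hxp; simp at hxp
        | some r =>
          rw [hox] at hxp
          simp only [Option.map_some, Option.some.injEq] at hxp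
          rw [← hxp]
          simpa using hTω
      rw [this]
      cases o ω <;> rfl
    · rw [if_neg h1]
      by_cases h2 : ω = T
      · subst h2
        rw [if_pos (by omega)]
        cases ho : o ω with
        | none => simp [ho]
        | some r => simp [ho]
      · rw [if_neg (by omega)]
        have hTω : T ≠ ω := fun h => h2 h.symm
        cases ho : o T with
        | none => simp [ho]
        | some r => simp [ho, hTω]

theorem RedSem_rankIn (T : ℕ) (o : ℕ → Option ℕ) (q : ℕ × ℕ) (hq : T ≤ q.1) (ω : ℕ) :
    rankIn (((List.range T).filterMap fun x => (o x).map fun r => (x, r)) ++ [q]) ω =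
      if ω < T then o ω else if ω = q.1 then some q.2 else none := by
  unfold rankIn
  rw [List.find?_append, RedSem_find_fm]
  by_cases h1 : ω < T
  · rw [if_pos h1, if_pos h1]
    have hq' : ¬ (q.1 = ω) := by omega
    cases ho : o ω with
    | none => simp [hq']
    | some r => simp
  · rw [if_neg h1, if_neg h1]
    by_cases h2 : ω = q.1
    · rw [if_pos h2]; simp [h2]
    · rw [if_neg h2]
      have : ¬ (q.1 = ω) := fun h => h2 h.symm
      simp [this]

theorem RedSem_getD (n : ℕ) (F : ℕ → List (ℕ × ℕ)) (μ : ℕ) :
    (((List.range n).map F).getD μ []) = if μ < n then F μ else [] := by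
  by_cases h : μ < n
  · rw [if_pos h, List.getD_eq_getElem _ _ (by simpa using h)]
    simp
  · rw [if_neg h, List.getD_eq_default]
    simpa using h

theorem rankM_red (G : Game R₁ R₂) (a b ℓ C μ ω : ℕ) :
    rankM (red G a b ℓ C) μ ω =
      if μ < nT G b ℓ C then
        (if ω < nT G b ℓ C then (rk G a b ℓ C μ ω).map Prod.fst
         else if ω = nT G b ℓ C + μ then some (C + 1) else none)
      else if μ < 2 * nT G b ℓ C ∧ ω = μ - nT G b ℓ C then some 0 else none := by
  unfold rankM red
  simp only []
  rw [RedSem_getD]
  set T := nT G b ℓ C with hT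
  by_cases h1 : μ < T
  · rw [if_pos (by omega), if_pos h1, if_pos h1]
    have e : (fun ω => (rk G a b ℓ C μ ω).map fun r => (ω, r.1))
        = (fun x => ((rk G a b ℓ C μ x).map Prod.fst).map fun r => (x, r)) := by
      funext x
      cases rk G a b ℓ C μ x <;> rfl
    rw [e, RedSem_rankIn T _ _ (by simp)]
  · rw [if_neg h1]
    by_cases h2 : μ < 2 * T
    · rw [if_pos h2, if_neg h1]
      unfold rankIn
      by_cases h3 : ω = μ - T
      · rw [if_pos ⟨h2, h3⟩]
        simp [h3]
      · rw [if_neg (fun h => h3 h.2)]
        have : ¬ (μ - T = ω) := fun h => h3 h.symm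
        simp [this]
    · rw [if_neg h2, if_neg h1, if_neg (fun h => h2 h.1)]
      rfl

theorem rankW_red (G : Game R₁ R₂) (a b ℓ C μ ω : ℕ) :
    rankW (red G a b ℓ C) ω μ =
      if ω < nT G b ℓ C then
        (if μ < nT G b ℓ C then (rk G a b ℓ C μ ω).map Prod.snd
         else if μ = nT G b ℓ C + ω then some (C + 1) else none)
      else if ω < 2 * nT G b ℓ C ∧ μ = ω - nT G b ℓ C then some 0 else none := by
  unfold rankW red
  simp only []
  rw [RedSem_getD]
  set T := nT G b ℓ C with hT
  by_cases h1 : ω < T
  · rw [if_pos (by omega), if_pos h1, if_pos h1]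
    have e : (fun μ => (rk G a b ℓ C μ ω).map fun r => (μ, r.2))
        = (fun x => ((rk G a b ℓ C x ω).map Prod.snd).map fun r => (x, r)) := by
      funext x
      cases rk G a b ℓ C x ω <;> rfl
    rw [e, RedSem_rankIn T _ _ (by simp)]
  · rw [if_neg h1]
    by_cases h2 : ω < 2 * T
    · rw [if_pos h2, if_neg h1]
      unfold rankIn
      by_cases h3 : μ = ω - T
      · rw [if_pos ⟨h2, h3⟩]
        simp [h3]
      · rw [if_neg (fun h => h3 h.2)]
        have : ¬ (ω - T = μ) := fun h => h3 h.symm
        simp [this]
    · rw [if_neg h2, if_neg h1, if_neg (fun h => h2 h.1)]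
      rfl

/-- the acceptable pairs: main pairs with `rk`, and the private pairs -/
theorem acceptable_red (G : Game R₁ R₂) (a b ℓ C μ ω : ℕ) :
    Acceptable (red G a b ℓ C) μ ω ↔
      (μ < nT G b ℓ C ∧ ω < nT G b ℓ C ∧ (rk G a b ℓ C μ ω).isSome = true) ∨
      (μ < nT G b ℓ C ∧ ω = nT G b ℓ C + μ) ∨ (ω < nT G b ℓ C ∧ μ = nT G b ℓ C + ω) := by
  unfold Acceptable
  rw [rankM_red, rankW_red]
  set T := nT G b ℓ C with hT
  by_cases h1 : μ < T
  · by_cases h2 : ω < T
    · simp only [h1, h2, if_true, Option.isSome_map, true_and, and_self]
      constructor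
      · intro h; exact Or.inl h
      · rintro (h | h | h)
        · exact h
        · omega
        · omega
    · simp only [h1, h2, if_true, if_false, true_and, false_and, false_or, or_false]
      constructor
      · rintro ⟨ha, _⟩
        by_contra hne
        rw [if_neg hne] at ha
        simp at ha
      · intro h
        rw [if_pos h, if_pos (by omega)]
        simp
  · by_cases h2 : ω < T
    · simp only [h1, h2, if_true, if_false, true_and, false_and, false_or]
      constructor
      · rintro ⟨_, ha⟩
        by_contra hne
        rw [if_neg hne] at ha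
        simp at ha
      · intro h
        rw [if_pos h, if_pos (by omega)]
        simp
    · simp only [h1, h2, if_false, false_and, or_false, iff_false]
      rintro ⟨ha, hb⟩
      by_cases h3 : μ < 2 * T ∧ ω = μ - T
      · omega
      · rw [if_neg h3] at ha
        simp at ha

end SMT
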