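import Pool.Agent.SMT.StableData
import Pool.Agent.SMT.Flow
import Pool.Agent.SMT.NoCase

/-!
# MODULE Sound: from `flow` to a bound on the size of a weakly stable matching

`C = m^(n+1)`, `N = nw b R₁`, `nV = |G|^(ℓ+1)`, `T = nV * C * N`. Take `Am = Aw = Fin T`,
`V = Fin nV`, node of `μ` = `(agV μ, agC μ)` (fibres of size `N`; `μ / N = κ` iff the node is
`(κ / C, κ % C)`), `rm`, `rw`, `Pr` from `stable_data`, and `Bad` = the `v` such that for some levels
`c, s` at least `h` men of `(v,c)` have rank `> s+1` and at least `h` women of `(v,s)` have rank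
`> c+1`. For fixed `c, s` these `v` form a set `S` with `IndepFam G a b ℓ h S`:
`A v = {k < N : s+1 < rm ((v*C+c)*N+k)}`, `B v = {l < N : c+1 < rw ((v*C+s)*N+l)}`; if
`cross G a b ℓ v u k l` for `k ∈ A v`, `l ∈ B u`, then `rk` of the pair is `some (0,0)` or
`some (s+1, c+1)`, against the last clause of `stable_data`. So `|Bad| ≤ C*C*β`.
-/

namespace SMT

open Finset

variable {R₁ R₂ : ℕ} [NeZero R₂]

private lemma Sound_card (T : ℕ) (P : ℕ → Prop) [DecidablePred P] :
    (filter (fun x : Fin T => P (x : ℕ)) univ).card = ((range T).filter P).card := by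
  rw [← Finset.card_map Fin.valEmbedding]
  congr 1
  ext x
  simp only [mem_map, mem_filter, mem_univ, true_and, Fin.valEmbedding_apply, mem_range]
  constructor
  · rintro ⟨y, hy, rfl⟩
    exact ⟨y.2, hy⟩
  · rintro ⟨hx, hP⟩
    exact ⟨⟨x, hx⟩, hP, rfl⟩

private lemma Sound_lt {nV C N v c k : ℕ} (hv : v < nV) (hc : c < C) (hk : k < N) :
    (v * C + c) * N + k < nV * C * N := by
  have h1 : v * C + c + 1 ≤ nV * C := by
    calc v * C + c + 1 ≤ v * C + C := by omega
      _ = (v + 1) * C := by ring
      _ ≤ nV * C := Nat.mul_le_mul_right _ hv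
  calc (v * C + c) * N + k < (v * C + c) * N + N := by omega
    _ = (v * C + c + 1) * N := by ring
    _ ≤ nV * C * N := Nat.mul_le_mul_right _ h1

private lemma Sound_div {N q k : ℕ} (hk : k < N) : (q * N + k) / N = q := by
  rw [add_comm, Nat.add_mul_div_right _ _ (by omega), Nat.div_eq_of_lt hk, zero_add]

private lemma Sound_mod {N q k : ℕ} (hk : k < N) : (q * N + k) % N = k := by
  rw [add_comm, Nat.add_mul_mod_self_right, Nat.mod_eq_of_lt hk]

/-- the members of a node, in terms of the words -/
private lemma Sound_node (nV C N v c : ℕ) (hv : v < nV) (hc : c < C) (Q : ℕ → Prop)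
    [DecidablePred Q] :
    ((range (nV * C * N)).filter fun x => x / N = v * C + c ∧ Q x).card =
      ((range N).filter fun k => Q ((v * C + c) * N + k)).card := by
  symm
  apply Finset.card_bij (fun k _ => (v * C + c) * N + k)
  · intro k hk
    simp only [mem_filter, mem_range] at hk ⊢
    exact ⟨Sound_lt hv hc hk.1, Sound_div hk.1, hk.2⟩
  · intro k _ k' _ h
    simpa using h
  · intro x hx
    simp only [mem_filter, mem_range] at hx
    obtain ⟨hxT, hxN, hQ⟩ := hx
    have hN : 0 < N := by
      rcases Nat.eq_zero_or_pos N with h | h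
      · rw [h] at hxT; simp at hxT
      · exact h
    have e : (v * C + c) * N + x % N = x := by
      rw [← hxN, mul_comm]
      exact Nat.div_add_mod x N
    refine ⟨x % N, ?_, e⟩
    simp only [mem_filter, mem_range]
    exact ⟨Nat.mod_lt _ hN, by rw [e]; exact hQ⟩

private lemma Sound_nodeEq {C q v c : ℕ} (hc : c < C) : (q / C = v ∧ q % C = c) ↔ q = v * C + c := by
  constructor
  · rintro ⟨rfl, rfl⟩
    rw [mul_comm]
    exact (Nat.div_add_mod q C).symm
  · rintro rfl
    exact ⟨Sound_div hc, Sound_mod hc⟩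

theorem sound (G : Game R₁ R₂) (hG : G ≠ []) (a b ℓ m n h β : ℕ) (hb : 1 ≤ b) (hm : 1 ≤ m)
    (hn : 1 ≤ n) (hh : 1 ≤ h)
    (hβ : ∀ S : Finset ℕ, (∀ v ∈ S, v < G.length ^ (ℓ + 1)) → IndepFam G a b ℓ h S → S.card ≤ β)
    (M : List (ℕ × ℕ)) (hM : WeaklyStable (red G a b ℓ (m ^ (n + 1))) M) :
    n * M.length ≤ n * nT G b ℓ (m ^ (n + 1)) +
      (nw b R₁ * m ^ (n + 1) * G.length ^ (ℓ + 1) +
        n * (2 * nw b R₁ * m ^ (n + 1) * (m ^ (n + 1) * m ^ (n + 1) * β) +
          5 * h * m ^ (n + 1) * G.length ^ (ℓ + 1) +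
          2 * nw b R₁ * G.length ^ (ℓ + 1) * m ^ n)) := by
  classical
  have hC : 1 ≤ m ^ (n + 1) := Nat.one_le_pow _ _ hm
  obtain ⟨rm, rw', Pr, h1, h2, hlen, h0, hPr, hPrm, hPrw, hstab⟩ :=
    stable_data G a b ℓ (m ^ (n + 1)) hC M hM
  have hTdef : nT G b ℓ (m ^ (n + 1)) = G.length ^ (ℓ + 1) * m ^ (n + 1) * nw b R₁ := rfl
  have hNpos : 0 < nw b R₁ := Nat.pow_pos hb
  set N := nw b R₁ with hNd
  set C := m ^ (n + 1) with hCd
  set nV := G.length ^ (ℓ + 1) with hnVd
  set T := nT G b ℓ C with hTd
  have hdiv : ∀ x : Fin T, (x : ℕ) / N / C < nV := by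
    intro x
    rw [Nat.div_div_eq_div_mul]
    apply Nat.div_lt_of_lt_mul
    have := x.2
    calc (x : ℕ) < T := x.2
      _ = N * C * nV := by rw [hTdef]; ring
  have hmod : ∀ x : Fin T, (x : ℕ) / N % C < C := fun x => Nat.mod_lt _ hC
  set nm : Fin T → Fin nV × Fin C := fun x => (⟨(x : ℕ) / N / C, hdiv x⟩, ⟨(x : ℕ) / N % C, hmod x⟩)
    with hnm
  have hnode : ∀ (x : Fin T) (κ : Fin nV × Fin C), nm x = κ ↔ (x : ℕ) / N = κ.1 * C + κ.2 := by
    intro x κ
    rw [← Sound_nodeEq κ.2.2]
    constructor
    · rintro rfl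
      exact ⟨rfl, rfl⟩
    · rintro ⟨e1, e2⟩
      apply Prod.ext
      · exact Fin.ext e1
      · exact Fin.ext e2
  have hcount : ∀ (κ : Fin nV × Fin C) (Q : ℕ → Prop) [DecidablePred Q],
      (filter (fun x : Fin T => nm x = κ ∧ Q (x : ℕ)) univ).card =
        ((range N).filter fun k => Q ((κ.1 * C + κ.2) * N + k)).card := by
    intro κ Q _
    rw [← Sound_node nV C N κ.1 κ.2 κ.1.2 κ.2.2 Q, ← hTdef,
      ← Sound_card T (fun x => x / N = (κ.1 : ℕ) * C + κ.2 ∧ Q x)]
    congr 1
    apply Finset.filter_congr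
    intro x _
    rw [hnode]
  have hNm : ∀ κ, (filter (fun x : Fin T => nm x = κ) univ).card = N := by
    intro κ
    have := hcount κ (fun _ => True)
    simpa using this
  set Pr' : Finset (Fin T × Fin T) := univ.filter fun p => ((p.1 : ℕ), (p.2 : ℕ)) ∈ Pr with hPr'
  have hPmap : ∀ Q : ℕ × ℕ → Prop, ∀ [DecidablePred Q],
      (Pr'.filter fun p => Q ((p.1 : ℕ), (p.2 : ℕ))).card = (Pr.filter Q).card := by
    intro Q _
    apply Finset.card_bij (fun p _ => ((p.1 : ℕ), (p.2 : ℕ)))
    · intro p hp
      simp only [hPr', mem_filter, mem_univ, true_and] at hp ⊢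
      exact hp
    · intro p _ q _ hpq
      simp only [Prod.mk.injEq] at hpq
      exact Prod.ext (Fin.ext hpq.1) (Fin.ext hpq.2)
    · intro q hq
      rw [mem_filter] at hq
      obtain ⟨g1, g2, -, -⟩ := hPr q hq.1
      refine ⟨(⟨q.1, g1⟩, ⟨q.2, g2⟩), ?_, rfl⟩
      simp only [hPr', mem_filter, mem_univ, true_and]
      exact hq
  -- the bad tuples
  set S : ℕ → ℕ → Finset ℕ := fun c s => (range nV).filter fun v =>
    h ≤ ((range N).filter fun k => s + 1 < rm ((v * C + c) * N + k)).card ∧
    h ≤ ((range N).filter fun l => c + 1 < rw' ((v * C + s) * N + l)).card with hS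
  have hSβ : ∀ c < C, ∀ s < C, (S c s).card ≤ β := by
    intro c hc s hs
    apply hβ
    · intro v hv
      simp only [hS, mem_filter, mem_range] at hv
      exact hv.1
    · refine ⟨fun v => (range N).filter fun k => s + 1 < rm ((v * C + c) * N + k),
        fun v => (range N).filter fun l => c + 1 < rw' ((v * C + s) * N + l), ?_⟩
      intro v hv
      simp only [hS, mem_filter, mem_range] at hv
      refine ⟨filter_subset _ _, filter_subset _ _, hv.2.1, hv.2.2, ?_⟩
      intro u hu k hk l hl
      simp only [hS, mem_filter, mem_range] at hu hk hl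
      by_contra hcon
      rw [Bool.not_eq_false] at hcon
      have e1 : agW b R₁ ((v * C + c) * N + k) = k := Sound_mod hk.1
      have e2 : agW b R₁ ((u * C + s) * N + l) = l := Sound_mod hl.1
      have e3 : agC b R₁ C ((v * C + c) * N + k) = c := by
        have e : ((v * C + c) * N + k) / nw b R₁ = v * C + c := Sound_div hk.1
        simp only [agC]
        rw [e, Sound_mod hc]
      have e4 : agC b R₁ C ((u * C + s) * N + l) = s := by
        have e : ((u * C + s) * N + l) / nw b R₁ = u * C + s := Sound_div hl.1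
        simp only [agC]
        rw [e, Sound_mod hs]
      have e5 : agV b R₁ C ((v * C + c) * N + k) = v := by
        have e : ((v * C + c) * N + k) / nw b R₁ = v * C + c := Sound_div hk.1
        simp only [agV]
        rw [e, Sound_div hc]
      have e6 : agV b R₁ C ((u * C + s) * N + l) = u := by
        have e : ((u * C + s) * N + l) / nw b R₁ = u * C + s := Sound_div hl.1
        simp only [agV]
        rw [e, Sound_div hs]
      have l1 : (v * C + c) * N + k < T := by rw [hTdef]; exact Sound_lt hv.1 hc hk.1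
      have l2 : (u * C + s) * N + l < T := by rw [hTdef]; exact Sound_lt hu.1 hs hl.1
      by_cases hfirst : ((v * C + c) * N + k) / nw b R₁ = ((u * C + s) * N + l) / nw b R₁ ∧
          adjn a b (id : Fin R₁ → Fin R₁) id (agW b R₁ ((v * C + c) * N + k))
            (agW b R₁ ((u * C + s) * N + l)) = true
      · have hrk : rk G a b ℓ C ((v * C + c) * N + k) ((u * C + s) * N + l) = some (0, 0) := by
          unfold rk
          rw [if_pos hfirst]
        rcases hstab _ l1 _ l2 0 0 hrk with g | g <;> omega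
      · have hrk : rk G a b ℓ C ((v * C + c) * N + k) ((u * C + s) * N + l) =
            some (s + 1, c + 1) := by
          unfold rk
          rw [if_neg hfirst, e5, e6, e1, e2, if_pos hcon, e3, e4]
        rcases hstab _ l1 _ l2 _ _ hrk with g | g <;> omega
  set Bad : Finset (Fin nV) := univ.filter fun v => ∃ c < C, ∃ s < C, (v : ℕ) ∈ S c s with hBad
  have hBadc : Bad.card ≤ C * C * β := by
    have hsub : Bad.map Fin.valEmbedding ⊆
        ((range C) ×ˢ (range C)).biUnion fun q => S q.1 q.2 := by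
      intro v hv
      simp only [hBad, mem_map, mem_filter, mem_univ, true_and, Fin.valEmbedding_apply] at hv
      obtain ⟨w, ⟨c, hc, s, hs, hw⟩, rfl⟩ := hv
      simp only [mem_biUnion, mem_product, mem_range]
      exact ⟨(c, s), ⟨hc, hs⟩, hw⟩
    calc Bad.card = (Bad.map Fin.valEmbedding).card := (card_map _).symm
      _ ≤ (((range C) ×ˢ (range C)).biUnion fun q => S q.1 q.2).card := card_le_card hsub
      _ ≤ ∑ q ∈ (range C) ×ˢ (range C), (S q.1 q.2).card := card_biUnion_le
      _ ≤ ∑ q ∈ (range C) ×ˢ (range C), β := by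
          apply Finset.sum_le_sum
          intro q hq
          simp only [mem_product, mem_range] at hq
          exact hSβ _ hq.1 _ hq.2
      _ = C * C * β := by simp [card_product]
  have key := flow (V := Fin nV) (Am := Fin T) (Aw := Fin T) m n h N hm hn hh nm nm hNm hNm
    (fun x => rm x) (fun y => rw' y) (fun x => h1 x x.2) (fun y => h2 y y.2)
    (by
      intro κ
      have g1 := hcount κ (fun x => rm x = 0)
      have g2 := hcount κ (fun x => rw' x = 0)
      have g3 := h0 (κ.1 * C + κ.2)
      have g4 : ((range T).filter fun x => x / N = κ.1 * C + κ.2 ∧ rm x = 0).card = _ :=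
        Sound_node nV C N κ.1 κ.2 κ.1.2 κ.2.2 (fun x => rm x = 0)
      have g5 : ((range T).filter fun x => x / N = κ.1 * C + κ.2 ∧ rw' x = 0).card = _ :=
        Sound_node nV C N κ.1 κ.2 κ.1.2 κ.2.2 (fun x => rw' x = 0)
      rw [g1, g2, ← g4, ← g5]
      exact g3)
    Pr'
    (by
      intro p hp
      simp only [hPr', mem_filter, mem_univ, true_and] at hp
      obtain ⟨-, -, g3, g4⟩ := hPr _ hp
      exact ⟨g3, g4⟩)
    (by
      intro x
      have g := hPmap (fun p => p.1 = (x : ℕ))
      rw [hPrm x x.2] at g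
      rw [← g]
      congr 1
      ext p
      simp only [mem_filter, Fin.ext_iff])
    (by
      intro x
      have g := hPmap (fun p => p.2 = (x : ℕ))
      rw [hPrw x x.2] at g
      rw [← g]
      congr 1
      ext p
      simp only [mem_filter, Fin.ext_iff])
    Bad
    (by
      intro v hv c s
      by_contra hcon
      push Not at hcon
      apply hv
      simp only [hBad, mem_filter, mem_univ, true_and]
      refine ⟨c, c.2, s, s.2, ?_⟩
      simp only [hS, mem_filter, mem_range]
      refine ⟨v.2, ?_, ?_⟩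
      · rw [← hcount (v, c) (fun x => (s : ℕ) + 1 < rm x)]
        exact hcon.1
      · rw [← hcount (v, s) (fun x => (c : ℕ) + 1 < rw' x)]
        exact hcon.2)
  have key2 : (filter (fun x : Fin T => rm (x : ℕ) = C + 1) univ).card =
      ((range T).filter fun μ => rm μ = C + 1).card := Sound_card T (fun x => rm x = C + 1)
  rw [Fintype.card_fin] at key
  have key3 : n * ((range T).filter fun μ => rm μ = C + 1).card ≤
      N * C * nV + n * (2 * N * C * Bad.card + 5 * h * C * nV + 2 * N * nV * m ^ n) := by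
    rw [← key2]; exact key
  rw [hlen, mul_add]
  have key4 : 2 * N * C * Bad.card ≤ 2 * N * C * (C * C * β) := Nat.mul_le_mul_left _ hBadc
  have key5 : n * (2 * N * C * Bad.card + 5 * h * C * nV + 2 * N * nV * m ^ n) ≤
      n * (2 * N * C * (C * C * β) + 5 * h * C * nV + 2 * N * nV * m ^ n) := by
    apply Nat.mul_le_mul_left
    omega
  omega

end SMT
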