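import Mathlib

/-!
# MODULE Sparse: sets of levels with gaps

Cut `range C`, `C = A * D`, into `D` blocks `[k*A, (k+1)*A)`. In each block the elements of `Z` are
within distance `< B` of the smallest one, so there are at most `B` of them.
-/

namespace SMT

open Finset

theorem sparse_card (A B D : ℕ) (hA : 1 ≤ A) (hB : 1 ≤ B) (Z : Finset ℕ) (hZ : ∀ c ∈ Z, c < A * D)
    (h : ∀ c ∈ Z, ∀ c' ∈ Z, c < c' → c' < c + A → c' < c + B) : Z.card ≤ B * D := by
  have hmap : ∀ c ∈ Z, c / A ∈ range D := by
    intro c hc
    rw [Finset.mem_range]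
    exact Nat.div_lt_of_lt_mul (hZ c hc)
  have h1 := Finset.card_le_mul_card_image_of_maps_to (s := Z) (t := range D) (f := fun c => c / A) hmap B ?_
  · rw [Finset.card_range] at h1
    exact h1
  · intro k _
    rcases Finset.eq_empty_or_nonempty (Z.filter (fun c => c / A = k)) with he | hne
    · rw [he]; simp
    · set Y := Z.filter (fun c => c / A = k) with hY
      set c0 := Y.min' hne with hc0
      have hc0Y : c0 ∈ Y := Finset.min'_mem _ _
      have hsub : Y ⊆ Finset.Ico c0 (c0 + B) := by
        intro c hc
        rw [Finset.mem_Ico]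
        have hle : c0 ≤ c := Finset.min'_le _ _ hc
        refine ⟨hle, ?_⟩
        rcases Nat.eq_or_lt_of_le hle with heq | hlt
        · omega
        · obtain ⟨hcZ, hck⟩ := Finset.mem_filter.mp hc
          obtain ⟨hc0Z, hc0k⟩ := Finset.mem_filter.mp hc0Y
          apply h c0 hc0Z c hcZ hlt
          have e1 := Nat.div_add_mod c A
          have e2 := Nat.div_add_mod c0 A
          have e3 := Nat.mod_lt c (show A > 0 by omega)
          have e4 : c / A = c0 / A := by rw [hck, hc0k]
          rw [e4] at e1
          omega
      have := Finset.card_le_card hsub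
      rwa [Nat.card_Ico, Nat.add_sub_cancel_left] at this

end SMT
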