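import Pool.Agent.SMT.UGTool

/-!
# MODULE UGAgree: few tuples have two constraints agreeing on a label

For `g : ℕ → Fin R₂` (labels of the right vertices), a label `b : Fin R₁` of the left vertex *agrees*
with the constraint `c` if `c.2.2 b = g c.2.1`. For `j ≠ j'`, by `count_two` for each `b` with
`B1 = B2 = (c ↦ decide (c.2.2 b = g c.2.1))` and the sum over `b`:
`#{v : ∃ b, b agrees with both} ≤ 4 m^ℓ ∑_x ∑_b c_{x,b}² / d_x` with `c_{x,b} = cnt G x B`,
`∑_b c_{x,b} = d * d_x` (each constraint agrees with exactly `d` labels `b`). With `f x` a label `b`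
maximising `c_{x,b}`: `∑_b c_{x,b}² / d_x ≤ d c_{x, f x}` and `∑_x c_{x, f x} = sat f g ≤ γ m`.
Total over the ordered pairs `j ≠ j'`, halved (or over `j < j'`): `≤ (ℓ²/2) 4 m^ℓ d γ m`.
(If `R₁ = 0` then no `v` is `TwoAgree`; `γ ≥ 0` is then not available, but `G.DTo1 d`, `G ≠ []` and
`R₂ > 0` force `d = 0`, so both sides are `0`.)
-/

namespace SMT

open Finset

variable {R₁ R₂ : ℕ} [NeZero R₂]

/-- two different constraints of the tuple `v` agree with the same label -/
def TwoAgree (G : Game R₁ R₂) (ℓ : ℕ) (g : ℕ → Fin R₂) (v : ℕ) : Prop :=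
  ∃ j < ℓ, ∃ j' < ℓ, j ≠ j' ∧ ∃ b : Fin R₁,
    (vcon G v j).2.2 b = g (vcon G v j).2.1 ∧ (vcon G v j').2.2 b = g (vcon G v j').2.1

/-- summing the number of elements with property `p b` over the labels `b` -/
theorem UGAgree_sum_len {α : Type} (L : List α) (p : Fin R₁ → α → Bool) (d : ℕ)
    (h : ∀ c ∈ L, (univ.filter fun b => p b c = true).card = d) :
    ∑ b, (L.filter (p b)).length = d * L.length := by
  induction L with
  | nil => simp
  | cons c L ih =>
    have h1 := ih (fun c' hc' => h c' (List.mem_cons_of_mem _ hc'))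
    have h2 := h c List.mem_cons_self
    have h3 : ∀ b, ((c :: L).filter (p b)).length =
        (if p b c = true then 1 else 0) + (L.filter (p b)).length := by
      intro b
      by_cases hb : p b c = true
      · rw [List.filter_cons_of_pos hb]
        simp [hb, Nat.add_comm]
      · rw [List.filter_cons_of_neg hb]
        simp [hb]
    rw [Finset.sum_congr rfl (fun b _ => h3 b), Finset.sum_add_distrib, h1, ← Finset.card_filter, h2,
      List.length_cons]
    ring

/-- summing over the left vertices -/
theorem UGAgree_sum_vert {α : Type} (L : List (ℕ × α)) (B : ℕ → ℕ × α → Bool) (s : Finset ℕ) :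
    ∑ x ∈ s, ((L.filter (fun c => decide (c.1 = x))).filter (B x)).length ≤
      (L.filter (fun c => B c.1 c)).length := by
  induction L with
  | nil => simp
  | cons c L ih =>
    have h3 : ∀ x, (((c :: L).filter (fun c => decide (c.1 = x))).filter (B x)).length =
        (if c.1 = x ∧ B x c = true then 1 else 0) +
          ((L.filter (fun c => decide (c.1 = x))).filter (B x)).length := by
      intro x
      by_cases h1 : c.1 = x
      · rw [List.filter_cons_of_pos (by simpa using h1)]
        by_cases h2 : B x c = true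
        · rw [List.filter_cons_of_pos h2]
          simp [h1, h2, Nat.add_comm]
        · rw [List.filter_cons_of_neg h2]
          simp [h2]
      · rw [List.filter_cons_of_neg (by simpa using h1)]
        simp [h1]
    have h4 : ((c :: L).filter (fun c => B c.1 c)).length =
        (if B c.1 c = true then 1 else 0) + (L.filter (fun c => B c.1 c)).length := by
      by_cases hb : B c.1 c = true
      · rw [List.filter_cons_of_pos (p := fun c => B c.1 c) hb]
        simp [hb, Nat.add_comm]
      · rw [List.filter_cons_of_neg (p := fun c => B c.1 c) hb]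
        simp [hb]
    rw [Finset.sum_congr rfl (fun x _ => h3 x), Finset.sum_add_distrib, h4]
    refine Nat.add_le_add ?_ ih
    calc ∑ x ∈ s, (if c.1 = x ∧ B x c = true then 1 else 0)
        ≤ ∑ x ∈ s, (if c.1 = x then (if B c.1 c = true then 1 else 0) else 0) := by
          apply Finset.sum_le_sum
          intro x _
          by_cases h1 : c.1 = x
          · subst h1
            simp
          · simp [h1]
      _ ≤ (if B c.1 c = true then 1 else 0) := by
          rw [Finset.sum_ite_eq]
          split_ifs <;> simp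

open Classical in
theorem UGAgree_pair {G : Game R₁ R₂} {d : ℕ} {γ : ℝ} (hG : G.DTo1 d) (hno : G.No γ) (ℓ : ℕ)
    (g : ℕ → Fin R₂) (hR : 0 < R₁) (j j' : ℕ) (hj : j < ℓ) (hj' : j' < ℓ) (hjj : j ≠ j') :
    (((range (G.length ^ (ℓ + 1))).filter fun v => ∃ b : Fin R₁,
      (vcon G v j).2.2 b = g (vcon G v j).2.1 ∧
        (vcon G v j').2.2 b = g (vcon G v j').2.1).card : ℝ) ≤
      4 * (G.length : ℝ) ^ ℓ * (d * (γ * G.length)) := by
  set B : Fin R₁ → ℕ × ℕ × (Fin R₁ → Fin R₂) → Bool := fun b c => decide (c.2.2 b = g c.2.1)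
    with hB
  have hne : (univ : Finset (Fin R₁)).Nonempty := ⟨⟨0, hR⟩, mem_univ _⟩
  have hmax : ∀ x : ℕ, ∃ b : Fin R₁, ∀ b', cnt G x (B b') ≤ cnt G x (B b) := by
    intro x
    obtain ⟨b, _, hb⟩ := Finset.exists_max_image univ (fun b => cnt G x (B b)) hne
    exact ⟨b, fun b' => hb b' (mem_univ _)⟩
  choose f hf using hmax
  -- the union over the labels
  have h1 : ((range (G.length ^ (ℓ + 1))).filter fun v => ∃ b : Fin R₁,
      (vcon G v j).2.2 b = g (vcon G v j).2.1 ∧
        (vcon G v j').2.2 b = g (vcon G v j').2.1) ⊆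
      univ.biUnion fun b : Fin R₁ => (range (G.length ^ (ℓ + 1))).filter fun v =>
        B b (vcon G v j) = true ∧ B b (vcon G v j') = true := by
    intro v hv
    rw [mem_filter] at hv
    obtain ⟨hv1, b, hb1, hb2⟩ := hv
    rw [mem_biUnion]
    refine ⟨b, mem_univ _, ?_⟩
    rw [mem_filter]
    exact ⟨hv1, by simpa [hB] using hb1, by simpa [hB] using hb2⟩
  have h2 : (((range (G.length ^ (ℓ + 1))).filter fun v => ∃ b : Fin R₁,
      (vcon G v j).2.2 b = g (vcon G v j).2.1 ∧
        (vcon G v j').2.2 b = g (vcon G v j').2.1).card : ℝ) ≤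
      ∑ b : Fin R₁, (((range (G.length ^ (ℓ + 1))).filter fun v =>
        B b (vcon G v j) = true ∧ B b (vcon G v j') = true).card : ℝ) := by
    exact_mod_cast le_trans (Finset.card_le_card h1) Finset.card_biUnion_le
  refine le_trans h2 ?_
  refine le_trans (Finset.sum_le_sum fun b _ =>
    count_two hno.1 ℓ j j' hj hj' hjj (B b) (B b)) ?_
  rw [← Finset.mul_sum]
  apply mul_le_mul_of_nonneg_left _ (by positivity)
  rw [Finset.sum_comm]
  have h3 : ∀ x ∈ lverts G, ∑ b : Fin R₁, (cnt G x (B b) : ℝ) * cnt G x (B b) /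
      (consAt G x).length ≤ d * (cnt G x (B (f x)) : ℝ) := by
    intro x hx
    have hpos : 0 < (consAt G x).length := by
      rw [lverts, List.mem_toFinset, List.mem_map] at hx
      obtain ⟨c, hc, hcx⟩ := hx
      apply List.length_pos_of_mem (a := c)
      unfold consAt
      rw [List.mem_filter]
      exact ⟨hc, by simpa using hcx⟩
    have hpos' : (0 : ℝ) < (consAt G x).length := by exact_mod_cast hpos
    have hs : ∑ b : Fin R₁, cnt G x (B b) = d * (consAt G x).length := by
      unfold cnt
      apply UGAgree_sum_len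
      intro c hc
      have hcG : c ∈ G := by
        unfold consAt at hc
        exact (List.mem_filter.1 hc).1
      rw [← hG c hcG (g c.2.1)]
      congr 1
      ext b
      simp [hB]
    have hs' : ∑ b : Fin R₁, (cnt G x (B b) : ℝ) = d * (consAt G x).length := by
      exact_mod_cast hs
    calc ∑ b : Fin R₁, (cnt G x (B b) : ℝ) * cnt G x (B b) / (consAt G x).length
        ≤ ∑ b : Fin R₁, (cnt G x (B b) : ℝ) * (cnt G x (B (f x)) / (consAt G x).length) := by
          apply Finset.sum_le_sum
          intro b _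
          rw [mul_div_assoc]
          apply mul_le_mul_of_nonneg_left _ (Nat.cast_nonneg _)
          apply div_le_div_of_nonneg_right _ hpos'.le
          exact_mod_cast hf x b
      _ = d * (cnt G x (B (f x)) : ℝ) := by
          rw [← Finset.sum_mul, hs']
          field_simp
  refine le_trans (Finset.sum_le_sum h3) ?_
  rw [← Finset.mul_sum]
  apply mul_le_mul_of_nonneg_left _ (Nat.cast_nonneg _)
  refine le_trans ?_ (hno.2 f g)
  have h4 := UGAgree_sum_vert G (fun x c => B (f x) c) (lverts G)
  unfold Game.sat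
  exact_mod_cast h4

open Classical in
theorem two_agree {G : Game R₁ R₂} {d : ℕ} {γ : ℝ} (hG : G.DTo1 d) (hno : G.No γ) (ℓ : ℕ)
    (g : ℕ → Fin R₂) :
    (((range (G.length ^ (ℓ + 1))).filter fun v => TwoAgree G ℓ g v).card : ℝ) ≤
      2 * (ℓ : ℝ) ^ 2 * (d * γ) * (G.length : ℝ) ^ (ℓ + 1) := by
  rcases Nat.eq_zero_or_pos R₁ with hR | hR
  · have h0 : ((range (G.length ^ (ℓ + 1))).filter fun v => TwoAgree G ℓ g v) = ∅ := by
      apply Finset.filter_eq_empty_iff.2
      rintro v _ ⟨j, _, j', _, _, b, _⟩
      exact absurd b.2 (by omega)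
    have hd : d = 0 := by
      obtain ⟨c, hc⟩ := List.exists_mem_of_ne_nil _ hno.1
      rw [← hG c hc 0]
      apply Finset.card_eq_zero.2
      apply Finset.filter_eq_empty_iff.2
      intro b _
      exact absurd b.2 (by omega)
    rw [h0, hd]
    simp
  · set P : Finset (ℕ × ℕ) := (range ℓ ×ˢ range ℓ).filter fun q => q.1 < q.2 with hP
    have hsub : ((range (G.length ^ (ℓ + 1))).filter fun v => TwoAgree G ℓ g v) ⊆
        P.biUnion fun q => (range (G.length ^ (ℓ + 1))).filter fun v => ∃ b : Fin R₁,
          (vcon G v q.1).2.2 b = g (vcon G v q.1).2.1 ∧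
            (vcon G v q.2).2.2 b = g (vcon G v q.2).2.1 := by
      intro v hv
      rw [mem_filter] at hv
      obtain ⟨hv1, j, hj, j', hj', hjj, b, hb1, hb2⟩ := hv
      rw [mem_biUnion]
      rcases lt_or_gt_of_ne hjj with h | h
      · refine ⟨(j, j'), ?_, ?_⟩
        · rw [hP, mem_filter, mem_product, mem_range, mem_range]
          exact ⟨⟨hj, hj'⟩, h⟩
        · rw [mem_filter]
          exact ⟨hv1, b, hb1, hb2⟩
      · refine ⟨(j', j), ?_, ?_⟩
        · rw [hP, mem_filter, mem_product, mem_range, mem_range]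
          exact ⟨⟨hj', hj⟩, h⟩
        · rw [mem_filter]
          exact ⟨hv1, b, hb2, hb1⟩
    have hc1 : (((range (G.length ^ (ℓ + 1))).filter fun v => TwoAgree G ℓ g v).card : ℝ) ≤
        ∑ q ∈ P, (((range (G.length ^ (ℓ + 1))).filter fun v => ∃ b : Fin R₁,
          (vcon G v q.1).2.2 b = g (vcon G v q.1).2.1 ∧
            (vcon G v q.2).2.2 b = g (vcon G v q.2).2.1).card : ℝ) := by
      exact_mod_cast le_trans (Finset.card_le_card hsub) Finset.card_biUnion_le
    have hc2 : ∑ q ∈ P, (((range (G.length ^ (ℓ + 1))).filter fun v => ∃ b : Fin R₁,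
          (vcon G v q.1).2.2 b = g (vcon G v q.1).2.1 ∧
            (vcon G v q.2).2.2 b = g (vcon G v q.2).2.1).card : ℝ) ≤
        ∑ q ∈ P, 4 * (G.length : ℝ) ^ ℓ * (d * (γ * G.length)) := by
      apply Finset.sum_le_sum
      intro q hq
      rw [hP, mem_filter, mem_product, mem_range, mem_range] at hq
      exact UGAgree_pair hG hno ℓ g hR q.1 q.2 hq.1.1 hq.1.2 (ne_of_lt hq.2)
    refine le_trans hc1 (le_trans hc2 ?_)
    rw [Finset.sum_const, nsmul_eq_mul]
    have hcard : 2 * P.card ≤ ℓ ^ 2 := by
      have hsw : ((range ℓ ×ˢ range ℓ).filter fun q => q.2 < q.1).card = P.card := by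
        apply Finset.card_bij (fun q _ => (q.2, q.1))
        · intro q hq
          rw [mem_filter, mem_product] at hq
          rw [hP, mem_filter, mem_product]
          exact ⟨⟨hq.1.2, hq.1.1⟩, hq.2⟩
        · intro q _ q' _ h
          simp only [Prod.mk.injEq] at h
          exact Prod.ext h.2 h.1
        · intro q hq
          rw [hP, mem_filter, mem_product] at hq
          refine ⟨(q.2, q.1), ?_, rfl⟩
          rw [mem_filter, mem_product]
          exact ⟨⟨hq.1.2, hq.1.1⟩, hq.2⟩
      have hdis : Disjoint P ((range ℓ ×ˢ range ℓ).filter fun q => q.2 < q.1) := by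
        rw [hP]
        apply Finset.disjoint_filter_filter_not _ _ _ |>.mono_right
        intro q hq
        rw [mem_filter] at hq ⊢
        exact ⟨hq.1, by omega⟩
      have hle : (P ∪ ((range ℓ ×ˢ range ℓ).filter fun q => q.2 < q.1)).card ≤
          (range ℓ ×ˢ range ℓ).card := by
        apply Finset.card_le_card
        apply Finset.union_subset
        · exact Finset.filter_subset _ _
        · exact Finset.filter_subset _ _
      rw [Finset.card_union_of_disjoint hdis, hsw, card_product, card_range] at hle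
      nlinarith
    have hcard' : 2 * (P.card : ℝ) ≤ (ℓ : ℝ) ^ 2 := by exact_mod_cast hcard
    have hγ : 0 ≤ γ * G.length := by
      have : NeZero R₁ := ⟨by omega⟩
      exact le_trans (Nat.cast_nonneg _) (hno.2 (fun _ => 0) (fun _ => 0))
    have hnn : 0 ≤ (G.length : ℝ) ^ ℓ * (d * (γ * G.length)) := by positivity
    calc (P.card : ℝ) * (4 * (G.length : ℝ) ^ ℓ * (d * (γ * G.length)))
        = 2 * (2 * (P.card : ℝ)) * ((G.length : ℝ) ^ ℓ * (d * (γ * G.length))) := by ring
      _ ≤ 2 * (ℓ : ℝ) ^ 2 * ((G.length : ℝ) ^ ℓ * (d * (γ * G.length))) := by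
          apply mul_le_mul_of_nonneg_right _ hnn
          linarith
      _ = 2 * (ℓ : ℝ) ^ 2 * (d * γ) * (G.length : ℝ) ^ (ℓ + 1) := by ring

end SMT
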