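import Pool.Agent.SMT.UGAgree

/-!
# MODULE UGNo: sets of tuples with pairwise intersecting lists are small

For a right vertex `y` that occurs as `(vcon G v j).2.1` for some `v ∈ S`, `j < ℓ` let
`N y = {(v, j) : v ∈ S, j < ℓ, (vcon G v j).2.1 = y}`. Fix `(u0, j0) ∈ N y`; the list
`(vcon G u0 j0).2.2 '' L u0` has at most `t` elements and meets `(vcon G v j).2.2 '' L v` for every
`(v, j) ∈ N y`; so some label `g y` is in at least `|N y| / t` of these. Call `(v, j)` an agreement if
`g (vcon G v j).2.1 ∈ (vcon G v j).2.2 '' L v`; then `ℓ |S| = ∑_y |N y| ≤ t · #agreements`.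
If `v ∈ S` is not `TwoAgree` it has at most `|L v| ≤ t` agreements (each `j` gives an element of
`L v` agreeing with it, different `j` give different elements); otherwise at most `ℓ`. So
`#agreements ≤ t |S| + ℓ · #TwoAgree`, and `two_agree` finishes. (`g y = 0` elsewhere.)
-/

namespace SMT

open Finset

variable {R₁ R₂ : ℕ} [NeZero R₂]

/-- the agreements of the label `b` in the fibre -/
theorem UGNo_pick {α β : Type} [DecidableEq α] [DecidableEq β] [Nonempty β] (N : Finset α)
    (J : α → Finset β) (t : ℕ) (ht : ∀ p ∈ N, (J p).card ≤ t)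
    (hint : ∀ p ∈ N, ∀ q ∈ N, ∃ b ∈ J p, b ∈ J q) :
    ∃ b : β, N.card ≤ t * (N.filter fun p => b ∈ J p).card := by
  rcases N.eq_empty_or_nonempty with rfl | ⟨p0, hp0⟩
  · exact ⟨Classical.arbitrary β, by simp⟩
  obtain ⟨b0, hb0, -⟩ := hint p0 hp0 p0 hp0
  obtain ⟨b, hb, hmax⟩ := (J p0).exists_max_image (fun b => (N.filter fun p => b ∈ J p).card)
    ⟨b0, hb0⟩
  refine ⟨b, ?_⟩
  have h1 : N ⊆ (J p0).biUnion fun b => N.filter fun p => b ∈ J p := by
    intro p hp
    obtain ⟨c, hc1, hc2⟩ := hint p0 hp0 p hp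
    rw [mem_biUnion]
    exact ⟨c, hc1, mem_filter.2 ⟨hp, hc2⟩⟩
  calc N.card ≤ ((J p0).biUnion fun b => N.filter fun p => b ∈ J p).card := card_le_card h1
    _ ≤ ∑ b ∈ J p0, (N.filter fun p => b ∈ J p).card := card_biUnion_le
    _ ≤ ∑ _c ∈ J p0, (N.filter fun p => b ∈ J p).card := sum_le_sum fun c hc => hmax c hc
    _ = (J p0).card * (N.filter fun p => b ∈ J p).card := by rw [sum_const, smul_eq_mul]
    _ ≤ t * (N.filter fun p => b ∈ J p).card := Nat.mul_le_mul_right _ (ht p0 hp0)

open Classical in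
theorem UGNo_nat (G : Game R₁ R₂) (ℓ t : ℕ) (S : Finset ℕ)
    (L : ℕ → Finset (Fin R₁)) (hL : ∀ v ∈ S, (L v).card ≤ t)
    (hint : ∀ v ∈ S, ∀ u ∈ S, ∀ j < ℓ, ∀ j' < ℓ, (vcon G v j).2.1 = (vcon G u j').2.1 →
      ∃ i ∈ L v, ∃ i' ∈ L u, (vcon G v j).2.2 i = (vcon G u j').2.2 i') :
    ∃ g : ℕ → Fin R₂, ℓ * S.card ≤ t * (t * S.card + ℓ * (S.filter fun v => TwoAgree G ℓ g v).card) := by
  set P : Finset (ℕ × ℕ) := S ×ˢ range ℓ with hP
  set Y : ℕ × ℕ → ℕ := fun p => (vcon G p.1 p.2).2.1 with hY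
  set J : ℕ × ℕ → Finset (Fin R₂) := fun p => (L p.1).image (vcon G p.1 p.2).2.2 with hJ
  have hmem : ∀ p ∈ P, p.1 ∈ S ∧ p.2 < ℓ := by
    intro p hp
    rw [hP, mem_product, mem_range] at hp
    exact hp
  have hex : ∀ y : ℕ, ∃ b : Fin R₂, (P.filter fun p => Y p = y).card ≤
      t * ((P.filter fun p => Y p = y).filter fun p => b ∈ J p).card := by
    intro y
    apply UGNo_pick
    · intro p hp
      have hp' := hmem p (mem_filter.1 hp).1
      exact le_trans card_image_le (hL p.1 hp'.1)
    · intro p hp q hq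
      have hp1 := (mem_filter.1 hp).2
      have hq1 := (mem_filter.1 hq).2
      have hp' := hmem p (mem_filter.1 hp).1
      have hq' := hmem q (mem_filter.1 hq).1
      obtain ⟨i, hi, i', hi', he⟩ := hint p.1 hp'.1 q.1 hq'.1 p.2 hp'.2 q.2 hq'.2
        (by rw [hY] at hp1 hq1; exact hp1.trans hq1.symm)
      exact ⟨_, mem_image_of_mem _ hi, by rw [he]; exact mem_image_of_mem _ hi'⟩
  choose g hg using hex
  refine ⟨g, ?_⟩
  set Agr : Finset (ℕ × ℕ) := P.filter fun p => g (Y p) ∈ J p with hAgr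
  have h1 : ℓ * S.card ≤ t * Agr.card := by
    have e1 : P.card = ∑ y ∈ P.image Y, (P.filter fun p => Y p = y).card :=
      card_eq_sum_card_image Y P
    have e2 : Agr.card = ∑ y ∈ P.image Y, (Agr.filter fun p => Y p = y).card := by
      apply card_eq_sum_card_fiberwise
      intro p hp
      have : p ∈ P := (mem_filter.1 hp).1
      exact mem_coe.2 (mem_image_of_mem Y this)
    have e3 : P.card = ℓ * S.card := by
      rw [hP, card_product, card_range, Nat.mul_comm]
    rw [← e3, e1, e2, mul_sum]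
    apply sum_le_sum
    intro y _
    refine le_trans (hg y) ?_
    apply Nat.mul_le_mul_left
    apply card_le_card
    intro p hp
    rw [mem_filter, mem_filter] at hp
    rw [mem_filter, hAgr, mem_filter]
    refine ⟨⟨hp.1.1, ?_⟩, hp.1.2⟩
    rw [hp.1.2]
    exact hp.2
  have h2 : Agr.card ≤ t * S.card + ℓ * (S.filter fun v => TwoAgree G ℓ g v).card := by
    have e1 : Agr.card = ∑ v ∈ S, (Agr.filter fun p => p.1 = v).card := by
      apply card_eq_sum_card_fiberwise
      intro p hp
      exact mem_coe.2 (hmem p (mem_filter.1 hp).1).1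
    have e2 : ∀ v ∈ S, (Agr.filter fun p => p.1 = v).card ≤
        t + ℓ * (if TwoAgree G ℓ g v then 1 else 0) := by
      intro v hv
      by_cases hT : TwoAgree G ℓ g v
      · rw [if_pos hT]
        have : (Agr.filter fun p => p.1 = v).card ≤ (range ℓ).card := by
          apply card_le_card_of_injOn Prod.snd
          · intro p hp
            have := (mem_filter.1 (mem_coe.1 hp)).1
            exact mem_coe.2 (mem_range.2 (hmem p (mem_filter.1 this).1).2)
          · intro p hp q hq hpq
            have h3 := (mem_filter.1 (mem_coe.1 hp)).2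
            have h4 := (mem_filter.1 (mem_coe.1 hq)).2
            exact Prod.ext (h3.trans h4.symm) hpq
        rw [card_range] at this
        omega
      · rw [if_neg hT, mul_zero, add_zero]
        rcases (Agr.filter fun p => p.1 = v).eq_empty_or_nonempty with hemp | ⟨p0, hp0⟩
        · rw [hemp, card_empty]; exact Nat.zero_le _
        have hR : Nonempty (Fin R₁) := by
          rw [mem_filter, hAgr, mem_filter] at hp0
          obtain ⟨⟨_, hp2⟩, _⟩ := hp0
          rw [hJ] at hp2
          obtain ⟨i, _, _⟩ := mem_image.1 hp2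
          exact ⟨i⟩
        have hch : ∀ p : ℕ × ℕ, ∃ i : Fin R₁, p ∈ (Agr.filter fun p => p.1 = v) →
            i ∈ L v ∧ (vcon G v p.2).2.2 i = g (vcon G v p.2).2.1 := by
          intro p
          by_cases hp : p ∈ (Agr.filter fun p => p.1 = v)
          · rw [mem_filter, hAgr, mem_filter] at hp
            obtain ⟨⟨hp1, hp2⟩, hp3⟩ := hp
            rw [hJ] at hp2
            obtain ⟨i, hi, hie⟩ := mem_image.1 hp2
            subst hp3
            exact ⟨i, fun _ => ⟨hi, hie⟩⟩
          · exact ⟨Classical.arbitrary _, fun h => absurd h hp⟩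
        choose c hc using hch
        have : (Agr.filter fun p => p.1 = v).card ≤ (L v).card := by
          apply card_le_card_of_injOn c
          · intro p hp
            exact mem_coe.2 (hc p (mem_coe.1 hp)).1
          · intro p hp q hq hpq
            by_contra hne
            apply hT
            have hp' := mem_coe.1 hp
            have hq' := mem_coe.1 hq
            have h3 := (mem_filter.1 hp').2
            have h4 := (mem_filter.1 hq').2
            have h5 := (hmem p (mem_filter.1 (mem_filter.1 hp').1).1).2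
            have h6 := (hmem q (mem_filter.1 (mem_filter.1 hq').1).1).2
            refine ⟨p.2, h5, q.2, h6, ?_, c p, (hc p hp').2, ?_⟩
            · intro h7
              exact hne (Prod.ext (h3.trans h4.symm) h7)
            · rw [hpq]; exact (hc q hq').2
        exact le_trans this (hL v hv)
    rw [e1]
    calc ∑ v ∈ S, (Agr.filter fun p => p.1 = v).card
        ≤ ∑ v ∈ S, (t + ℓ * (if TwoAgree G ℓ g v then 1 else 0)) := sum_le_sum e2
      _ = t * S.card + ℓ * (S.filter fun v => TwoAgree G ℓ g v).card := by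
          rw [sum_add_distrib, sum_const, smul_eq_mul, ← mul_sum, card_filter, Nat.mul_comm]
  exact le_trans h1 (Nat.mul_le_mul_left _ h2)

theorem ug_no {G : Game R₁ R₂} {d : ℕ} {γ : ℝ} (hG : G.DTo1 d) (hno : G.No γ) (ℓ t : ℕ)
    (S : Finset ℕ)
    (hS : ∀ v ∈ S, v < G.length ^ (ℓ + 1)) (L : ℕ → Finset (Fin R₁)) (hL : ∀ v ∈ S, (L v).card ≤ t)
    (hint : ∀ v ∈ S, ∀ u ∈ S, ∀ j < ℓ, ∀ j' < ℓ, (vcon G v j).2.1 = (vcon G u j').2.1 →
      ∃ i ∈ L v, ∃ i' ∈ L u, (vcon G v j).2.2 i = (vcon G u j').2.2 i') :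
    (ℓ : ℝ) * S.card ≤
      t * (t * S.card + ℓ * (2 * (ℓ : ℝ) ^ 2 * (d * γ) * (G.length : ℝ) ^ (ℓ + 1))) := by
  classical
  obtain ⟨g, hg⟩ := UGNo_nat G ℓ t S L hL hint
  have h1 := two_agree hG hno ℓ g
  have h2 : (S.filter fun v => TwoAgree G ℓ g v).card ≤
      ((range (G.length ^ (ℓ + 1))).filter fun v => TwoAgree G ℓ g v).card := by
    apply card_le_card
    intro v hv
    rw [mem_filter] at hv ⊢
    exact ⟨mem_range.2 (hS v hv.1), hv.2⟩
  have h3 : ((S.filter fun v => TwoAgree G ℓ g v).card : ℝ) ≤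
      2 * (ℓ : ℝ) ^ 2 * (d * γ) * (G.length : ℝ) ^ (ℓ + 1) := by
    refine le_trans ?_ h1
    have : ((S.filter fun v => TwoAgree G ℓ g v).card : ℝ) ≤
      (((range (G.length ^ (ℓ + 1))).filter fun v => TwoAgree G ℓ g v).card : ℝ) := by
      exact_mod_cast h2
    convert this
  have h4 : (ℓ : ℝ) * S.card ≤
      t * (t * S.card + ℓ * (S.filter fun v => TwoAgree G ℓ g v).card) := by
    exact_mod_cast hg
  refine le_trans h4 ?_
  gcongr

end SMT
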