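import Pool.Agent.SMT.Red

/-!
# MODULE UGTool: tuples and their constraints, counting

`digit m v j` for `j ≤ ℓ` are the base `m` digits of `v < m^(ℓ+1)`: this is
`finFunctionFinEquiv : (Fin (ℓ+1) → Fin m) ≃ Fin (m^(ℓ+1))`. Fixing `digit v 0 = i0` (which fixes
`x = vx G v`, `d = |consAt G x| ≥ 1`, `d ≤ m`), the digit number `j+1` is uniform in `range m` and at
most `⌈m/d⌉ ≤ 2m/d` of its values give a fixed position of `consAt G x`. So for a property `B` of
constraints, with `b_x` = number of constraints at `x` with `B`: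
`#{v : B (vcon G v j)} ≤ ∑_{i0} (2 m / d) b_x m^(ℓ-1) = 2 m^ℓ ∑_x b_x`.
For two different places `j ≠ j'` the two digits are independent:
`#{v : B1 (vcon v j) ∧ B2 (vcon v j')} ≤ ∑_{i0} (2m/d)² b1_x b2_x m^(ℓ-2)`; multiply out:
`= 4 m^ℓ ∑_x b1_x b2_x / d_x` (real numbers).
-/

namespace SMT

open Finset

variable {R₁ R₂ : ℕ} [NeZero R₂]

private theorem ugt_getD_mem {α : Type*} (L : List α) (d0 : α) (t : ℕ) (ht : t < L.length) :
    L.getD t d0 ∈ L := by
  rw [List.getD_eq_getElem L d0 ht]
  exact List.getElem_mem ht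

private theorem ugt_len_pos {G : Game R₁ R₂} (hG : G ≠ []) : 0 < G.length :=
  List.length_pos_iff.2 hG

private theorem ugt_digit_lt {G : Game R₁ R₂} (hG : G ≠ []) (v j : ℕ) :
    digit G.length v j < G.length :=
  Nat.mod_lt _ (ugt_len_pos hG)

private theorem ugt_consAt_ne {G : Game R₁ R₂} {i : ℕ} (hi : i < G.length) :
    consAt G (G.getD i (dflt R₁ R₂)).1 ≠ [] := by
  intro h
  have h1 : G.getD i (dflt R₁ R₂) ∈ consAt G (G.getD i (dflt R₁ R₂)).1 := by
    unfold consAt
    rw [List.mem_filter]
    exact ⟨ugt_getD_mem _ _ _ hi, by simp⟩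
  rw [h] at h1
  simp at h1

/-- the constraint number `digit m v 0` is at `vx G v` -/
theorem consAt_vx_ne {G : Game R₁ R₂} (hG : G ≠ []) (v : ℕ) : consAt G (vx G v) ≠ [] :=
  ugt_consAt_ne (ugt_digit_lt hG v 0)

theorem vcon_mem {G : Game R₁ R₂} (hG : G ≠ []) (v j : ℕ) : vcon G v j ∈ consAt G (vx G v) :=
  ugt_getD_mem _ _ _ (Nat.mod_lt _ (List.length_pos_iff.2 (consAt_vx_ne hG v)))

theorem vcon_fst {G : Game R₁ R₂} (hG : G ≠ []) (v j : ℕ) : (vcon G v j).1 = vx G v := by
  have h := vcon_mem hG v j
  unfold consAt at h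
  rw [List.mem_filter] at h
  simpa using h.2

theorem vcon_mem' {G : Game R₁ R₂} (hG : G ≠ []) (v j : ℕ) : vcon G v j ∈ G :=
  (List.mem_filter.1 (vcon_mem hG v j)).1

/-- number of constraints at `x` with property `B` -/
def cnt {R₁ R₂ : ℕ} (G : Game R₁ R₂) (x : ℕ) (B : ℕ × ℕ × (Fin R₁ → Fin R₂) → Bool) : ℕ :=
  ((consAt G x).filter B).length

/-- positions of a list with property `B` -/
private theorem ugt_count {α : Type*} (L : List α) (d0 : α) (B : α → Bool) :
    ((range L.length).filter fun t => B (L.getD t d0) = true).card = (L.filter B).length := by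
  induction L with
  | nil => simp
  | cons a L ih =>
    rw [Finset.card_filter] at ih ⊢
    rw [List.length_cons, Finset.sum_range_succ']
    simp only [List.getD_cons_succ, List.getD_cons_zero]
    rw [ih, List.filter_cons]
    by_cases h : B a = true
    · simp [h]
    · simp [h]

/-- the values of a digit that give a constraint with property `B` -/
private def ugtS {R₁ R₂ : ℕ} [NeZero R₂] (G : Game R₁ R₂) (i0 : ℕ)
    (B : ℕ × ℕ × (Fin R₁ → Fin R₂) → Bool) : Finset ℕ :=
  (range G.length).filter fun r => B ((consAt G (G.getD i0 (dflt R₁ R₂)).1).getD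
    (r % (consAt G (G.getD i0 (dflt R₁ R₂)).1).length) (dflt R₁ R₂)) = true

private theorem ugt_fiber (m d t : ℕ) :
    ((range m).filter fun r => r % d = t).card ≤ m / d + 1 := by
  have : ((range m).filter fun r => r % d = t).card ≤ (range (m / d + 1)).card := by
    refine card_le_card_of_injOn (fun r => r / d) ?_ ?_
    · intro r hr
      simp only [coe_filter, mem_range, Set.mem_setOf_eq] at hr
      simp only [coe_range, Set.mem_Iio]
      exact Nat.lt_succ_of_le (Nat.div_le_div_right hr.1.le)
    · intro r hr r' hr' h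
      simp only [coe_filter, mem_range, Set.mem_setOf_eq] at hr hr'
      simp only at h
      rw [← Nat.div_add_mod r d, ← Nat.div_add_mod r' d, hr.2, hr'.2, h]
  simpa using this

private theorem ugt_len_le {G : Game R₁ R₂} (x : ℕ) : (consAt G x).length ≤ G.length :=
  List.length_filter_le _ _

private theorem ugtS_card {G : Game R₁ R₂} (i0 : ℕ) (hi : i0 < G.length)
    (B : ℕ × ℕ × (Fin R₁ → Fin R₂) → Bool) :
    ((ugtS G i0 B).card : ℝ) ≤ 2 * G.length / (consAt G (G.getD i0 (dflt R₁ R₂)).1).length *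
      cnt G (G.getD i0 (dflt R₁ R₂)).1 B := by
  set x := (G.getD i0 (dflt R₁ R₂)).1 with hx
  set L := consAt G x with hL
  have hLpos : 0 < L.length := List.length_pos_iff.2 (ugt_consAt_ne hi)
  have hLm : L.length ≤ G.length := ugt_len_le x
  have h1 : (ugtS G i0 B).card ≤ (G.length / L.length + 1) * cnt G x B := by
    set T := (range L.length).filter fun t => B (L.getD t (dflt R₁ R₂)) = true with hT
    have hTc : T.card = cnt G x B := ugt_count L (dflt R₁ R₂) B
    have hmaps : Set.MapsTo (fun r => r % L.length) (ugtS G i0 B : Set ℕ) (T : Set ℕ) := by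
      intro r hr
      simp only [ugtS, coe_filter, mem_range, Set.mem_setOf_eq] at hr
      simp only [hT, coe_filter, mem_range, Set.mem_setOf_eq]
      exact ⟨Nat.mod_lt _ hLpos, hr.2⟩
    rw [card_eq_sum_card_fiberwise hmaps, ← hTc]
    calc ∑ t ∈ T, ((ugtS G i0 B).filter fun r => r % L.length = t).card
        ≤ ∑ _t ∈ T, (G.length / L.length + 1) := by
          refine sum_le_sum fun t _ => ?_
          refine (card_le_card ?_).trans (ugt_fiber G.length L.length t)
          intro r hr
          simp only [ugtS, mem_filter, mem_range] at hr ⊢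
          exact ⟨hr.1.1, hr.2⟩
      _ = (G.length / L.length + 1) * T.card := by
          rw [sum_const, smul_eq_mul, Nat.mul_comm]
  have h2 : ((G.length / L.length + 1 : ℕ) : ℝ) ≤ 2 * G.length / L.length := by
    have hL0 : (0 : ℝ) < L.length := by exact_mod_cast hLpos
    have h3 : ((G.length / L.length : ℕ) : ℝ) ≤ (G.length : ℝ) / L.length := Nat.cast_div_le
    have h4 : (1 : ℝ) ≤ (G.length : ℝ) / L.length := by
      rw [le_div_iff₀ hL0, one_mul]
      exact_mod_cast hLm
    push_cast
    calc ((G.length / L.length : ℕ) : ℝ) + 1 ≤ (G.length : ℝ) / L.length + (G.length : ℝ) / L.length :=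
          add_le_add h3 h4
      _ = 2 * G.length / L.length := by ring
  calc ((ugtS G i0 B).card : ℝ) ≤ ((G.length / L.length + 1 : ℕ) : ℝ) * cnt G x B := by
        exact_mod_cast h1
    _ ≤ 2 * G.length / L.length * cnt G x B :=
        mul_le_mul_of_nonneg_right h2 (Nat.cast_nonneg _)

/-- numbers with prescribed digits -/
private theorem ugt_digits (m n : ℕ) (A : Fin n → Finset ℕ) :
    ((range (m ^ n)).filter fun v => ∀ k : Fin n, digit m v k ∈ A k).card ≤
      ∏ k, (A k).card := by
  rw [← Fintype.card_piFinset]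
  refine card_le_card_of_injOn (fun v k => digit m v k) ?_ ?_
  · intro v hv
    simp only [coe_filter, mem_range, Set.mem_setOf_eq] at hv
    simp only [mem_coe, Fintype.mem_piFinset]
    exact hv.2
  · intro v hv v' hv' h
    simp only [coe_filter, mem_range, Set.mem_setOf_eq] at hv hv'
    have h1 : (finFunctionFinEquiv.symm (⟨v, hv.1⟩ : Fin (m ^ n))) =
        finFunctionFinEquiv.symm (⟨v', hv'.1⟩ : Fin (m ^ n)) := by
      funext k
      apply Fin.ext
      rw [finFunctionFinEquiv_symm_apply_val, finFunctionFinEquiv_symm_apply_val]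
      exact congrFun h k
    have h2 := finFunctionFinEquiv.symm.injective h1
    simpa using h2

private theorem ugt_prod1 (ℓ : ℕ) (j : Fin ℓ) (s m : ℕ) :
    ∏ k : Fin ℓ, (if k = j then s else m) = s * m ^ (ℓ - 1) := by
  rw [← mul_prod_erase univ _ (mem_univ j)]
  have h : ∀ k ∈ univ.erase j, (if k = j then s else m) = m := fun k hk => by
    rw [if_neg (ne_of_mem_erase hk)]
  rw [prod_congr rfl h, prod_const, card_erase_of_mem (mem_univ j)]
  simp

private theorem ugt_prod2 (ℓ : ℕ) (j j' : Fin ℓ) (hjj : j ≠ j') (s s' m : ℕ) :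
    ∏ k : Fin ℓ, (if k = j then s else if k = j' then s' else m) = s * (s' * m ^ (ℓ - 2)) := by
  rw [← mul_prod_erase univ _ (mem_univ j), ← mul_prod_erase (univ.erase j) _
    (mem_erase.2 ⟨hjj.symm, mem_univ j'⟩)]
  have h : ∀ k ∈ (univ.erase j).erase j', (if k = j then s else if k = j' then s' else m) = m :=
    fun k hk => by
      have h1 := ne_of_mem_erase hk
      have h2 := ne_of_mem_erase (mem_of_mem_erase hk)
      rw [if_neg h2, if_neg h1]
  rw [prod_congr rfl h, prod_const, card_erase_of_mem (mem_erase.2 ⟨hjj.symm, mem_univ j'⟩),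
    card_erase_of_mem (mem_univ j)]
  simp [hjj.symm, Nat.sub_sub]

private theorem ugt_vcon {G : Game R₁ R₂} (v j i0 : ℕ) (h : digit G.length v 0 = i0) :
    vcon G v j = (consAt G (G.getD i0 (dflt R₁ R₂)).1).getD
      (digit G.length v (j + 1) % (consAt G (G.getD i0 (dflt R₁ R₂)).1).length) (dflt R₁ R₂) := by
  subst h
  rfl

private theorem ugt_fix1 {G : Game R₁ R₂} (hG : G ≠ []) (ℓ j : ℕ) (hj : j < ℓ)
    (B : ℕ × ℕ × (Fin R₁ → Fin R₂) → Bool) (i0 : ℕ) :
    (((range (G.length ^ (ℓ + 1))).filter fun v => B (vcon G v j) = true).filter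
      fun v => digit G.length v 0 = i0).card ≤ (ugtS G i0 B).card * G.length ^ (ℓ - 1) := by
  have h := ugt_digits G.length (ℓ + 1) (Fin.cons {i0} fun k : Fin ℓ =>
    if k = ⟨j, hj⟩ then ugtS G i0 B else range G.length)
  refine le_trans (card_le_card ?_) (h.trans (le_of_eq ?_))
  · intro v hv
    simp only [mem_filter, mem_range] at hv ⊢
    refine ⟨hv.1.1, fun k => ?_⟩
    refine Fin.cases ?_ (fun k => ?_) k
    · simpa using hv.2
    · rw [Fin.cons_succ]
      split
      · rename_i hk
        subst hk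
        have h1 := hv.1.2
        rw [ugt_vcon v j i0 hv.2] at h1
        simp only [ugtS, mem_filter, mem_range]
        exact ⟨ugt_digit_lt hG _ _, h1⟩
      · rw [mem_range]
        exact ugt_digit_lt hG _ _
  · rw [Fin.prod_univ_succ]
    simp only [Fin.cons_zero, Fin.cons_succ, card_singleton, one_mul]
    rw [← ugt_prod1 ℓ ⟨j, hj⟩]
    refine prod_congr rfl fun k _ => ?_
    split <;> simp

private theorem ugt_fix2 {G : Game R₁ R₂} (hG : G ≠ []) (ℓ j j' : ℕ) (hj : j < ℓ) (hj' : j' < ℓ)
    (hjj : j ≠ j') (B1 B2 : ℕ × ℕ × (Fin R₁ → Fin R₂) → Bool) (i0 : ℕ) :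
    (((range (G.length ^ (ℓ + 1))).filter fun v =>
        B1 (vcon G v j) = true ∧ B2 (vcon G v j') = true).filter
      fun v => digit G.length v 0 = i0).card ≤
      (ugtS G i0 B1).card * ((ugtS G i0 B2).card * G.length ^ (ℓ - 2)) := by
  have h := ugt_digits G.length (ℓ + 1) (Fin.cons {i0} fun k : Fin ℓ =>
    if k = ⟨j, hj⟩ then ugtS G i0 B1 else if k = ⟨j', hj'⟩ then ugtS G i0 B2 else range G.length)
  refine le_trans (card_le_card ?_) (h.trans (le_of_eq ?_))
  · intro v hv
    simp only [mem_filter, mem_range] at hv ⊢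
    refine ⟨hv.1.1, fun k => ?_⟩
    refine Fin.cases ?_ (fun k => ?_) k
    · simpa using hv.2
    · rw [Fin.cons_succ]
      split
      · rename_i hk
        subst hk
        have h1 := hv.1.2.1
        rw [ugt_vcon v j i0 hv.2] at h1
        simp only [ugtS, mem_filter, mem_range]
        exact ⟨ugt_digit_lt hG _ _, h1⟩
      · split
        · rename_i hk
          subst hk
          have h1 := hv.1.2.2
          rw [ugt_vcon v j' i0 hv.2] at h1
          simp only [ugtS, mem_filter, mem_range]
          exact ⟨ugt_digit_lt hG _ _, h1⟩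
        · rw [mem_range]
          exact ugt_digit_lt hG _ _
  · rw [Fin.prod_univ_succ]
    simp only [Fin.cons_zero, Fin.cons_succ, card_singleton, one_mul]
    rw [← ugt_prod2 ℓ ⟨j, hj⟩ ⟨j', hj'⟩ (by simpa using hjj)]
    refine prod_congr rfl fun k _ => ?_
    split
    · rfl
    · split <;> simp

/-- the left vertices that occur -/
def lverts {R₁ R₂ : ℕ} (G : Game R₁ R₂) : Finset ℕ := (G.map Prod.fst).toFinset

private theorem ugt_mem_lverts {G : Game R₁ R₂} {i : ℕ} (hi : i < G.length) :
    (G.getD i (dflt R₁ R₂)).1 ∈ lverts G := by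
  unfold lverts
  rw [List.mem_toFinset]
  exact List.mem_map_of_mem (ugt_getD_mem _ _ _ hi)

private theorem ugt_fib_card (G : Game R₁ R₂) (x : ℕ) :
    ((range G.length).filter fun i => (G.getD i (dflt R₁ R₂)).1 = x).card =
      (consAt G x).length := by
  unfold consAt
  rw [← ugt_count G (dflt R₁ R₂)]
  simp only [decide_eq_true_eq]

/-- sum over the constraints of a function of the left vertex -/
private theorem ugt_sum (G : Game R₁ R₂) (h : ℕ → ℝ) :
    ∑ i ∈ range G.length, h (G.getD i (dflt R₁ R₂)).1 =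
      ∑ x ∈ lverts G, ((consAt G x).length : ℝ) * h x := by
  rw [← sum_fiberwise_of_maps_to (s := range G.length) (t := lverts G)
    (g := fun i => (G.getD i (dflt R₁ R₂)).1)
    (fun i hi => ugt_mem_lverts (mem_range.1 hi))]
  refine sum_congr rfl fun x _ => ?_
  have : ∀ i ∈ (range G.length).filter fun i => (G.getD i (dflt R₁ R₂)).1 = x,
      h (G.getD i (dflt R₁ R₂)).1 = h x := fun i hi => by
    rw [(mem_filter.1 hi).2]
  rw [sum_congr rfl this, sum_const, ugt_fib_card, nsmul_eq_mul]

private theorem ugt_sum_cnt (G : Game R₁ R₂) (B : ℕ × ℕ × (Fin R₁ → Fin R₂) → Bool) :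
    ∑ x ∈ lverts G, cnt G x B = (G.filter B).length := by
  rw [← ugt_count G (dflt R₁ R₂) B]
  have hmaps : Set.MapsTo (fun i => (G.getD i (dflt R₁ R₂)).1)
      (((range G.length).filter fun t => B (G.getD t (dflt R₁ R₂)) = true : Finset ℕ) : Set ℕ)
      (lverts G : Set ℕ) := by
    intro i hi
    simp only [coe_filter, mem_range, Set.mem_setOf_eq] at hi
    exact ugt_mem_lverts hi.1
  rw [card_eq_sum_card_fiberwise hmaps]
  refine sum_congr rfl fun x _ => ?_
  unfold cnt consAt
  rw [List.filter_filter, ← ugt_count G (dflt R₁ R₂), filter_filter]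
  congr 1
  ext i
  simp only [mem_filter, Bool.and_eq_true, decide_eq_true_eq]

theorem count_one {G : Game R₁ R₂} (hG : G ≠ []) (ℓ j : ℕ) (hj : j < ℓ)
    (B : ℕ × ℕ × (Fin R₁ → Fin R₂) → Bool) :
    (((range (G.length ^ (ℓ + 1))).filter fun v => B (vcon G v j) = true).card : ℝ) ≤
      2 * (G.filter B).length * (G.length : ℝ) ^ ℓ := by
  have hmaps : Set.MapsTo (fun v => digit G.length v 0)
      (((range (G.length ^ (ℓ + 1))).filter fun v => B (vcon G v j) = true : Finset ℕ) : Set ℕ)
      (range G.length : Set ℕ) := fun v _ => by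
    simp only [coe_range, Set.mem_Iio]
    exact ugt_digit_lt hG v 0
  have h1 := card_eq_sum_card_fiberwise hmaps
  rw [h1]
  push_cast
  calc ∑ i0 ∈ range G.length, ((((range (G.length ^ (ℓ + 1))).filter fun v =>
          B (vcon G v j) = true).filter fun v => digit G.length v 0 = i0).card : ℝ)
      ≤ ∑ i0 ∈ range G.length, (2 * G.length / (consAt G (G.getD i0 (dflt R₁ R₂)).1).length *
          cnt G (G.getD i0 (dflt R₁ R₂)).1 B * (G.length : ℝ) ^ (ℓ - 1)) := by
        refine sum_le_sum fun i0 hi0 => ?_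
        have h2 := ugt_fix1 hG ℓ j hj B i0
        calc _ ≤ (((ugtS G i0 B).card * G.length ^ (ℓ - 1) : ℕ) : ℝ) := by exact_mod_cast h2
          _ = ((ugtS G i0 B).card : ℝ) * (G.length : ℝ) ^ (ℓ - 1) := by push_cast; rfl
          _ ≤ _ := mul_le_mul_of_nonneg_right (ugtS_card i0 (mem_range.1 hi0) B) (by positivity)
    _ = ∑ x ∈ lverts G, ((consAt G x).length : ℝ) *
          (2 * G.length / (consAt G x).length * cnt G x B * (G.length : ℝ) ^ (ℓ - 1)) :=
        ugt_sum G fun x => 2 * G.length / (consAt G x).length * cnt G x B *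
          (G.length : ℝ) ^ (ℓ - 1)
    _ ≤ ∑ x ∈ lverts G, 2 * (cnt G x B : ℝ) * (G.length : ℝ) ^ ℓ := by
        refine sum_le_sum fun x _ => ?_
        have hpow : (G.length : ℝ) ^ ℓ = G.length * (G.length : ℝ) ^ (ℓ - 1) := by
          rw [← pow_succ']
          congr 1
          omega
        rw [hpow]
        rcases Nat.eq_zero_or_pos (consAt G x).length with h0 | h0
        · rw [h0]
          simp only [Nat.cast_zero, zero_mul]
          positivity
        · have h0' : ((consAt G x).length : ℝ) ≠ 0 := by positivity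
          refine le_of_eq ?_
          field_simp
    _ = 2 * (G.filter B).length * (G.length : ℝ) ^ ℓ := by
        rw [← ugt_sum_cnt G B, ← sum_mul, ← mul_sum]
        push_cast
        rfl

theorem count_two {G : Game R₁ R₂} (hG : G ≠ []) (ℓ j j' : ℕ) (hj : j < ℓ) (hj' : j' < ℓ)
    (hjj : j ≠ j') (B1 B2 : ℕ × ℕ × (Fin R₁ → Fin R₂) → Bool) :
    (((range (G.length ^ (ℓ + 1))).filter fun v =>
        B1 (vcon G v j) = true ∧ B2 (vcon G v j') = true).card : ℝ) ≤
      4 * (G.length : ℝ) ^ ℓ *
        ∑ x ∈ lverts G, (cnt G x B1 : ℝ) * cnt G x B2 / (consAt G x).length := by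
  have hmaps : Set.MapsTo (fun v => digit G.length v 0)
      (((range (G.length ^ (ℓ + 1))).filter fun v =>
        B1 (vcon G v j) = true ∧ B2 (vcon G v j') = true : Finset ℕ) : Set ℕ)
      (range G.length : Set ℕ) := fun v _ => by
    simp only [coe_range, Set.mem_Iio]
    exact ugt_digit_lt hG v 0
  have h1 := card_eq_sum_card_fiberwise hmaps
  rw [h1]
  push_cast
  calc ∑ i0 ∈ range G.length, ((((range (G.length ^ (ℓ + 1))).filter fun v =>
          B1 (vcon G v j) = true ∧ B2 (vcon G v j') = true).filter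
          fun v => digit G.length v 0 = i0).card : ℝ)
      ≤ ∑ i0 ∈ range G.length, ((2 * G.length / (consAt G (G.getD i0 (dflt R₁ R₂)).1).length *
          cnt G (G.getD i0 (dflt R₁ R₂)).1 B1) *
          ((2 * G.length / (consAt G (G.getD i0 (dflt R₁ R₂)).1).length *
          cnt G (G.getD i0 (dflt R₁ R₂)).1 B2) * (G.length : ℝ) ^ (ℓ - 2))) := by
        refine sum_le_sum fun i0 hi0 => ?_
        have h2 := ugt_fix2 hG ℓ j j' hj hj' hjj B1 B2 i0
        have h3 := ugtS_card i0 (mem_range.1 hi0) B1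
        have h4 := ugtS_card i0 (mem_range.1 hi0) B2
        calc _ ≤ (((ugtS G i0 B1).card * ((ugtS G i0 B2).card * G.length ^ (ℓ - 2)) : ℕ) : ℝ) := by
              exact_mod_cast h2
          _ = ((ugtS G i0 B1).card : ℝ) * (((ugtS G i0 B2).card : ℝ) *
              (G.length : ℝ) ^ (ℓ - 2)) := by push_cast; rfl
          _ ≤ _ := by gcongr
    _ = ∑ x ∈ lverts G, ((consAt G x).length : ℝ) *
          ((2 * G.length / (consAt G x).length * cnt G x B1) *
          ((2 * G.length / (consAt G x).length * cnt G x B2) * (G.length : ℝ) ^ (ℓ - 2))) :=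
        ugt_sum G fun x => (2 * G.length / (consAt G x).length * cnt G x B1) *
          ((2 * G.length / (consAt G x).length * cnt G x B2) * (G.length : ℝ) ^ (ℓ - 2))
    _ = ∑ x ∈ lverts G, 4 * (G.length : ℝ) ^ ℓ *
          ((cnt G x B1 : ℝ) * cnt G x B2 / (consAt G x).length) := by
        refine sum_congr rfl fun x _ => ?_
        have hpow : (G.length : ℝ) ^ ℓ = G.length * (G.length * (G.length : ℝ) ^ (ℓ - 2)) := by
          rw [← pow_succ', ← pow_succ']
          congr 1
          omega
        rw [hpow]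
        rcases Nat.eq_zero_or_pos (consAt G x).length with h0 | h0
        · rw [h0]
          simp
        · have h0' : ((consAt G x).length : ℝ) ≠ 0 := by positivity
          field_simp
          ring
    _ = _ := by rw [← mul_sum]

end SMT
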